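import Mathlib

/-!
Definitions for the semisimple counterexample: G = SL(2,R)^3 acts on X = H x SL(2,R), H the upper
half plane, by (a, b, c) (z, x) = (a z, b x c^(-1)).
-/

open MeasureTheory
open scoped ContDiff Topology MatrixGroups UpperHalfPlane

namespace Pool.Agent.Lib.MP_99bfa4_al.SS

/-- The group SL(2,R). -/
abbrev S : Type := SL(2, ℝ)

/-- The group G = SL(2,R) x SL(2,R) x SL(2,R). -/
abbrev G : Type := S × S × S

/-- The space X = H x SL(2,R). -/
abbrev X : Type := ℍ × S

/-- The Borel sigma-algebra on SL(2,R). -/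
instance borelS : MeasurableSpace S := borel S

instance borelSpaceS : BorelSpace S := ⟨rfl⟩

instance locallyCompactS : LocallyCompactSpace S :=
  haveI : LocallyCompactSpace (Matrix (Fin 2) (Fin 2) ℝ) :=
    inferInstanceAs (LocallyCompactSpace (Fin 2 → Fin 2 → ℝ))
  Matrix.SpecialLinearGroup.isClosedEmbedding_val.locallyCompactSpace

/-- The action (a, b, c) (z, x) = (a z, b x c^(-1)). -/
noncomputable instance act : MulAction G X where
  smul g x := (g.1 • x.1, g.2.1 * x.2 * g.2.2⁻¹)
  one_smul x := Prod.ext (one_smul S x.1) (show 1 * x.2 * 1⁻¹ = x.2 by simp)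
  mul_smul g h x := Prod.ext (mul_smul g.1 h.1 x.1)
    (show g.2.1 * h.2.1 * x.2 * (g.2.2 * h.2.2)⁻¹ =
      g.2.1 * (h.2.1 * x.2 * h.2.2⁻¹) * g.2.2⁻¹ by simp [mul_assoc])

/-- The embedding of X in the real vector space C x (2 by 2 real matrices). -/
def emb (x : X) : ℂ × (Fin 2 → Fin 2 → ℝ) := ((x.1 : ℂ), fun i j => x.2.1 i j)

/-- The algebra of smooth complex valued functions on X: the restrictions of functions that are
smooth at every point of X. -/
noncomputable def Smooth : Subalgebra ℂ (X → ℂ) where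
  carrier := {f | ∃ F : ℂ × (Fin 2 → Fin 2 → ℝ) → ℂ,
    ∀ x, ContDiffAt ℝ ∞ F (emb x) ∧ F (emb x) = f x}
  mul_mem' := fun ⟨F, hF⟩ ⟨F', hF'⟩ => ⟨fun e => F e * F' e, fun x =>
    ⟨(hF x).1.mul (hF' x).1, congrArg₂ (· * ·) (hF x).2 (hF' x).2⟩⟩
  add_mem' := fun ⟨F, hF⟩ ⟨F', hF'⟩ => ⟨fun e => F e + F' e, fun x =>
    ⟨(hF x).1.add (hF' x).1, congrArg₂ (· + ·) (hF x).2 (hF' x).2⟩⟩
  algebraMap_mem' := fun c => ⟨fun _ => c, fun _ => ⟨contDiffAt_const, rfl⟩⟩

/-- The product of the hyperbolic area on H and the Haar measure on SL(2,R). -/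
noncomputable def mu : Measure X := (volume : Measure ℍ).prod (Measure.haar : Measure S)

section

variable {K : Type} [Group K] [TopologicalSpace K] {Y : Type} [TopologicalSpace Y]
  [MeasurableSpace Y] [MulAction K Y] {A : Type} [CommRing A] [Algebra ℂ A]

/-- A subgroup acts properly discontinuously and freely on Y. -/
def Discontinuous (Y : Type) [TopologicalSpace Y] [MulAction K Y] (L : Subgroup K) : Prop :=
  ProperlyDiscontinuousSMul L Y ∧ ∀ γ ∈ L, ∀ y : Y, γ • y = y → γ = 1

/-- Neighbourhoods of a homomorphism for the topology of pointwise convergence. -/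
def near {Γ : Type} [Group Γ] (ι : Γ →* K) : Filter (Γ →* K) :=
  Filter.comap (fun φ : Γ →* K => (φ : Γ → K)) (𝓝 (ι : Γ → K))

/-- A continuous path of homomorphisms starts at ι and contains one not conjugate to ι. -/
def Deforms {Γ : Type} [Group Γ] (ι : Γ →* K) : Prop :=
  ∃ φ : unitInterval → (Γ →* K), (∀ γ, Continuous fun s => φ s γ) ∧ φ 0 = ι ∧
    ∃ s, ¬ ∃ g : K, ∀ γ, φ s γ = g * ι γ * g⁻¹

/-- A finitely generated discontinuous group, stable under small deformations, with non-trivial
continuous deformations. -/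
def Admissible (Y : Type) [TopologicalSpace Y] [MulAction K Y] (Γ : Subgroup K) : Prop :=
  Γ.FG ∧ DiscreteTopology Γ ∧ Discontinuous Y Γ ∧
    (∀ᶠ φ in near Γ.subtype, Discontinuous Y φ.range) ∧ Deforms Γ.subtype

/-- For an algebra A of functions on Y (val gives the values): the operators in the algebra
generated by the multiplications and the derivations of A that commute with the translations
f(y) ↦ f(g⁻¹ y), g in K. -/
noncomputable def InvDiffOp (K : Type) [Group K] [MulAction K Y] (val : A → Y → ℂ) :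
    Subalgebra ℂ (Module.End ℂ A) :=
  Algebra.adjoin ℂ ({D | ∃ a : A, ∀ f, D f = a * f} ∪
      {D | ∀ f f', D (f * f') = f * D f' + f' * D f}) ⊓
    Subalgebra.centralizer ℂ {T | ∃ g : K, ∀ f y, val (T f) y = val f (g⁻¹ • y)}

/-- Some L-invariant f in A, square integrable and not almost everywhere zero on a fundamental
domain of L, satisfies D f = l D • f for all D in a family of operators. -/
def HasEigen (μ : Measure Y) (val : A → Y → ℂ) (L : Subgroup K) {B : Type} (op : B → A → A)
    (l : B → ℂ) : Prop :=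
  ∃ (f : A) (F : Set Y), IsFundamentalDomain L F μ ∧ (∀ γ ∈ L, ∀ y, val f (γ • y) = val f y) ∧
    MemLp (val f) 2 (μ.restrict F) ∧ ¬ (val f =ᵐ[μ.restrict F] 0) ∧ ∀ D, op D f = l D • f

/-- Infinitely many characters of the algebra of invariant differential operators are stable
spectra. -/
def InfStable (μ : Measure Y) (val : A → Y → ℂ) (Γ : Subgroup K) : Prop :=
  {l : InvDiffOp K val →ₐ[ℂ] ℂ |
    ∀ᶠ φ in near Γ.subtype, HasEigen μ val φ.range (fun D : InvDiffOp K val => D.val) l}.Infinite

/-- An irreducible (strongly continuous) unitary representation. -/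
def Irred.{u} {V : Type u} [NormedAddCommGroup V] [InnerProductSpace ℂ V]
    (π : K →* (V ≃ₗᵢ[ℂ] V)) : Prop :=
  (∀ v, Continuous fun g => π g v) ∧ Nontrivial V ∧
    ∀ W : Submodule ℂ V, IsClosed (W : Set V) → (∀ g, ∀ v ∈ W, π g v ∈ W) → W = ⊥ ∨ W = ⊤

/-- For a normed space L of classes of functions on Y (val picks representatives): there is a
nonzero continuous linear map into L intertwining π with the translations. -/
def MapsTo.{u} {K : Type} [Group K] {Y : Type} [MeasurableSpace Y] [MulAction K Y]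
    (μ : Measure Y) {L : Type} [NormedAddCommGroup L] [NormedSpace ℂ L] (val : L → Y → ℂ)
    {V : Type u} [NormedAddCommGroup V] [InnerProductSpace ℂ V]
    (π : K →* (V ≃ₗᵢ[ℂ] V)) : Prop :=
  ∃ T : V →L[ℂ] L, T ≠ 0 ∧ ∀ g v, val (T (π g v)) =ᵐ[μ] fun y => val (T v) (g⁻¹ • y)

/-- Some irreducible unitary representation of K on a Hilbert space admits a nonzero continuous
K-homomorphism into the regular representation on L^2(Y, μ). -/
def DiscNonempty.{u} (K : Type) [Group K] [TopologicalSpace K] {Y : Type} [MeasurableSpace Y]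
    [MulAction K Y] (μ : Measure Y) : Prop :=
  ∃ (V : Type u) (_ : NormedAddCommGroup V) (_ : InnerProductSpace ℂ V) (_ : CompleteSpace V)
    (π : K →* (V ≃ₗᵢ[ℂ] V)), Irred π ∧ MapsTo μ (fun f : Lp ℂ 2 μ => (f : Y → ℂ)) π

end

end Pool.Agent.Lib.MP_99bfa4_al.SS
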