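import Pool.Agent.Lib.MP_99bfa4_al.SS.Rigid

open MeasureTheory UpperHalfPlane
open scoped ContDiff Topology MatrixGroups InnerProductSpace ComplexConjugate

namespace Pool.Agent.Lib.MP_99bfa4_al.SS

/-- The entries of g are given by four integers. -/
def ar_IsN (g : S) (k l c d : ℤ) : Prop :=
  g 0 0 = 3 * k + 1 + c * √3 ∧ g 0 1 = 3 * l + d * √3 ∧ g 1 0 = -(3 * l) + d * √3 ∧
    g 1 1 = 3 * k + 1 - c * √3

/-- A torsion free congruence subgroup of the triangle group. -/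
def ar_NN : Subgroup S where
  carrier := {g | ∃ k l c d : ℤ, ar_IsN g k l c d}
  mul_mem' := by
    rintro g h ⟨k, l, c, d, h1, h2, h3, h4⟩ ⟨k', l', c', d', h1', h2', h3', h4'⟩
    refine ⟨3 * k * k' + k + k' - 3 * l * l' + c * c' + d * d',
      (3 * k + 1) * l' + l * (3 * k' + 1) + c * d' - d * c',
      (3 * k + 1) * c' + c * (3 * k' + 1) + 3 * l * d' - d * (3 * l'),
      (3 * k + 1) * d' + d * (3 * k' + 1) - 3 * l * c' + c * (3 * l'), ?_, ?_, ?_, ?_⟩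
    · rw [S_mul, h1, h2, h1', h3']; push_cast
      linear_combination ((c : ℝ) * c' + d * d') * sqrt3_sq
    · rw [S_mul, h1, h2, h2', h4']; push_cast
      linear_combination ((c : ℝ) * d' - d * c') * sqrt3_sq
    · rw [S_mul, h3, h4, h1', h3']; push_cast
      linear_combination ((d : ℝ) * c' - c * d') * sqrt3_sq
    · rw [S_mul, h3, h4, h2', h4']; push_cast
      linear_combination ((c : ℝ) * c' + d * d') * sqrt3_sq
  one_mem' := ⟨0, 0, 0, 0, by simp, by simp, by simp, by simp⟩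
  inv_mem' := by
    rintro g ⟨k, l, c, d, h1, h2, h3, h4⟩
    obtain ⟨i1, i2, i3, i4⟩ := S_inv g
    refine ⟨k, -l, -c, -d, ?_, ?_, ?_, ?_⟩
    · rw [i1, h4]; push_cast; ring
    · rw [i2, h2]; push_cast; ring
    · rw [i3, h3]; push_cast; ring
    · rw [i4, h1]; push_cast; ring

lemma ar_mA : mA 0 0 = (1 + √3) / 2 ∧ mA 0 1 = (1 - √3) / 2 ∧ mA 1 0 = (1 + √3) / 2 ∧
    mA 1 1 = (√3 - 1) / 2 := ⟨rfl, rfl, rfl, rfl⟩

lemma ar_mB : mB 0 0 = (1 - √3) / 2 ∧ mB 0 1 = (1 + √3) / 2 ∧ mB 1 0 = (1 - √3) / 2 ∧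
    mB 1 1 = -(1 + √3) / 2 := ⟨rfl, rfl, rfl, rfl⟩

lemma ar_conj {n : S} (hn : n ∈ ar_NN) : mA * n * mA⁻¹ ∈ ar_NN := by
  obtain ⟨k, l, c, d, h1, h2, h3, h4⟩ := hn
  obtain ⟨i1, i2, i3, i4⟩ := S_inv mA
  obtain ⟨a1, a2, a3, a4⟩ := ar_mA
  refine ⟨k, 2 * l + d, -(3 * l) - 2 * d, c, ?_, ?_, ?_, ?_⟩
  all_goals
    simp only [S_mul, i1, i2, i3, i4, a1, a2, a3, a4, h1, h2, h3, h4]
    push_cast
  · linear_combination ((3 * (k : ℝ) + 1) / 2 - √3 * d / 2) * sqrt3_sq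
  · linear_combination (3 * (l : ℝ) / 2 + √3 * c / 2 + d) * sqrt3_sq
  · linear_combination (-(3 * (l : ℝ)) / 2 + √3 * c / 2 - d) * sqrt3_sq
  · linear_combination ((3 * (k : ℝ) + 1) / 2 + √3 * d / 2) * sqrt3_sq

lemma ar_conj_pow (m : ℕ) {n : S} (hn : n ∈ ar_NN) : mA ^ m * n * (mA ^ m)⁻¹ ∈ ar_NN := by
  induction m with
  | zero => simpa using hn
  | succ m ih =>
    have := ar_conj ih
    rw [pow_succ', mul_inv_rev]
    simpa only [mul_assoc] using this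

lemma ar_BA : mB * mA⁻¹ ∈ ar_NN := by
  obtain ⟨i1, i2, i3, i4⟩ := S_inv mA
  obtain ⟨a1, a2, a3, a4⟩ := ar_mA
  obtain ⟨b1, b2, b3, b4⟩ := ar_mB
  refine ⟨-1, 0, 0, 1, ?_, ?_, ?_, ?_⟩
  all_goals
    simp only [S_mul, i1, i2, i3, i4, a1, a2, a3, a4, b1, b2, b3, b4]
    push_cast
  · linear_combination (-1 / 2 : ℝ) * sqrt3_sq
  · ring
  · ring
  · linear_combination (-1 / 2 : ℝ) * sqrt3_sq

lemma ar_one_le_sqrt3 : 1 ≤ √3 := by
  rw [Real.one_le_sqrt]; norm_num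

lemma ar_int_zero {c : ℤ} (h : |(c : ℝ)| < 1) : c = 0 := by
  have : |c| < 1 := by exact_mod_cast h
  exact Int.abs_lt_one_iff.1 this

lemma ar_cont (i j : Fin 2) : Continuous fun g : S => g i j :=
  (continuous_apply_apply i j).comp Matrix.SpecialLinearGroup.isClosedEmbedding_val.continuous

instance ar_discrete : DiscreteTopology ar_NN := by
  refine discreteTopology_of_isOpen_singleton_one ?_
  have hU : IsOpen {g : S | |g 0 0 - 1| < 1 / 2 ∧ |g 0 1| < 1 / 2 ∧ |g 1 0| < 1 / 2 ∧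
      |g 1 1 - 1| < 1 / 2} :=
    (isOpen_lt ((ar_cont 0 0).sub continuous_const).abs continuous_const).inter
      ((isOpen_lt (ar_cont 0 1).abs continuous_const).inter
        ((isOpen_lt (ar_cont 1 0).abs continuous_const).inter
          (isOpen_lt ((ar_cont 1 1).sub continuous_const).abs continuous_const)))
  have := hU.preimage (continuous_subtype_val (p := fun g => g ∈ ar_NN))
  refine (congrArg IsOpen ?_).mp this
  ext g
  simp only [Set.mem_preimage, Set.mem_ofPred_eq, Set.mem_singleton_iff]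
  constructor
  · rintro ⟨e1, e2, e3, e4⟩
    obtain ⟨k, l, c, d, h1, h2, h3, h4⟩ := g.2
    have hs := ar_one_le_sqrt3
    rw [abs_lt] at e1 e2 e3 e4
    have hk : k = 0 := ar_int_zero (abs_lt.2 ⟨by linarith, by linarith⟩)
    have hl : l = 0 := ar_int_zero (abs_lt.2 ⟨by linarith, by linarith⟩)
    have hc : c = 0 := ar_int_zero (abs_lt.2 ⟨by nlinarith, by nlinarith⟩)
    have hd : d = 0 := ar_int_zero (abs_lt.2 ⟨by nlinarith, by nlinarith⟩)
    subst hk hl hc hd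
    refine Subtype.ext (S_ext ?_ ?_ ?_ ?_)
    · simpa using h1
    · simpa using h2
    · simpa using h3
    · simpa using h4
  · rintro rfl
    simp

lemma ar_coe (g : S) (w : ℍ) :
    ((g • w : ℍ) : ℂ) = ((g 0 0 : ℂ) * w + g 0 1) / ((g 1 0 : ℂ) * w + g 1 1) :=
  coe_specialLinearGroup_apply g w

lemma ar_den (g : S) (w : ℍ) : (g 1 0 : ℂ) * w + g 1 1 ≠ 0 := by
  intro h
  have h1 := congrArg Complex.re h
  have h2 := congrArg Complex.im h
  simp only [Complex.add_re, Complex.mul_re, Complex.ofReal_re, Complex.ofReal_im, zero_mul,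
    sub_zero, Complex.zero_re, Complex.add_im, Complex.mul_im, add_zero, Complex.zero_im,
    coe_re, coe_im] at h1 h2
  have h3 : g 1 0 = 0 := (mul_eq_zero.1 h2).resolve_right w.im_pos.ne'
  have h4 := S_det g
  rw [h3] at h1 h4
  have h5 : g 1 1 = 0 := by linarith
  rw [h5] at h4
  simp at h4

lemma ar_free {n : S} (hn : n ∈ ar_NN) {z : ℍ} (h : n • z = z) : n = 1 := by
  obtain ⟨k, l, c, d, h1, h2, h3, h4⟩ := hn
  have e := ar_coe n z
  rw [h, eq_div_iff (ar_den n z)] at e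
  have e1 := congrArg Complex.re e
  have e2 := congrArg Complex.im e
  simp only [Complex.add_re, Complex.mul_re, Complex.ofReal_re, Complex.ofReal_im, zero_mul,
    sub_zero, Complex.add_im, Complex.mul_im, add_zero, coe_re, coe_im] at e1 e2
  have hy := z.im_pos
  have e3 : n 1 1 - n 0 0 = -2 * n 1 0 * z.re := by
    have : z.im * (n 1 1 - n 0 0) = z.im * (-2 * n 1 0 * z.re) := by linear_combination e2
    exact mul_left_cancel₀ hy.ne' this
  have e4 : n 0 1 = -n 1 0 * (z.re ^ 2 + z.im ^ 2) := by linear_combination -e1 + z.re * e3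
  have hdet := S_det n
  have e5 : (n 0 0 + n 1 1) ^ 2 = 4 - 4 * (n 1 0 * z.im) ^ 2 := by
    linear_combination 4 * hdet + (n 1 1 - n 0 0 - 2 * n 1 0 * z.re) * e3 + 4 * n 1 0 * e4
  have e6 : n 0 0 + n 1 1 = 2 * (3 * k + 1) := by rw [h1, h4]; ring
  have hk : k = 0 := by
    have : ((3 * k + 1 : ℤ) : ℝ) ^ 2 ≤ 1 := by
      push_cast
      rw [e6] at e5
      nlinarith [sq_nonneg (n 1 0 * z.im)]
    have h5 : (3 * k + 1) ^ 2 ≤ 1 := by exact_mod_cast this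
    have h6 := (sq_le_one_iff_abs_le_one _).1 h5
    rw [abs_le] at h6
    omega
  rw [hk] at e6
  rw [e6] at e5
  have e7 : n 1 0 * z.im = 0 := by
    have : (n 1 0 * z.im) ^ 2 = 0 := by push_cast at e5; linarith
    exact pow_eq_zero_iff (two_ne_zero) |>.1 this
  have e8 : n 1 0 = 0 := (mul_eq_zero.1 e7).resolve_right hy.ne'
  rw [e8] at e3 e4
  push_cast at e6
  refine S_ext ?_ ?_ ?_ ?_
  · simp only [Matrix.SpecialLinearGroup.coe_one, Matrix.one_apply_eq]; linarith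
  · simpa using e4
  · simpa using e8
  · simp only [Matrix.SpecialLinearGroup.coe_one, Matrix.one_apply_eq]; linarith

lemma ar_rot_period (x : ℝ) (q : ℕ) : rot (x + q * (2 * Real.pi)) = rot x := by
  apply S_ext <;> simp [rot, Real.cos_add_nat_mul_two_pi, Real.sin_add_nat_mul_two_pi]

lemma ar_struct0 {u θ : ℝ} {γ : G} (hγ : γ ∈ Lat u θ) : ∃ n ∈ ar_NN, ∃ (m : ℕ) (j : ℤ),
    γ = (n * mA ^ m, dia (j * u), rot (m * (Real.pi / 6) + j * θ)) := by
  induction hγ using Subgroup.closure_induction with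
  | mem x hx =>
    rcases hx with rfl | rfl | rfl
    · exact ⟨1, one_mem _, 1, 0, by simp [ga, dia_zero]⟩
    · exact ⟨mB * mA⁻¹, ar_BA, 1, 0, by simp [gb, dia_zero]⟩
    · exact ⟨1, one_mem _, 0, 1, by simp [gz]⟩
  | one => exact ⟨1, one_mem _, 0, 0, by simp [dia_zero, rot_zero]; rfl⟩
  | mul x y _ _ hx hy =>
    obtain ⟨n, hn, m, j, rfl⟩ := hx
    obtain ⟨n', hn', m', j', rfl⟩ := hy
    refine ⟨n * (mA ^ m * n' * (mA ^ m)⁻¹), mul_mem hn (ar_conj_pow m hn'), m + m', j + j', ?_⟩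
    refine Prod.ext ?_ (Prod.ext ?_ ?_)
    · simp only [Prod.fst_mul, pow_add]
      group
    · simp only [Prod.snd_mul, Prod.fst_mul]
      rw [← dia_add]
      push_cast
      ring_nf
    · simp only [Prod.snd_mul]
      rw [← rot_add]
      push_cast
      ring_nf
  | inv x _ hx =>
    obtain ⟨n, hn, m, j, rfl⟩ := hx
    refine ⟨mA ^ (11 * m) * n⁻¹ * (mA ^ (11 * m))⁻¹, ar_conj_pow _ (inv_mem hn), 11 * m, -j, ?_⟩
    refine Prod.ext ?_ (Prod.ext ?_ ?_)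
    · have h1 : (mA ^ m)⁻¹ = mA ^ (11 * m) := by
        rw [inv_eq_iff_mul_eq_one, ← pow_add, show m + 11 * m = 12 * m by ring, pow_mul, mA_pow,
          one_pow]
      simp only [Prod.fst_inv, mul_inv_rev, h1, inv_mul_cancel_right]
    · simp only [Prod.snd_inv, Prod.fst_inv]
      rw [← dia_neg]
      push_cast
      ring_nf
    · simp only [Prod.snd_inv]
      rw [← rot_neg, ← ar_rot_period _ m]
      push_cast
      ring_nf

lemma ar_struct {u θ : ℝ} {γ : G} (hγ : γ ∈ Lat u θ) : ∃ n ∈ ar_NN, ∃ m < 12, ∃ j : ℤ,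
    γ = (n * mA ^ m, dia (j * u), rot ((m : ℕ) * (Real.pi / 6) + j * θ)) := by
  obtain ⟨n, hn, m, j, rfl⟩ := ar_struct0 hγ
  refine ⟨n, hn, m % 12, Nat.mod_lt _ (by norm_num), j, ?_⟩
  have h1 : mA ^ m = mA ^ (m % 12) := pow_eq_pow_mod m mA_pow
  have h2 : (m : ℝ) = (m % 12 : ℕ) + 12 * (m / 12 : ℕ) := by
    exact_mod_cast (Nat.mod_add_div m 12).symm
  rw [← h1, ← ar_rot_period (((m % 12 : ℕ) : ℝ) * (Real.pi / 6) + j * θ) (m / 12)]
  congr 3
  linear_combination (Real.pi / 6) * h2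

lemma ar_gz {u θ : ℝ} (j : ℤ) : ((1, dia (j * u), rot (j * θ)) : G) ∈ Lat u θ := by
  have h1 : gz u θ ∈ Lat u θ := Subgroup.subset_closure (by simp)
  induction j using Int.induction_on with
  | zero =>
    simp only [Int.cast_zero, zero_mul, dia_zero, rot_zero]
    exact one_mem _
  | succ i ih =>
    have := mul_mem ih h1
    simp only [gz, Prod.mk_mul_mk, mul_one, ← dia_add, ← rot_add] at this
    push_cast at this ⊢
    rwa [add_mul, add_mul, one_mul, one_mul]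
  | pred i ih =>
    have := mul_mem ih (inv_mem h1)
    simp only [gz, Prod.inv_mk, inv_one, Prod.mk_mul_mk, mul_one, ← dia_neg, ← rot_neg, ← dia_add,
      ← rot_add] at this
    push_cast at this ⊢
    rwa [sub_mul, sub_mul, one_mul, one_mul, sub_eq_add_neg, sub_eq_add_neg]

/-- The logarithm of the modulus of x • I. -/
noncomputable def ar_L (x : S) : ℝ := Real.log ‖((x • I : ℍ) : ℂ)‖

lemma ar_norm_pos (w : ℍ) : 0 < ‖(w : ℂ)‖ := norm_pos_iff.2 w.ne_zero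

lemma ar_L_cont : Continuous ar_L :=
  (continuous_coe.comp (continuous_id.smul continuous_const)).norm.log
    fun _ => (ar_norm_pos _).ne'

lemma ar_L_smul (v t : ℝ) (x : S) : ar_L (dia v * x * (rot t)⁻¹) = 2 * v + ar_L x := by
  unfold ar_L
  rw [mul_smul, mul_smul, ← rot_neg, rot_smul_I, coe_dia_smul, norm_mul, Complex.norm_real,
    Real.norm_eq_abs, abs_of_pos (Real.exp_pos _),
    Real.log_mul (Real.exp_pos _).ne' (ar_norm_pos _).ne', Real.log_exp]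

lemma ar_fin (m : ℕ) {K L : Set ℍ} (hK : IsCompact K) (hL : IsCompact L) :
    {n : S | n ∈ ar_NN ∧ ∃ z ∈ K, (n * mA ^ m) • z ∈ L}.Finite := by
  have h1 := ProperlyDiscontinuousSMul.finite_disjoint_inter_image (Γ := ar_NN)
    (hK.image (continuous_const_smul (mA ^ m))) hL
  refine (h1.image Subtype.val).subset ?_
  rintro n ⟨hn, z, hz, hL⟩
  exact ⟨⟨n, hn⟩, ⟨_, ⟨_, ⟨z, hz, rfl⟩, rfl⟩, by rw [mul_smul] at hL; exact hL⟩, rfl⟩

/-- Every group Lat u θ, u > 0, acts properly discontinuously and freely. -/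
theorem lat_discontinuous {u : ℝ} (hu : 0 < u) (θ : ℝ) : Discontinuous X (Lat u θ) := by
  refine ⟨⟨fun {K L} hK hL => ?_⟩, fun γ hγ y hy => ?_⟩
  · obtain ⟨B, hB⟩ := (hK.union hL).exists_bound_of_continuousOn
      (ar_L_cont.comp continuous_snd).continuousOn
    have hfin : (⋃ m ∈ Set.Iio 12, ⋃ j ∈ Set.Icc (-⌈B / u⌉) ⌈B / u⌉,
        (fun n : S => ((n * mA ^ m, dia ((j : ℤ) * u),
          rot ((m : ℕ) * (Real.pi / 6) + (j : ℤ) * θ)) : G)) ''
          {n : S | n ∈ ar_NN ∧ ∃ z ∈ Prod.fst '' K, (n * mA ^ m) • z ∈ Prod.fst '' L}).Finite :=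
      (Set.finite_Iio 12).biUnion fun m _ => (Set.finite_Icc _ _).biUnion fun j _ =>
        (ar_fin m (hK.image continuous_fst) (hL.image continuous_fst)).image _
    refine (hfin.preimage (Subtype.val_injective (p := fun g => g ∈ Lat u θ)).injOn).subset ?_
    rintro ⟨γ, hγ⟩ ⟨_, ⟨x, hx, rfl⟩, hxL⟩
    obtain ⟨n, hn, m, hm, j, rfl⟩ := ar_struct hγ
    simp only [Set.mem_preimage, Set.mem_iUnion]
    have b1 := hB x (Or.inl hx)
    have b2 := hB _ (Or.inr hxL)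
    have e : ar_L (dia (j * u) * x.2 * (rot ((m : ℕ) * (Real.pi / 6) + j * θ))⁻¹) =
        2 * (j * u) + ar_L x.2 := ar_L_smul _ _ _
    change ‖ar_L x.2‖ ≤ B at b1
    change ‖ar_L (dia (j * u) * x.2 * (rot ((m : ℕ) * (Real.pi / 6) + j * θ))⁻¹)‖ ≤ B at b2
    rw [e] at b2
    rw [Real.norm_eq_abs, abs_le] at b1 b2
    have c1 : (j : ℝ) ≤ B / u := by rw [le_div_iff₀ hu]; linarith
    have c2 : ((-j : ℤ) : ℝ) ≤ B / u := by rw [le_div_iff₀ hu]; push_cast; linarith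
    have c3 : j ≤ ⌈B / u⌉ := by exact_mod_cast c1.trans (Int.le_ceil _)
    have c4 : -j ≤ ⌈B / u⌉ := by exact_mod_cast c2.trans (Int.le_ceil _)
    exact ⟨m, hm, j, ⟨by omega, c3⟩, n, ⟨hn, x.1, ⟨x, hx, rfl⟩, _, hxL, rfl⟩, rfl⟩
  · obtain ⟨n, hn, m, hm, j, rfl⟩ := ar_struct hγ
    have e1 : (n * mA ^ m) • y.1 = y.1 := congrArg Prod.fst hy
    have e2 : dia (j * u) * y.2 * (rot ((m : ℕ) * (Real.pi / 6) + j * θ))⁻¹ = y.2 :=
      congrArg Prod.snd hy
    have e3 := ar_L_smul (j * u) ((m : ℕ) * (Real.pi / 6) + j * θ) y.2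
    rw [e2] at e3
    have hj : j = 0 := by
      have : (j : ℝ) * u = 0 := by linarith
      exact_mod_cast (mul_eq_zero.1 this).resolve_right hu.ne'
    subst hj
    simp only [Int.cast_zero, zero_mul, dia_zero, one_mul, add_zero, mul_eq_left,
      inv_eq_one] at e2 ⊢
    have e4 : Real.cos ((m : ℕ) * (Real.pi / 6)) = 1 := by
      have := congrArg (fun g : S => g 0 0) e2
      simpa [rot] using this
    have hm' : (m : ℝ) < 12 := by exact_mod_cast hm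
    have hpi := Real.pi_pos
    have hm0 : (0 : ℝ) ≤ m := Nat.cast_nonneg m
    have e5 := (Real.cos_eq_one_iff_of_lt_of_lt (by nlinarith) (by nlinarith)).1 e4
    have e6 : m = 0 := by
      exact_mod_cast (mul_eq_zero.1 e5).resolve_right (by positivity)
    subst e6
    rw [pow_zero, mul_one] at e1
    rw [ar_free hn e1, e2]
    simp

lemma ar_cosh (g : S) (w : ℍ) : Real.cosh (dist (g • w) I) =
    ((g 0 0 * w.re + g 0 1) ^ 2 + (g 0 0 * w.im) ^ 2 + (g 1 0 * w.re + g 1 1) ^ 2 +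
      (g 1 0 * w.im) ^ 2) / (2 * w.im) := by
  have hD := Complex.normSq_pos.2 (ar_den g w)
  have hD' : Complex.normSq ((g 1 0 : ℂ) * w + g 1 1) =
      (g 1 0 * w.re + g 1 1) ^ 2 + (g 1 0 * w.im) ^ 2 := by
    simp [Complex.normSq_apply, sq]
  have hN : Complex.normSq ((g 0 0 : ℂ) * w + g 0 1) =
      (g 0 0 * w.re + g 0 1) ^ 2 + (g 0 0 * w.im) ^ 2 := by
    simp [Complex.normSq_apply, sq]
  have h1 : (g • w).re ^ 2 + (g • w).im ^ 2 =
      Complex.normSq ((g 0 0 : ℂ) * w + g 0 1) / Complex.normSq ((g 1 0 : ℂ) * w + g 1 1) := by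
    rw [← map_div₀, ← ar_coe, Complex.normSq_apply, coe_re, coe_im]
    ring
  have h2 : (g • w).im = w.im / Complex.normSq ((g 1 0 : ℂ) * w + g 1 1) := by
    rw [← coe_im, ar_coe, Complex.div_im, ← sub_div]
    congr 1
    simp only [Complex.add_re, Complex.mul_re, Complex.ofReal_re, Complex.ofReal_im, zero_mul,
      sub_zero, Complex.add_im, Complex.mul_im, add_zero, coe_re, coe_im]
    linear_combination w.im * S_det g
  rw [cosh_dist', I_re, I_im, sub_zero, h1, h2, add_assoc _ _ ((g 1 0 * w.im) ^ 2), ← hD', ← hN]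
  have := w.im_pos
  generalize Complex.normSq ((g 1 0 : ℂ) * w + g 1 1) = D at hD ⊢
  field_simp

lemma ar_le_cosh (r : ℝ) : r ≤ Real.cosh r := by
  rcases le_total r 0 with h | h
  · exact h.trans (Real.cosh_pos r).le
  · exact (Real.self_le_sinh_iff.2 h).trans (Real.sinh_lt_cosh r).le

lemma ar_dirichlet (w : ℍ) (h1 : dist w I ≤ dist (mA • w) I) (h2 : dist w I ≤ dist (mB • w) I)
    (h3 : dist w I ≤ dist (mA⁻¹ • w) I) (h4 : dist w I ≤ dist (mB⁻¹ • w) I) : dist w I ≤ 2 := by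
  have hy := w.im_pos
  have h0 : Real.cosh (dist w I) = (w.re ^ 2 + w.im ^ 2 + 1) / (2 * w.im) := by
    rw [cosh_dist']; simp
  have key : ∀ g : S, dist w I ≤ dist (g • w) I → w.re ^ 2 + w.im ^ 2 + 1 ≤
      (g 0 0 * w.re + g 0 1) ^ 2 + (g 0 0 * w.im) ^ 2 + (g 1 0 * w.re + g 1 1) ^ 2 +
      (g 1 0 * w.im) ^ 2 := by
    intro g hg
    have : Real.cosh (dist w I) ≤ Real.cosh (dist (g • w) I) := Real.cosh_le_cosh.2 (by
      rwa [abs_of_nonneg dist_nonneg, abs_of_nonneg dist_nonneg])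
    rwa [h0, ar_cosh, div_le_div_iff_of_pos_right (by positivity)] at this
  obtain ⟨i1, i2, i3, i4⟩ := S_inv mA
  obtain ⟨j1, j2, j3, j4⟩ := S_inv mB
  obtain ⟨a1, a2, a3, a4⟩ := ar_mA
  obtain ⟨b1, b2, b3, b4⟩ := ar_mB
  have k1 := key _ h1
  have k2 := key _ h2
  have k3 := key _ h3
  have k4 := key _ h4
  simp only [i1, i2, i3, i4, j1, j2, j3, j4, a1, a2, a3, a4, b1, b2, b3, b4] at k1 k2 k3 k4
  have hs := sqrt3_sq
  set s := √3
  set x := w.re
  set y := w.im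
  have l1 : -(x ^ 2 + y ^ 2 + 1) ≤ s * (x ^ 2 + y ^ 2 - 1) := by
    linear_combination k1 + ((x ^ 2 + y ^ 2 + 1) / 2) * hs
  have l2 : s * (x ^ 2 + y ^ 2 - 1) ≤ x ^ 2 + y ^ 2 + 1 := by
    linear_combination k2 + ((x ^ 2 + y ^ 2 + 1) / 2) * hs
  have l3 : 2 * s * x ≤ x ^ 2 + y ^ 2 + 1 := by
    linear_combination k3 + ((x ^ 2 + y ^ 2 + 1) / 2) * hs
  have l4 : -(x ^ 2 + y ^ 2 + 1) ≤ 2 * s * x := by
    linear_combination k4 + ((x ^ 2 + y ^ 2 + 1) / 2) * hs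
  have m1 := sq_le_sq' l1 l2
  have m2 := sq_le_sq' l4 l3
  rw [mul_pow, hs] at m1
  rw [mul_pow, mul_pow, hs] at m2
  have m3 : (x ^ 2 + y ^ 2 + 1) ^ 2 ≤ (4 * y) ^ 2 := by nlinarith [sq_nonneg y]
  have m4 : x ^ 2 + y ^ 2 + 1 ≤ 4 * y := le_of_sq_le_sq m3 (by positivity)
  refine (ar_le_cosh _).trans ?_
  rw [h0, div_le_iff₀ (by positivity)]
  linarith

/-- Every orbit of Lat u θ meets the set cover u. -/
theorem lat_cover {u : ℝ} (hu : 0 < u) (θ : ℝ) (x : X) : ∃ γ ∈ Lat u θ, γ • x ∈ cover u := by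
  have hfin : {w : ℍ | (∃ γ ∈ Lat u θ, γ.1 • x.1 = w) ∧ dist w I ≤ dist x.1 I}.Finite := by
    have h1 : (⋃ m ∈ Set.Iio 12, (fun n : S => (n * mA ^ m) • x.1) ''
        {n : S | n ∈ ar_NN ∧ ∃ z ∈ ({x.1} : Set ℍ), (n * mA ^ m) • z ∈
          Metric.closedBall I (dist x.1 I)}).Finite :=
      (Set.finite_Iio 12).biUnion fun m _ =>
        (ar_fin m isCompact_singleton (isCompact_closedBall _ _)).image _
    refine h1.subset ?_
    rintro _ ⟨⟨γ, hγ, rfl⟩, hd⟩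
    obtain ⟨n, hn, m, hm, j, rfl⟩ := ar_struct hγ
    simp only [Set.mem_iUnion]
    exact ⟨m, hm, n, ⟨hn, x.1, rfl, hd⟩, rfl⟩
  obtain ⟨w, ⟨⟨γ, hγ, rfl⟩, hd⟩, hmin⟩ := Set.exists_min_image _ (fun w : ℍ => dist w I) hfin
    ⟨x.1, ⟨1, one_mem _, one_smul _ _⟩, le_rfl⟩
  have key : ∀ g ∈ Lat u θ, dist (γ.1 • x.1) I ≤ dist (g.1 • γ.1 • x.1) I := by
    intro g hg
    rcases le_total (dist (g.1 • γ.1 • x.1) I) (dist x.1 I) with h | h
    · exact hmin _ ⟨⟨g * γ, mul_mem hg hγ, mul_smul _ _ _⟩, h⟩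
    · exact hd.trans h
  have ha : ga ∈ Lat u θ := Subgroup.subset_closure (by simp)
  have hb : gb ∈ Lat u θ := Subgroup.subset_closure (by simp)
  have k1 := key _ ha
  have k2 := key _ hb
  have k3 := key _ (inv_mem ha)
  have k4 := key _ (inv_mem hb)
  rw [Prod.fst_inv] at k3 k4
  rw [show ga.1 = mA from rfl] at k1 k3
  rw [show gb.1 = mB from rfl] at k2 k4
  have h2 := ar_dirichlet _ k1 k2 k3 k4
  rw [← smul_fst] at h2
  set y := γ • x with hy
  set j : ℤ := -⌊ar_L y.2 / (2 * u)⌋ with hj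
  refine ⟨(1, dia (j * u), rot (j * θ)) * γ, mul_mem (ar_gz j) hγ, ?_⟩
  rw [mul_smul, ← hy]
  refine ⟨?_, ?_⟩
  · rw [smul_fst, one_smul]
    exact h2
  · have e := ar_L_smul (j * u) (j * θ) y.2
    have f1 := Int.floor_le (ar_L y.2 / (2 * u))
    have f2 := Int.lt_floor_add_one (ar_L y.2 / (2 * u))
    rw [le_div_iff₀ (by positivity)] at f1
    rw [div_lt_iff₀ (by positivity)] at f2
    have hj' : (j : ℝ) = -(⌊ar_L y.2 / (2 * u)⌋ : ℝ) := by rw [hj]; push_cast; rfl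
    have g1 : 0 ≤ ar_L (dia (j * u) * y.2 * (rot (j * θ))⁻¹) := by rw [e, hj']; linarith
    have g2 : ar_L (dia (j * u) * y.2 * (rot (j * θ))⁻¹) ≤ 2 * u := by rw [e, hj']; linarith
    unfold ar_L at g1 g2
    rw [smul_snd]
    refine ⟨?_, ?_⟩
    · exact (Real.log_nonneg_iff (ar_norm_pos _)).1 g1
    · exact (Real.log_le_iff_le_exp (ar_norm_pos _)).1 g2

end Pool.Agent.Lib.MP_99bfa4_al.SS
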