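import Pool.Agent.Lib.MP_99bfa4_al.SS.Base

open MeasureTheory UpperHalfPlane
open scoped ContDiff Topology MatrixGroups InnerProductSpace ComplexConjugate

namespace Pool.Agent.Lib.MP_99bfa4_al.SS

/-- Continuous profile functions that vanish for large radius. -/
def Bump (φ : ℝ → ℝ) : Prop := Continuous φ ∧ ∃ ρ, ∀ r, ρ ≤ r → φ r = 0

section

variable {H : Type*} [NormedAddCommGroup H] [InnerProductSpace ℂ H] [CompleteSpace H]

/-- A representation of the affine group, indexed by the upper half plane. -/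
structure RRep (R : ℍ → H →L[ℂ] H) : Prop where
  one : R I = 1
  mul : ∀ g h : ℍ, R (g.toSL2R • h) = R g * R h
  inner : ∀ h f f', ⟪R h f, R h f'⟫_ℂ = (h.im : ℂ) * ⟪f, f'⟫_ℂ
  cont : ∀ f, Continuous fun h => R h f

/-- The radial average. -/
noncomputable def avg (R : ℍ → H →L[ℂ] H) (φ : ℝ → ℝ) (f : H) : H :=
  ∫ h : ℍ, (φ (dist h I) : ℂ) • R h f

lemma Bump.hasCompactSupport {φ : ℝ → ℝ} (hφ : Bump φ) (z : ℍ) :
    HasCompactSupport fun w : ℍ => φ (dist w z) := by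
  obtain ⟨ρ, hρ⟩ := hφ.2
  refine HasCompactSupport.intro (isCompact_closedBall z ρ) fun w hw => hρ _ ?_
  rw [Metric.mem_closedBall, not_le] at hw
  exact hw.le

lemma Bump.integrable {φ : ℝ → ℝ} (hφ : Bump φ) (z : ℍ) {E : ℍ → H} (hE : Continuous E) :
    Integrable fun w : ℍ => (φ (dist w z) : ℂ) • E w := by
  have h1 : Continuous fun w : ℍ => (φ (dist w z) : ℂ) :=
    Complex.continuous_ofReal.comp (hφ.1.comp (continuous_id.dist continuous_const))
  have h2 : HasCompactSupport fun w : ℍ => (φ (dist w z) : ℂ) :=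
    (hφ.hasCompactSupport z).comp_left (g := fun r : ℝ => (r : ℂ)) Complex.ofReal_zero
  exact (h1.smul hE).integrable_of_hasCompactSupport h2.smul_right

lemma RRep.norm {R : ℍ → H →L[ℂ] H} (hR : RRep R) (h : ℍ) (f : H) :
    ‖R h f‖ = √h.im * ‖f‖ := by
  have h1 := hR.inner h f f
  rw [inner_self_eq_norm_sq_to_K, inner_self_eq_norm_sq_to_K] at h1
  have h2 : ‖R h f‖ ^ 2 = h.im * ‖f‖ ^ 2 := by
    have : ((‖R h f‖ ^ 2 : ℝ) : ℂ) = ((h.im * ‖f‖ ^ 2 : ℝ) : ℂ) := by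
      push_cast
      exact h1
    exact_mod_cast this
  rw [← Real.sqrt_sq (norm_nonneg (R h f)), h2, Real.sqrt_mul h.im_pos.le,
    Real.sqrt_sq (norm_nonneg f)]

/-- The radial average is a bounded operator. -/
lemma RRep.exists_avg {R : ℍ → H →L[ℂ] H} (hR : RRep R) {φ : ℝ → ℝ} (hφ : Bump φ) :
    ∃ B : H →L[ℂ] H, ∀ f, B f = avg R φ f := by
  let L : H →ₗ[ℂ] H :=
    { toFun := avg R φ
      map_add' := fun f g => by
        simp only [avg, map_add, smul_add]
        exact integral_add (hφ.integrable I (hR.cont f)) (hφ.integrable I (hR.cont g))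
      map_smul' := fun c f => by
        simp only [avg, map_smul, RingHom.id_apply, ← integral_smul]
        exact integral_congr_ae (Filter.Eventually.of_forall fun h => smul_comm _ _ _) }
  refine ⟨L.mkContinuous (∫ h : ℍ, |φ (dist h I)| * √h.im) fun f => ?_, fun f => rfl⟩
  refine (norm_integral_le_integral_norm _).trans (le_of_eq ?_)
  rw [← integral_mul_const]
  refine integral_congr_ae (Filter.Eventually.of_forall fun h => ?_)
  simp only [norm_smul, hR.norm, Complex.norm_real, Real.norm_eq_abs, mul_assoc]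

/-- Approximate identity. -/
lemma RRep.avg_ne_zero {R : ℍ → H →L[ℂ] H} (hR : RRep R) {f : H} (hf : f ≠ 0) :
    ∃ ρ > 0, ∀ φ, Bump φ → (∀ r, 0 ≤ φ r) → 0 < φ 0 → (∀ r, ρ ≤ r → φ r = 0) →
      avg R φ f ≠ 0 := by
  have hf' : 0 < ‖f‖ / 2 := half_pos (norm_pos_iff.2 hf)
  obtain ⟨ρ, hρ, h1⟩ := Metric.continuous_iff.1 (hR.cont f) I _ hf'
  refine ⟨ρ, hρ, fun φ hφ h0 h2 h3 h4 => ?_⟩
  have hc : Continuous fun h : ℍ => φ (dist h I) := hφ.1.comp (continuous_id.dist continuous_const)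
  have hcs := hφ.hasCompactSupport I
  have hpos : 0 < ∫ h : ℍ, φ (dist h I) :=
    hc.integral_pos_of_hasCompactSupport_nonneg_nonzero (x := I) hcs (fun h => h0 _)
      (by simpa using h2.ne')
  have i1 := hφ.integrable I (hR.cont f)
  have i2 := hφ.integrable I (E := fun _ => f) continuous_const
  have e1 : ∫ h : ℍ, (φ (dist h I) : ℂ) • (f - R h f) = ((∫ h : ℍ, φ (dist h I) : ℝ) : ℂ) • f := by
    simp only [smul_sub]
    rw [integral_sub i2 i1, integral_smul_const, integral_complex_ofReal]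
    exact sub_eq_self.2 h4
  have e2 : ‖∫ h : ℍ, (φ (dist h I) : ℂ) • (f - R h f)‖ ≤ ∫ h : ℍ, φ (dist h I) * (‖f‖ / 2) := by
    refine norm_integral_le_of_norm_le ((hc.integrable_of_hasCompactSupport hcs).mul_const _)
      (Filter.Eventually.of_forall fun h => ?_)
    rw [norm_smul, Complex.norm_real, Real.norm_of_nonneg (h0 _)]
    rcases lt_or_ge (dist h I) ρ with h5 | h5
    · have := h1 h h5
      rw [hR.one, one_apply_eq_self, dist_comm, dist_eq_norm] at this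
      exact mul_le_mul_of_nonneg_left this.le (h0 _)
    · simp [h3 _ h5]
  rw [e1, integral_mul_const, norm_smul, Complex.norm_real, Real.norm_of_nonneg hpos.le] at e2
  nlinarith

end

lemma avg_e00 (z : ℍ) : z.toSL2R 0 0 = √z.im := rfl

lemma avg_e01 (z : ℍ) : z.toSL2R 0 1 = z.re / √z.im := rfl

lemma avg_e10 (z : ℍ) : z.toSL2R 1 0 = 0 := rfl

lemma avg_e11 (z : ℍ) : z.toSL2R 1 1 = 1 / √z.im := rfl

lemma avg_smul_eq (g : S) (z w : ℍ)
    (h : (g 0 0 : ℂ) * z + (g 0 1 : ℂ) = w * ((g 1 0 : ℂ) * z + (g 1 1 : ℂ))) : g • z = w := by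
  have hd : (g 1 0 : ℂ) * z + (g 1 1 : ℂ) ≠ 0 := denom_ne_zero g z
  apply UpperHalfPlane.ext
  rw [coe_specialLinearGroup_apply]
  exact (div_eq_iff hd).2 h

lemma avg_coe_smul (z w : ℍ) : ((z.toSL2R • w : ℍ) : ℂ) = z.re + z.im * (w : ℂ) := by
  have h1 : ((√z.im : ℝ) : ℂ) ≠ 0 := Complex.ofReal_ne_zero.2 (Real.sqrt_pos.2 z.im_pos).ne'
  have h3 : ((√z.im : ℝ) : ℂ) ^ 2 = (z.im : ℂ) := by
    rw [← Complex.ofReal_pow, Real.sq_sqrt z.im_pos.le]
  rw [coe_specialLinearGroup_apply]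
  simp only [avg_e00, avg_e01, avg_e10, avg_e11, Algebra.algebraMap_self, RingHom.id_apply]
  push_cast
  field_simp
  rw [h3]
  ring

lemma avg_swap_I (w : ℍ) : ∃ g : S, g • I = w ∧ g • w = I := by
  have hy := w.im_pos
  have hp : 0 < w.im * (w.re ^ 2 + (1 + w.im) ^ 2) := by positivity
  obtain ⟨k, hk⟩ : ∃ k : ℝ, k ^ 2 * (w.im * (w.re ^ 2 + (1 + w.im) ^ 2)) = 1 :=
    ⟨(√(w.im * (w.re ^ 2 + (1 + w.im) ^ 2)))⁻¹, by
      rw [inv_pow, Real.sq_sqrt hp.le, inv_mul_cancel₀ hp.ne']⟩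
  refine ⟨⟨!![k * w.re, -(k * w.re * w.re) - k * (1 + w.im) * w.im; k * (1 + w.im), -(k * w.re)],
    by rw [Matrix.det_fin_two_of]; linear_combination hk⟩, ?_, ?_⟩ <;> apply avg_smul_eq <;>
    apply Complex.ext <;> simp <;> ring

/-- Two points of the upper half plane can be exchanged. -/
lemma exists_swap (z w : ℍ) : ∃ g : S, g • z = w ∧ g • w = z := by
  obtain ⟨g, h1, h2⟩ := avg_swap_I (z.toSL2R⁻¹ • w)
  refine ⟨z.toSL2R * g * z.toSL2R⁻¹, ?_, ?_⟩
  · rw [mul_smul, mul_smul, inv_smul_eq_iff.2 (toSL2R_smul_I z).symm, h1, smul_inv_smul]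
  · rw [mul_smul, mul_smul, h2, toSL2R_smul_I]

lemma toSL2R_smul (z w : ℍ) : (z.toSL2R • w).toSL2R = z.toSL2R * w.toSL2R := by
  have h := avg_coe_smul z w
  have hre : (z.toSL2R • w).re = z.re + z.im * w.re := by simpa using congrArg Complex.re h
  have him : (z.toSL2R • w).im = z.im * w.im := by simpa using congrArg Complex.im h
  have h1 : √z.im ≠ 0 := (Real.sqrt_pos.2 z.im_pos).ne'
  have h2 : √w.im ≠ 0 := (Real.sqrt_pos.2 w.im_pos).ne'
  have h3 : √z.im ^ 2 = z.im := Real.sq_sqrt z.im_pos.le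
  apply S_ext <;> simp only [S_mul, avg_e00, avg_e01, avg_e10, avg_e11, hre, him,
    Real.sqrt_mul z.im_pos.le]
  · ring
  · field_simp
    rw [h3]
    ring
  · ring
  · field_simp
    ring

lemma coe_toSL2R_smul (z w : ℍ) : ((z.toSL2R • w : ℍ) : ℂ) = z.re + z.im * (w : ℂ) := by
  exact avg_coe_smul z w

end Pool.Agent.Lib.MP_99bfa4_al.SS
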