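import Pool.Agent.Lib.MP_99bfa4_al.SS.Defs

open MeasureTheory UpperHalfPlane
open scoped ContDiff Topology MatrixGroups InnerProductSpace ComplexConjugate

namespace Pool.Agent.Lib.MP_99bfa4_al.SS

lemma smul_def (g : G) (x : X) : g • x = (g.1 • x.1, g.2.1 * x.2 * g.2.2⁻¹) := rfl

lemma smul_fst (g : G) (x : X) : (g • x).1 = g.1 • x.1 := rfl

lemma smul_snd (g : G) (x : X) : (g • x).2 = g.2.1 * x.2 * g.2.2⁻¹ := rfl

instance t2S : T2Space S := Matrix.SpecialLinearGroup.isClosedEmbedding_val.isEmbedding.t2Space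

instance secondCountableS : SecondCountableTopology S :=
  haveI : SecondCountableTopology (Matrix (Fin 2) (Fin 2) ℝ) :=
    inferInstanceAs (SecondCountableTopology (Fin 2 → Fin 2 → ℝ))
  Matrix.SpecialLinearGroup.isClosedEmbedding_val.isEmbedding.secondCountableTopology

instance continuousSMulX : ContinuousSMul G X where
  continuous_smul := by
    show Continuous fun p : G × X => ((p.1.1 • p.2.1, p.1.2.1 * p.2.2 * p.1.2.2⁻¹) : X)
    fun_prop

instance invariantH : SMulInvariantMeasure S ℍ volume :=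
  ⟨fun c _ hs => SMulInvariantMeasure.measure_preimage_smul
    (Matrix.SpecialLinearGroup.mapGL ℝ c : GL (Fin 2) ℝ) hs⟩

instance openPosH : (volume : Measure ℍ).IsOpenPosMeasure := by
  have h0 : (Measure.comap UpperHalfPlane.coe (volume : Measure ℂ)).IsOpenPosMeasure :=
    Measure.IsOpenPosMeasure.comap _ isOpenEmbedding_coe
  have hc : Continuous fun z : ℍ => ((1 / NNReal.mk z.im z.im_pos.le : NNReal) ^ 2) := by
    refine .pow (.div₀ continuous_const ?_ ?_) _
    · exact continuous_im.subtype_mk _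
    · exact fun x => NNReal.ne_iff.mp x.im_ne_zero
  have hac : Measure.comap UpperHalfPlane.coe (volume : Measure ℂ) ≪ (volume : Measure ℍ) := by
    rw [volume_def]
    refine withDensity_absolutelyContinuous' ?_ (Filter.Eventually.of_forall fun z => ?_)
    · exact (measurable_coe_nnreal_ennreal.comp hc.measurable).aemeasurable
    · have hz : NNReal.mk z.im z.im_pos.le ≠ 0 := NNReal.ne_iff.mp z.im_ne_zero
      exact ENNReal.coe_ne_zero.2 (pow_ne_zero _ (one_div_ne_zero hz))
  exact hac.isOpenPosMeasure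

/-- The Haar measure of SL(2,R). -/
noncomputable abbrev nu : Measure S := Measure.haar

lemma mu_def : mu = (volume : Measure ℍ).prod nu := rfl

/-- Upper unipotent matrices. -/
def base_up (b : ℝ) : S := ⟨!![1, b; 0, 1], by simp⟩

/-- Lower unipotent matrices. -/
def base_lo (c : ℝ) : S := ⟨!![1, 0; c, 1], by simp⟩

/-- The matrix diag(2, 1/2). -/
noncomputable def base_d : S := ⟨!![2, 0; 0, 1 / 2], by simp⟩

lemma base_up_rel (b : ℝ) :
    base_d * base_up b = base_up b * base_up b * base_up b * base_up b * base_d := by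
  ext i j
  fin_cases i <;> fin_cases j <;>
    simp [base_d, base_up, Matrix.mul_apply, Fin.sum_univ_two]
  ring

lemma base_lo_rel (c : ℝ) :
    base_lo c * base_d = base_d * (base_lo c * base_lo c * base_lo c * base_lo c) := by
  ext i j
  fin_cases i <;> fin_cases j <;>
    simp [base_d, base_lo, Matrix.mul_apply, Fin.sum_univ_two]
  ring

lemma base_cube (x d : NNReal) (hx : x ≠ 0) (hd : d ≠ 0) (h : d * x = x * x * x * x * d) :
    x = 1 := by
  have h1 : (d * x) * 1 = (d * x) * x ^ 3 := by rw [mul_one]; nth_rewrite 1 [h]; ring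
  have h2 : x ^ 3 = 1 := (mul_left_cancel₀ (mul_ne_zero hd hx) h1).symm
  exact (pow_eq_one_iff_of_nonneg (zero_le) (by norm_num)).1 h2

lemma base_decomp (g : S) (hc : g 1 0 ≠ 0) :
    g = base_up ((g 0 0 - 1) / g 1 0) * base_lo (g 1 0) * base_up ((g 1 1 - 1) / g 1 0) := by
  have hd := g.det_coe
  rw [Matrix.det_fin_two] at hd
  ext i j
  fin_cases i <;> fin_cases j <;>
    simp [base_lo, base_up, Matrix.mul_apply, Fin.sum_univ_two] <;> field_simp
  · ring
  · linear_combination -hd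
  · ring

lemma base_hom_trivial (D : S →* NNReal) (g : S) : D g = 1 := by
  have hne : ∀ g : S, D g ≠ 0 := fun g h => by
    have := D.map_mul g g⁻¹
    rw [mul_inv_cancel, map_one, h, zero_mul] at this
    exact one_ne_zero this
  have hup : ∀ b, D (base_up b) = 1 := fun b => by
    have := congrArg D (base_up_rel b)
    simp only [map_mul] at this
    exact base_cube _ _ (hne _) (hne _) this
  have hlo : ∀ c, D (base_lo c) = 1 := fun c => by
    have := congrArg D (base_lo_rel c)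
    simp only [map_mul] at this
    refine base_cube _ (D base_d) (hne _) (hne _) ?_
    rw [mul_comm, this, mul_comm]
  have hgen : ∀ g : S, g 1 0 ≠ 0 → D g = 1 := fun g hc => by
    rw [base_decomp g hc, map_mul, map_mul, hup, hlo, hup, mul_one, mul_one]
  by_cases hc : g 1 0 = 0
  · have hd := g.det_coe
    rw [Matrix.det_fin_two] at hd
    have h1 : (base_lo 1 * g) 1 0 ≠ 0 := by
      have : (base_lo 1 * g) 1 0 = g 0 0 + g 1 0 := by
        simp [base_lo, Matrix.mul_apply, Fin.sum_univ_two]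
      rw [this, hc, add_zero]
      intro h0
      rw [h0, hc] at hd
      simp at hd
    have := hgen _ h1
    rwa [map_mul, hlo, one_mul] at this
  · exact hgen g hc

instance nuRight : nu.IsMulRightInvariant := by
  refine ⟨fun g => ?_⟩
  rw [Measure.map_right_mul_eq_modularCharacterFun_smul]
  have : Measure.modularCharacterFun g = 1 := base_hom_trivial Measure.modularCharacter g
  rw [this, one_smul]

instance invariantX : SMulInvariantMeasure G X mu := by
  refine ⟨fun g s hs => ?_⟩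
  have h1 : MeasurePreserving (fun z : ℍ => g.1 • z) volume volume := measurePreserving_smul g.1 _
  have h2 : MeasurePreserving (fun x : S => g.2.1 * x * g.2.2⁻¹) nu nu :=
    (measurePreserving_mul_right nu g.2.2⁻¹).comp (measurePreserving_mul_left nu g.2.1)
  exact (h1.prod h2).measure_preimage hs.nullMeasurableSet

instance finiteX : IsFiniteMeasureOnCompacts mu := by
  rw [mu_def]; infer_instance

instance locFiniteX : IsLocallyFiniteMeasure mu := inferInstance

instance sigmaFiniteX : SigmaFinite mu := by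
  rw [mu_def]; infer_instance

instance openPosX : mu.IsOpenPosMeasure := by
  rw [mu_def]; infer_instance

instance regularX : mu.Regular := inferInstance

lemma mu_ne_zero : mu ≠ 0 := by
  intro h
  have := isOpen_univ.measure_ne_zero mu ⟨(I, 1), Set.mem_univ _⟩
  rw [h] at this
  exact this rfl

lemma pretransitive : MulAction.IsPretransitive G X := by
  refine ⟨fun x y => ?_⟩
  obtain ⟨a, ha⟩ := MulAction.exists_smul_eq S x.1 y.1
  refine ⟨(a, y.2, x.2), Prod.ext ha ?_⟩
  show y.2 * x.2 * x.2⁻¹ = y.2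
  simp

lemma base_coe_smul (g : S) (z : ℍ) :
    ((g • z : ℍ) : ℂ) = ((g 0 0 : ℝ) * (z : ℂ) + (g 0 1 : ℝ)) / ((g 1 0 : ℝ) * (z : ℂ) + (g 1 1 : ℝ)) :=
  coe_specialLinearGroup_apply g z

lemma base_denom_ne (g : S) (z : ℍ) : ((g 1 0 : ℝ) * (z : ℂ) + (g 1 1 : ℝ)) ≠ 0 :=
  denom_ne_zero (Matrix.SpecialLinearGroup.mapGL ℝ g) z

lemma base_smul_I_iff (g : S) : g • I = I ↔ g 0 0 = g 1 1 ∧ g 0 1 = -g 1 0 := by
  rw [UpperHalfPlane.ext_iff, base_coe_smul, div_eq_iff (base_denom_ne g I), Complex.ext_iff]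
  simp
  constructor
  · rintro ⟨h1, h2⟩
    exact ⟨h2, h1⟩
  · rintro ⟨h1, h2⟩
    exact ⟨h2, h1⟩

lemma stabilizer_iff (g : G) : g • ((I, 1) : X) = (I, 1) ↔
    g.1.val.transpose * g.1.val = 1 ∧ g.2.1 = g.2.2 := by
  have hd := g.1.det_coe
  rw [Matrix.det_fin_two] at hd
  rw [smul_def, Prod.mk.injEq, base_smul_I_iff, mul_one, mul_inv_eq_one]
  refine and_congr_left' ⟨?_, ?_⟩
  · rintro ⟨h1, h2⟩
    ext i j
    fin_cases i <;> fin_cases j <;> simp [Matrix.mul_apply, Fin.sum_univ_two]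
    · rw [h1, h2] at hd
      rw [h1]
      linear_combination hd
    · rw [h1, h2]; ring
    · rw [h1, h2]; ring
    · rw [h1, h2] at hd
      rw [h2]
      linear_combination hd
  · intro h
    have h00 := congrFun (congrFun h 0) 0
    have h11 := congrFun (congrFun h 1) 1
    simp [Matrix.mul_apply, Fin.sum_univ_two] at h00 h11
    have hs : (g.1 0 0 - g.1 1 1) ^ 2 + (g.1 0 1 + g.1 1 0) ^ 2 = 0 := by
      linear_combination h00 + h11 - 2 * hd
    have e1 : (g.1 0 0 - g.1 1 1) ^ 2 = 0 := by nlinarith [sq_nonneg (g.1 0 0 - g.1 1 1), sq_nonneg (g.1 0 1 + g.1 1 0)]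
    have e2 : (g.1 0 1 + g.1 1 0) ^ 2 = 0 := by nlinarith [sq_nonneg (g.1 0 0 - g.1 1 1), sq_nonneg (g.1 0 1 + g.1 1 0)]
    have f1 := pow_eq_zero_iff (two_ne_zero) |>.1 e1
    have f2 := pow_eq_zero_iff (two_ne_zero) |>.1 e2
    exact ⟨by linarith, by linarith⟩

/-- The trace. -/
def tr (g : S) : ℝ := g 0 0 + g 1 1

/-- The diagonal one parameter group. -/
noncomputable def dia (u : ℝ) : S :=
  ⟨!![Real.exp u, 0; 0, Real.exp (-u)], by simp [← Real.exp_add]⟩

/-- The rotations. -/
noncomputable def rot (θ : ℝ) : S :=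
  ⟨!![Real.cos θ, -Real.sin θ; Real.sin θ, Real.cos θ], by
    rw [Matrix.det_fin_two_of]; linear_combination Real.cos_sq_add_sin_sq θ⟩

lemma sqrt3_sq : √3 ^ 2 = 3 := Real.sq_sqrt (by norm_num)

/-- First generator of the (3,6,6) triangle group. -/
noncomputable def mA : S :=
  ⟨!![(1 + √3) / 2, (1 - √3) / 2; (1 + √3) / 2, (√3 - 1) / 2], by
    rw [Matrix.det_fin_two_of]; linear_combination (1 / 2) * sqrt3_sq⟩

/-- Second generator of the (3,6,6) triangle group. -/
noncomputable def mB : S :=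
  ⟨!![(1 - √3) / 2, (1 + √3) / 2; (1 - √3) / 2, -(1 + √3) / 2], by
    rw [Matrix.det_fin_two_of]; linear_combination (1 / 2) * sqrt3_sq⟩

/-- First generator of the discontinuous group. -/
noncomputable def ga : G := (mA, 1, rot (Real.pi / 6))

/-- Second generator of the discontinuous group. -/
noncomputable def gb : G := (mB, 1, rot (Real.pi / 6))

/-- Third generator of the discontinuous group. -/
noncomputable def gz (u θ : ℝ) : G := (1, dia u, rot θ)

/-- The discontinuous groups. -/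
noncomputable def Lat (u θ : ℝ) : Subgroup G := Subgroup.closure {ga, gb, gz u θ}

/-- A closed fundamental set for the diagonal matrix acting on the left. -/
def shell (u : ℝ) : Set S :=
  {x | 1 ≤ ‖((x • I : ℍ) : ℂ)‖ ∧ ‖((x • I : ℍ) : ℂ)‖ ≤ Real.exp (2 * u)}

/-- A set that meets every orbit. -/
def cover (u : ℝ) : Set X := Metric.closedBall I 2 ×ˢ shell u

lemma measurableSet_shell (u : ℝ) : MeasurableSet (shell u) := by
  have hc : Continuous fun x : S => ‖((x • I : ℍ) : ℂ)‖ :=
    (continuous_coe.comp (continuous_id.smul continuous_const)).norm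
  exact ((isClosed_le continuous_const hc).inter (isClosed_le hc continuous_const)).measurableSet

lemma measurableSet_cover (u : ℝ) : MeasurableSet (cover u) :=
  Metric.isClosed_closedBall.measurableSet.prod (measurableSet_shell u)

lemma S_ext {g h : S} (h00 : g 0 0 = h 0 0) (h01 : g 0 1 = h 0 1) (h10 : g 1 0 = h 1 0)
    (h11 : g 1 1 = h 1 1) : g = h := by
  ext i j
  fin_cases i <;> fin_cases j <;> assumption

lemma S_det (g : S) : g 0 0 * g 1 1 - g 0 1 * g 1 0 = 1 := by
  have := g.det_coe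
  rwa [Matrix.det_fin_two] at this

lemma S_mul (g h : S) (i j : Fin 2) : (g * h) i j = g i 0 * h 0 j + g i 1 * h 1 j := by
  simp [Matrix.mul_apply, Fin.sum_univ_two]

lemma S_inv (g : S) : g⁻¹ 0 0 = g 1 1 ∧ g⁻¹ 0 1 = -g 0 1 ∧ g⁻¹ 1 0 = -g 1 0 ∧ g⁻¹ 1 1 = g 0 0 := by
  simp [Matrix.SpecialLinearGroup.SL2_inv_expl]

lemma dia_add (u v : ℝ) : dia (u + v) = dia u * dia v := by
  apply S_ext <;> simp [S_mul, dia, Real.exp_add, mul_comm]

lemma dia_zero : dia 0 = 1 := by
  apply S_ext <;> simp [dia]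

lemma dia_neg (u : ℝ) : dia (-u) = (dia u)⁻¹ := by
  rw [eq_inv_iff_mul_eq_one, ← dia_add, neg_add_cancel, dia_zero]

lemma rot_add (u v : ℝ) : rot (u + v) = rot u * rot v := by
  apply S_ext <;> simp [S_mul, rot, Real.cos_add, Real.sin_add] <;> ring

lemma rot_zero : rot 0 = 1 := by
  apply S_ext <;> simp [rot]

lemma rot_neg (u : ℝ) : rot (-u) = (rot u)⁻¹ := by
  rw [eq_inv_iff_mul_eq_one, ← rot_add, neg_add_cancel, rot_zero]

lemma rot_smul_I (θ : ℝ) : rot θ • I = I := by
  rw [base_smul_I_iff]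
  simp [rot]

lemma coe_dia_smul (u : ℝ) (z : ℍ) : ((dia u • z : ℍ) : ℂ) = (Real.exp (2 * u) : ℝ) * (z : ℂ) := by
  rw [base_coe_smul, div_eq_iff (base_denom_ne (dia u) z)]
  have h : Real.exp u = Real.exp (2 * u) * Real.exp (-u) := by
    rw [← Real.exp_add]; congr 1; ring
  have e00 : dia u 0 0 = Real.exp u := rfl
  have e01 : dia u 0 1 = 0 := rfl
  have e10 : dia u 1 0 = 0 := rfl
  have e11 : dia u 1 1 = Real.exp (-u) := rfl
  rw [e00, e01, e10, e11, h, Complex.ofReal_mul, Complex.ofReal_zero]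
  ring

/-- The extension of the action of g to the ambient vector space. -/
noncomputable def base_ext (g : G) (e : ℂ × (Fin 2 → Fin 2 → ℝ)) : ℂ × (Fin 2 → Fin 2 → ℝ) :=
  (((g.1 0 0 : ℝ) * e.1 + (g.1 0 1 : ℝ)) / ((g.1 1 0 : ℝ) * e.1 + (g.1 1 1 : ℝ)),
    fun i j => (g.2.1 i 0 * e.2 0 0 + g.2.1 i 1 * e.2 1 0) * g.2.2⁻¹ 0 j +
      (g.2.1 i 0 * e.2 0 1 + g.2.1 i 1 * e.2 1 1) * g.2.2⁻¹ 1 j)

lemma base_ext_emb (g : G) (x : X) : base_ext g (emb x) = emb (g • x) := by
  refine Prod.ext (base_coe_smul g.1 x.1).symm ?_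
  funext i j
  show _ = (g.2.1 * x.2 * g.2.2⁻¹) i j
  rw [S_mul, S_mul, S_mul]
  rfl

lemma base_ext_smooth (g : G) (x : X) : ContDiffAt ℝ ∞ (base_ext g) (emb x) := by
  refine ContDiffAt.prodMk ?_ ?_
  · have h1 : ContDiffAt ℝ ∞ (fun e : ℂ × (Fin 2 → Fin 2 → ℝ) =>
        ((g.1 0 0 : ℝ) * e.1 + (g.1 0 1 : ℝ) : ℂ)) (emb x) := by fun_prop
    have h2 : ContDiffAt ℝ ∞ (fun e : ℂ × (Fin 2 → Fin 2 → ℝ) =>
        ((g.1 1 0 : ℝ) * e.1 + (g.1 1 1 : ℝ) : ℂ)) (emb x) := by fun_prop
    simp only [div_eq_mul_inv]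
    exact h1.mul (h2.inv (base_denom_ne g.1 x.1))
  · refine contDiffAt_pi.2 fun i => contDiffAt_pi.2 fun j => ?_
    fun_prop

lemma base_mem_smooth (g : G) (f : Smooth) : (fun x => f.val (g • x)) ∈ Smooth := by
  obtain ⟨F, hF⟩ := f.property
  refine ⟨F ∘ base_ext g, fun x => ⟨?_, ?_⟩⟩
  · refine ContDiffAt.comp _ ?_ (base_ext_smooth g x)
    rw [base_ext_emb]
    exact (hF _).1
  · show F (base_ext g (emb x)) = _
    rw [base_ext_emb]
    exact (hF _).2

/-- The translation operator f(x) ↦ f(g⁻¹ x) on smooth functions. -/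
noncomputable def tau (g : G) : Module.End ℂ Smooth where
  toFun f := ⟨fun x => f.val (g⁻¹ • x), base_mem_smooth g⁻¹ f⟩
  map_add' _ _ := rfl
  map_smul' _ _ := rfl

lemma tau_val (g : G) (f : Smooth) (x : X) : (tau g f).val x = f.val (g⁻¹ • x) := rfl

/-- The algebra of invariant differential operators on X. -/
noncomputable abbrev DX : Subalgebra ℂ (Module.End ℂ Smooth) :=
  InvDiffOp G (Subtype.val : Smooth → X → ℂ)

lemma DX_tau (D : DX) (g : G) (f : Smooth) : D.val (tau g f) = tau g (D.val f) := by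
  have h := (Subalgebra.mem_centralizer_iff ℂ).1 D.property.2 (tau g) ⟨g, fun _ _ => rfl⟩
  exact (LinearMap.congr_fun h f).symm

lemma mem_DX {D : Module.End ℂ Smooth}
    (h1 : D ∈ Algebra.adjoin ℂ ({D : Module.End ℂ Smooth | ∃ a : Smooth, ∀ f, D f = a * f} ∪
      {D | ∀ f f', D (f * f') = f * D f' + f' * D f}))
    (h2 : ∀ g, tau g * D = D * tau g) : D ∈ DX := by
  refine ⟨h1, (Subalgebra.mem_centralizer_iff ℂ).2 ?_⟩
  rintro T ⟨g, hg⟩
  have : T = tau g := LinearMap.ext fun f => Subtype.ext (funext fun x => hg f x)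
  rw [this]
  exact h2 g

end Pool.Agent.Lib.MP_99bfa4_al.SS
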