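import Pool.Agent.Lib.MP_99bfa4_al.SS.Hol

open MeasureTheory UpperHalfPlane
open scoped ContDiff Topology MatrixGroups InnerProductSpace ComplexConjugate

namespace Pool.Agent.Lib.MP_99bfa4_al.SS

/-- The matrices of trace zero. -/
def cas_Y (a b c : ℝ) : Matrix (Fin 2) (Fin 2) ℝ := !![a, b; c, -a]

/-- A curve through the identity with tangent vector cas_Y a b c. -/
noncomputable def cas_cv (a b c t : ℝ) : S :=
  ⟨!![Real.exp (a * t) * (1 + b * c * t ^ 2), Real.exp (a * t) * (b * t);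
      Real.exp (-(a * t)) * (c * t), Real.exp (-(a * t))], by
    rw [Matrix.det_fin_two_of]
    have : Real.exp (a * t) * Real.exp (-(a * t)) = 1 := by rw [← Real.exp_add]; simp
    linear_combination this⟩

lemma cas_cv_zero (a b c : ℝ) : cas_cv a b c 0 = 1 := by
  apply S_ext <;> simp [cas_cv]

lemma cas_cv_deriv (a b c : ℝ) (i j : Fin 2) :
    HasDerivAt (fun t => (cas_cv a b c t).val i j) (cas_Y a b c i j) 0 := by
  have h1 : HasDerivAt (fun t : ℝ => a * t) a 0 := by simpa using (hasDerivAt_id 0).const_mul a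
  have h2 : HasDerivAt (fun t : ℝ => b * t) b 0 := by simpa using (hasDerivAt_id 0).const_mul b
  have h3 : HasDerivAt (fun t : ℝ => c * t) c 0 := by simpa using (hasDerivAt_id 0).const_mul c
  have h4 : HasDerivAt (fun t : ℝ => 1 + b * c * t ^ 2) 0 0 := by
    simpa using ((hasDerivAt_pow 2 (0 : ℝ)).const_mul (b * c)).const_add 1
  fin_cases i <;> fin_cases j
  · exact (h1.exp.mul h4).congr_deriv (by simp [cas_Y])
  · exact (h1.exp.mul h2).congr_deriv (by simp [cas_Y])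
  · exact (h1.neg.exp.mul h3).congr_deriv (by simp [cas_Y])
  · exact h1.neg.exp.congr_deriv (by simp [cas_Y])

lemma cas_entry (a b c : ℝ) (P Q : Matrix (Fin 2) (Fin 2) ℝ) (i j : Fin 2) :
    HasDerivAt (fun t => (P * (cas_cv a b c t).val * Q) i j) ((P * cas_Y a b c * Q) i j) 0 := by
  have h := cas_cv_deriv a b c
  simp only [Matrix.mul_apply, Fin.sum_univ_two]
  exact ((((h 0 0).const_mul _).add ((h 1 0).const_mul _)).mul_const _).add
    ((((h 0 1).const_mul _).add ((h 1 1).const_mul _)).mul_const _)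

lemma cas_curve {f : X → ℂ} {F : ℂ × (Fin 2 → Fin 2 → ℝ) → ℂ}
    (hF : ∀ x, ContDiffAt ℝ ∞ F (emb x) ∧ F (emb x) = f x) (a b c : ℝ) (z : ℍ) (P Q : S) :
    HasDerivAt (fun t => f (z, P * cas_cv a b c t * Q))
      (fderiv ℝ F (emb (z, P * Q)) (0, fun i j => (P.val * cas_Y a b c * Q.val) i j)) 0 := by
  have h1 : HasDerivAt (fun t => emb (z, P * cas_cv a b c t * Q))
      ((0, fun i j => (P.val * cas_Y a b c * Q.val) i j) : ℂ × (Fin 2 → Fin 2 → ℝ)) 0 :=
    (hasDerivAt_const (0 : ℝ) (z : ℂ)).prodMk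
      (hasDerivAt_pi.2 fun i => hasDerivAt_pi.2 fun j => cas_entry a b c P.val Q.val i j)
  have h2 : HasFDerivAt F (fderiv ℝ F (emb (z, P * Q))) (emb (z, P * cas_cv a b c 0 * Q)) := by
    rw [cas_cv_zero, mul_one]
    exact ((hF _).1.differentiableAt (by simp)).hasFDerivAt
  have h3 := h2.comp_hasDerivAt (0 : ℝ) h1
  have h4 : (F ∘ fun t => emb (z, P * cas_cv a b c t * Q)) =
      fun t => f (z, P * cas_cv a b c t * Q) := funext fun t => (hF _).2
  rwa [h4] at h3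

/-- The left invariant vector field, extended to the ambient vector space. -/
def cas_V (a b c : ℝ) (e : ℂ × (Fin 2 → Fin 2 → ℝ)) : ℂ × (Fin 2 → Fin 2 → ℝ) :=
  (0, fun i j => e.2 i 0 * cas_Y a b c 0 j + e.2 i 1 * cas_Y a b c 1 j)

lemma cas_V_smooth (a b c : ℝ) : ContDiff ℝ ∞ (cas_V a b c) := by
  unfold cas_V
  fun_prop

lemma cas_curve' {f : X → ℂ} {F : ℂ × (Fin 2 → Fin 2 → ℝ) → ℂ}
    (hF : ∀ x, ContDiffAt ℝ ∞ F (emb x) ∧ F (emb x) = f x) (a b c : ℝ) (x : X) :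
    HasDerivAt (fun t => f (x.1, x.2 * cas_cv a b c t))
      (fderiv ℝ F (emb x) (cas_V a b c (emb x))) 0 := by
  have h := cas_curve hF a b c x.1 x.2 1
  simp only [mul_one, Matrix.SpecialLinearGroup.coe_one] at h
  refine h.congr_deriv ?_
  congr 2
  funext i j
  simp [Matrix.mul_apply, Fin.sum_univ_two, emb]

/-- The derivative along a left invariant vector field on the second factor. -/
noncomputable def cas_d0 (a b c : ℝ) (f : Smooth) : Smooth :=
  ⟨fun x => deriv (fun t => f.val (x.1, x.2 * cas_cv a b c t)) 0, by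
    obtain ⟨F, hF⟩ := f.2
    exact ⟨fun e => fderiv ℝ F e (cas_V a b c e), fun x =>
      ⟨((hF x).1.fderiv_right (m := ∞) (by simp)).clm_apply (cas_V_smooth a b c).contDiffAt,
        (cas_curve' hF a b c x).deriv.symm⟩⟩⟩

lemma cas_has (a b c : ℝ) (f : Smooth) (x : X) :
    HasDerivAt (fun t => f.val (x.1, x.2 * cas_cv a b c t)) ((cas_d0 a b c f).val x) 0 := by
  obtain ⟨F, hF⟩ := f.2
  exact (cas_curve' hF a b c x).differentiableAt.hasDerivAt

/-- The derivative as a linear operator. -/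
noncomputable def cas_d (a b c : ℝ) : Module.End ℂ Smooth where
  toFun := cas_d0 a b c
  map_add' f f' := Subtype.ext (funext fun x =>
    (cas_has a b c (f + f') x).unique ((cas_has a b c f x).add (cas_has a b c f' x)))
  map_smul' r f := Subtype.ext (funext fun x =>
    (cas_has a b c (r • f) x).unique ((cas_has a b c f x).const_smul r))

lemma cas_leibniz (a b c : ℝ) (f f' : Smooth) :
    cas_d a b c (f * f') = f * cas_d a b c f' + f' * cas_d a b c f := by
  refine Subtype.ext (funext fun x => ?_)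
  have h := (cas_has a b c (f * f') x).unique ((cas_has a b c f x).mul (cas_has a b c f' x))
  simp only [cas_cv_zero, mul_one] at h
  refine h.trans ?_
  change _ = f.val x * (cas_d0 a b c f').val x + f'.val x * (cas_d0 a b c f).val x
  ring

lemma cas_d_eq {f : Smooth} {F : ℂ × (Fin 2 → Fin 2 → ℝ) → ℂ}
    (hF : ∀ x, ContDiffAt ℝ ∞ F (emb x) ∧ F (emb x) = f.val x) (a b c : ℝ) (x : X) :
    (cas_d a b c f).val x = fderiv ℝ F (emb x) (cas_V a b c (emb x)) :=
  (cas_curve' hF a b c x).deriv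

lemma cas_lin (a b c : ℝ) :
    cas_d a b c = (a : ℂ) • cas_d 1 0 0 + (b : ℂ) • cas_d 0 1 0 + (c : ℂ) • cas_d 0 0 1 := by
  refine LinearMap.ext fun f => Subtype.ext (funext fun x => ?_)
  obtain ⟨F, hF⟩ := f.2
  change _ = (a : ℂ) • (cas_d 1 0 0 f).val x + (b : ℂ) • (cas_d 0 1 0 f).val x +
    (c : ℂ) • (cas_d 0 0 1 f).val x
  have : cas_V a b c (emb x) =
      a • cas_V 1 0 0 (emb x) + b • cas_V 0 1 0 (emb x) + c • cas_V 0 0 1 (emb x) := by
    refine Prod.ext (by simp [cas_V]) ?_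
    funext i j
    fin_cases j <;> simp [cas_V, cas_Y] <;> ring
  simp only [cas_d_eq hF, this, map_add, map_smul, Complex.coe_smul]

lemma cas_tau (g : G) (a b c : ℝ) : cas_d a b c * tau g = tau g *
    cas_d (a * (g.2.2 0 0 * g.2.2 1 1 + g.2.2 0 1 * g.2.2 1 0) + b * (g.2.2 1 0 * g.2.2 1 1) -
        c * (g.2.2 0 0 * g.2.2 0 1))
      (2 * a * (g.2.2 0 1 * g.2.2 1 1) + b * g.2.2 1 1 ^ 2 - c * g.2.2 0 1 ^ 2)
      (-2 * a * (g.2.2 0 0 * g.2.2 1 0) - b * g.2.2 1 0 ^ 2 + c * g.2.2 0 0 ^ 2) := by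
  refine LinearMap.ext fun f => Subtype.ext (funext fun x => ?_)
  obtain ⟨F, hF⟩ := f.2
  have h1 := cas_has a b c (tau g f) x
  have h2 := cas_curve hF a b c (g.1⁻¹ • x.1) (g.2.1⁻¹ * x.2) g.2.2
  have h3 : (fun t => (tau g f).val (x.1, x.2 * cas_cv a b c t)) =
      fun t => f.val (g.1⁻¹ • x.1, g.2.1⁻¹ * x.2 * cas_cv a b c t * g.2.2) := by
    funext t
    rw [tau_val, smul_def]
    simp only [Prod.fst_inv, Prod.snd_inv, inv_inv, mul_assoc]
  rw [h3] at h1
  refine (h1.unique h2).trans ?_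
  rw [Module.End.mul_apply, tau_val, cas_d_eq hF, smul_def]
  simp only [Prod.fst_inv, Prod.snd_inv, inv_inv]
  congr 2
  funext i j
  have hd := S_det g.2.2
  generalize g.2.1⁻¹ * x.2 = P
  simp only [emb, S_mul, Matrix.mul_apply, Fin.sum_univ_two]
  fin_cases j
  · simp [cas_Y]
    linear_combination (-(P i 0 * (a * g.2.2 0 0 + b * g.2.2 1 0)) -
      P i 1 * (c * g.2.2 0 0 - a * g.2.2 1 0)) * hd
  · simp [cas_Y]
    linear_combination (-(P i 0 * (a * g.2.2 0 1 + b * g.2.2 1 1)) -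
      P i 1 * (c * g.2.2 0 1 - a * g.2.2 1 1)) * hd

lemma cas_alg {A : Type*} [Ring A] [Algebra ℂ A] (H E F : A) (p q r s : ℂ)
    (h : p * s - q * r = 1) :
    ((p * s + q * r) • H + (2 * (q * s)) • E + (-2 * (p * r)) • F) *
        ((p * s + q * r) • H + (2 * (q * s)) • E + (-2 * (p * r)) • F) +
      (2 : ℂ) • (((r * s) • H + (s ^ 2) • E + (-r ^ 2) • F) *
        ((-(p * q)) • H + (-q ^ 2) • E + (p ^ 2) • F)) +
      (2 : ℂ) • (((-(p * q)) • H + (-q ^ 2) • E + (p ^ 2) • F) *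
        ((r * s) • H + (s ^ 2) • E + (-r ^ 2) • F)) =
      H * H + (2 : ℂ) • (E * F) + (2 : ℂ) • (F * E) := by
  simp only [add_mul, mul_add, smul_mul_assoc, mul_smul_comm]
  match_scalars
  all_goals first
    | ring1
    | linear_combination (p * s - q * r + 1) * h
    | linear_combination 2 * (p * s - q * r + 1) * h

lemma cas_alg2 {A : Type*} [Ring A] [Algebra ℂ A] {H E F H' E' F' T : A} (h1 : H * T = T * H')
    (h2 : E * T = T * E') (h3 : F * T = T * F') :
    T * (H' * H' + (2 : ℂ) • (E' * F') + (2 : ℂ) • (F' * E')) =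
      (H * H + (2 : ℂ) • (E * F) + (2 : ℂ) • (F * E)) * T := by
  simp only [mul_add, add_mul, smul_mul_assoc, mul_smul_comm]
  rw [mul_assoc H, mul_assoc E, mul_assoc F, h1, h2, h3, ← mul_assoc H, ← mul_assoc E,
    ← mul_assoc F, h1, h2, h3, mul_assoc, mul_assoc, mul_assoc]

/-- The Casimir operator of the last factor. -/
noncomputable def cas_C : Module.End ℂ Smooth :=
  cas_d 1 0 0 * cas_d 1 0 0 + (2 : ℂ) • (cas_d 0 1 0 * cas_d 0 0 1) +
    (2 : ℂ) • (cas_d 0 0 1 * cas_d 0 1 0)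

lemma cas_C_tau (g : G) : tau g * cas_C = cas_C * tau g := by
  have hd : (g.2.2 0 0 : ℂ) * g.2.2 1 1 - g.2.2 0 1 * g.2.2 1 0 = 1 := by
    exact_mod_cast S_det g.2.2
  have h1 := cas_tau g 1 0 0
  have h2 := cas_tau g 0 1 0
  have h3 := cas_tau g 0 0 1
  rw [cas_lin (_ - _)] at h1 h2 h3
  simp only [one_mul, zero_mul, add_zero, sub_zero, mul_one, mul_zero, zero_add, zero_sub] at h1 h2 h3
  push_cast at h1 h2 h3
  have h4 := cas_alg (cas_d 1 0 0) (cas_d 0 1 0) (cas_d 0 0 1) _ _ _ _ hd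
  conv_lhs => rw [cas_C, ← h4]
  exact cas_alg2 h1 h2 h3

/-- The linear form behind al. -/
noncomputable def cas_A (M : Matrix (Fin 2) (Fin 2) ℝ) : ℂ :=
  ((M 0 0 * Complex.I + M 0 1) + Complex.I * (M 1 0 * Complex.I + M 1 1)) / (2 * Complex.I)

lemma cas_A_deriv (a b c : ℝ) (P Q : Matrix (Fin 2) (Fin 2) ℝ) :
    HasDerivAt (fun t => cas_A (P * (cas_cv a b c t).val * Q)) (cas_A (P * cas_Y a b c * Q)) 0 := by
  have h := fun i j => (cas_entry a b c P Q i j).ofReal_comp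
  exact ((((h 0 0).mul_const _).add (h 0 1)).add
    ((((h 1 0).mul_const _).add (h 1 1)).const_mul _)).div_const _

lemma cas_A_ne (x : S) : cas_A x.val ≠ 0 := al_ne (pq_mem x)

lemma cas_A_one : cas_A 1 = 1 := by
  simp [cas_A]
  field_simp
  ring

lemma cas_psi (k : ℕ) (x : X) : (psi k).val x = cas_A x.2.val ^ (-(k : ℤ)) := by
  rw [zpow_neg, zpow_natCast]
  rfl

lemma cas_zpow (a b c : ℝ) (P : S) (m : ℤ) :
    HasDerivAt (fun t => cas_A (P * cas_cv a b c t).val ^ m)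
      (m * cas_A P.val ^ (m - 1) * cas_A (P.val * cas_Y a b c)) 0 := by
  have h1 := cas_A_deriv a b c P.val 1
  simp only [mul_one] at h1
  have h2 := hasDerivAt_zpow m (cas_A (P.val * (cas_cv a b c 0).val))
    (Or.inl (cas_A_ne (P * cas_cv a b c 0)))
  have h3 := h2.comp (0 : ℝ) h1
  rw [cas_cv_zero, Matrix.SpecialLinearGroup.coe_one, mul_one] at h3
  exact h3

lemma cas_d_psi (k : ℕ) (a b c : ℝ) (x : X) : (cas_d a b c (psi k)).val x =
    ((-(k : ℤ) : ℤ) : ℂ) * cas_A x.2.val ^ (-(k : ℤ) - 1) * cas_A (x.2.val * cas_Y a b c) := by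
  have h1 := cas_has a b c (psi k) x
  simp only [cas_psi] at h1
  exact h1.unique (cas_zpow a b c x.2 _)

lemma cas_dd_psi (k : ℕ) (a b c a' b' c' : ℝ) :
    (cas_d a b c (cas_d a' b' c' (psi k))).val (I, 1) =
      k * (k + 1) * cas_A (cas_Y a b c) * cas_A (cas_Y a' b' c') -
        k * cas_A (cas_Y a b c * cas_Y a' b' c') := by
  have h1 := cas_has a b c (cas_d a' b' c' (psi k)) (I, 1)
  simp only [cas_d_psi] at h1
  have h2 := ((cas_zpow a b c 1 (-(k : ℤ) - 1)).const_mul ((-(k : ℤ) : ℤ) : ℂ)).mul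
    (cas_A_deriv a b c (1 : S).val (cas_Y a' b' c'))
  refine (h1.unique h2).trans ?_
  simp only [cas_cv_zero, mul_one, Matrix.SpecialLinearGroup.coe_one, one_mul, cas_A_one, one_zpow]
  push_cast
  ring

/-- The Casimir operator. -/
theorem exists_casimir :
    ∃ D : DX, ∀ k : ℕ, (D.val (psi k)).val (I, 1) = (k : ℂ) * ((k : ℂ) - 2) := by
  have hm : ∀ a b c : ℝ, cas_d a b c ∈ Algebra.adjoin ℂ
      ({D : Module.End ℂ Smooth | ∃ a : Smooth, ∀ f, D f = a * f} ∪
        {D | ∀ f f', D (f * f') = f * D f' + f' * D f}) :=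
    fun a b c => Algebra.subset_adjoin (Or.inr (cas_leibniz a b c))
  refine ⟨⟨cas_C, mem_DX ?_ cas_C_tau⟩, fun k => ?_⟩
  · exact add_mem (add_mem (mul_mem (hm _ _ _) (hm _ _ _))
      (Subalgebra.smul_mem _ (mul_mem (hm _ _ _) (hm _ _ _)) _))
      (Subalgebra.smul_mem _ (mul_mem (hm _ _ _) (hm _ _ _)) _)
  · change (cas_d 1 0 0 (cas_d 1 0 0 (psi k))).val (I, 1) +
      (2 : ℂ) • (cas_d 0 1 0 (cas_d 0 0 1 (psi k))).val (I, 1) +
      (2 : ℂ) • (cas_d 0 0 1 (cas_d 0 1 0 (psi k))).val (I, 1) = _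
    simp only [cas_dd_psi]
    simp [cas_A, cas_Y]
    field_simp
    ring

end Pool.Agent.Lib.MP_99bfa4_al.SS
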