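import Pool.Agent.Lib.MP_99bfa4_al.SS.Ev

open MeasureTheory UpperHalfPlane
open scoped ContDiff Topology MatrixGroups InnerProductSpace ComplexConjugate

namespace Pool.Agent.Lib.MP_99bfa4_al.SS

/-- A bounded operator that kills the radial vectors vanishes. -/
lemma comm_ext {B : H2 →L[ℂ] H2}
    (h : ∀ (ψ : ℝ → ℝ) (hψ : Bump ψ) (w : ℍ) (a : Lp ℂ 2 nu), B (ev hψ w a) = 0) (F : H2) :
    B F = 0 := by
  have : ContinuousLinearMap.adjoint B (B F) = 0 := ev_total _ fun ψ hψ w a => by
    rw [ContinuousLinearMap.adjoint_inner_right, h, inner_zero_left]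
  rw [← inner_self_eq_zero (𝕜 := ℂ), ← ContinuousLinearMap.adjoint_inner_right, this,
    inner_zero_right]

lemma comm_meas {c : ℍ × X → ℝ} {d : ℍ × X → ℝ} (hc : Continuous c) (hd : Continuous d)
    (a : Lp ℂ 2 nu) : Measurable fun p : ℍ × X => (c p : ℂ) * ((d p : ℂ) * a p.2.2) :=
  (Complex.continuous_ofReal.comp hc).measurable.mul
    ((Complex.continuous_ofReal.comp hd).measurable.mul
      ((Lp.stronglyMeasurable a).measurable.comp (measurable_snd.comp measurable_snd)))

lemma comm_inner {E : ℍ → H2} (hE : Integrable E) (F : H2) :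
    ⟪∫ w, E w, F⟫_ℂ = ∫ w, ⟪E w, F⟫_ℂ := by
  rw [← inner_conj_symm, ← integral_inner hE, ← integral_conj]
  simp only [inner_conj_symm]

section

variable {R : ℍ → H2 →L[ℂ] H2} (hR : RRep R) (hae : ∀ h F, R h F =ᵐ[mu] fun x => F (rt h x))

include hR hae

/-- The radial average of a radial vector is a left convolution. -/
theorem avg_ev {φ ψ : ℝ → ℝ} (hφ : Bump φ) (hψ : Bump ψ) (z : ℍ) (a : Lp ℂ 2 nu) :
    avg R φ (ev hψ z a) = ∫ w : ℍ, (φ (dist w z) : ℂ) • ev hψ w a := by
  refine ext_inner_left ℂ fun F => ?_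
  have h1 := (inner_integral (hφ.integrable I (hR.cont (ev hψ z a)))
    (Φ := fun h x => (φ (dist h I) : ℂ) * ((ψ (dist (rt h x).1 z) : ℂ) * a x.2))
    (comm_meas (hφ.1.comp (continuous_fst.dist continuous_const))
      (hψ.1.comp ((continuous_fst.comp continuous_rt).dist continuous_const)) a)
    (fun h => by
      filter_upwards [Lp.coeFn_smul (φ (dist h I) : ℂ) (R h (ev hψ z a)), hae h (ev hψ z a),
        (qmp_rt h).ae_eq_comp (ev_ae hψ z a)] with x e1 e2 e3
      rw [e1, Pi.smul_apply, e2, smul_eq_mul]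
      exact congrArg _ e3) F).2
  have h2 := (inner_integral (hφ.integrable z (continuous_ev hψ a))
    (Φ := fun w x => (φ (dist w z) : ℂ) * ((ψ (dist x.1 w) : ℂ) * a x.2))
    (comm_meas (hφ.1.comp (continuous_fst.dist continuous_const))
      (hψ.1.comp ((continuous_fst.comp continuous_snd).dist continuous_fst)) a)
    (fun w => by
      filter_upwards [Lp.coeFn_smul (φ (dist w z) : ℂ) (ev hψ w a), ev_ae hψ w a] with x e1 e2
      rw [e1, Pi.smul_apply, e2, smul_eq_mul]) F).2
  refine Eq.trans (Eq.trans h1 ?_) h2.symm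
  refine integral_congr_ae (Filter.Eventually.of_forall fun x => congrArg _ ?_)
  obtain ⟨g, g1, g2⟩ := exists_swap x.1 z
  rw [← integral_smul_eq_self (μ := volume)
    (fun w : ℍ => (φ (dist w z) : ℂ) * ((ψ (dist x.1 w) : ℂ) * a x.2)) (g := g * x.1.toSL2R)]
  refine integral_congr_ae (Filter.Eventually.of_forall fun h => ?_)
  have e1 : dist ((g * x.1.toSL2R) • h) z = dist h I := by
    rw [← dist_smul (g * x.1.toSL2R) h I, mul_smul g x.1.toSL2R I, toSL2R_smul_I, g1]
  have e2 : dist x.1 ((g * x.1.toSL2R) • h) = dist (rt h x).1 z := by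
    rw [mul_smul, dist_comm, ← dist_smul g (rt h x).1 z, g2]
    rfl
  simp only [e1, e2]

omit hR in
lemma comm_R_Lop (b c : S) (h : ℍ) (F : H2) : R h (Lop (1, b, c) F) = Lop (1, b, c) (R h F) := by
  refine Lp.ext ?_
  filter_upwards [hae h (Lop (1, b, c) F), (qmp_rt h).ae_eq_comp (Lop_ae (1, b, c) F),
    Lop_ae (1, b, c) (R h F),
    (measurePreserving_smul ((1, b, c) : G)⁻¹ mu).quasiMeasurePreserving.ae_eq_comp (hae h F)]
    with x e1 e2 e3 e4
  rw [e1, e3]
  refine e2.trans (Eq.trans ?_ e4.symm)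
  simp only [Function.comp_apply, rt, smul_def, Prod.fst_inv, inv_one, one_smul]

/-- Radial averages commute with the regular representation. -/
theorem avg_Lop {φ : ℝ → ℝ} (hφ : Bump φ) (g : G) (F : H2) :
    avg R φ (Lop g F) = Lop g (avg R φ F) := by
  obtain ⟨B, hB⟩ := hR.exists_avg hφ
  have h1 : ∀ (b c : S) (F : H2), avg R φ (Lop (1, b, c) F) = Lop (1, b, c) (avg R φ F) :=
    fun b c F => by
      rw [avg, avg, ← LinearIsometry.integral_comp_comm]
      simp only [map_smul, comm_R_Lop hae]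
      rfl
  have h2 : ∀ (g : S) (F : H2), avg R φ (Lop (g, 1, 1) F) = Lop (g, 1, 1) (avg R φ F) :=
    fun g F => by
      have := comm_ext (B := B.comp (Lop (g, 1, 1)).toContinuousLinearMap -
        (Lop (g, 1, 1)).toContinuousLinearMap.comp B) (fun ψ hψ z a => by
          change B (Lop (g, 1, 1) (ev hψ z a)) - Lop (g, 1, 1) (B (ev hψ z a)) = 0
          rw [sub_eq_zero, hB, hB, Lop_ev, avg_ev hR hae hφ, avg_ev hR hae hφ,
            ← LinearIsometry.integral_comp_comm, ← integral_smul_eq_self (μ := volume)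
              (fun w : ℍ => (φ (dist w (g • z)) : ℂ) • ev hψ w a) (g := g)]
          simp only [map_smul, Lop_ev, dist_smul]) F
      change B (Lop (g, 1, 1) F) - Lop (g, 1, 1) (B F) = 0 at this
      rwa [sub_eq_zero, hB, hB] at this
  have e : g = (g.1, 1, 1) * (1, g.2.1, g.2.2) :=
    Prod.ext (mul_one _).symm (Prod.ext (one_mul _).symm (one_mul _).symm)
  rw [e, Lop_mul, Lop_mul, h2, h1]

/-- Gelfand trick. -/
theorem avg_comm {φ : ℝ → ℝ} (hφ : Bump φ) (T : H2 →L[ℂ] H2)
    (hT : ∀ g F, T (Lop g F) = Lop g (T F)) (F F' : H2) :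
    ⟪T (avg R φ F), F'⟫_ℂ = ⟪T F, avg R φ F'⟫_ℂ := by
  obtain ⟨B, hB⟩ := hR.exists_avg hφ
  have := comm_ext (B := ContinuousLinearMap.adjoint (T.comp B) -
    (ContinuousLinearMap.adjoint T).comp B) (fun ψ' hψ' z' a' => ev_total _ fun ψ hψ z a => by
      have k1 : ∀ (g : S) (w w' : ℍ), ⟪T (ev hψ (g • w) a), ev hψ' (g • w') a'⟫_ℂ =
          ⟪T (ev hψ w a), ev hψ' w' a'⟫_ℂ := fun g w w' => by
        rw [← Lop_ev, ← Lop_ev, hT, LinearIsometry.inner_map_map]
      have k2 : ∀ w w' : ℍ, ⟪T (ev hψ w a), ev hψ' w' a'⟫_ℂ =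
          ⟪T (ev hψ w' a), ev hψ' w a'⟫_ℂ := fun w w' => by
        obtain ⟨g, g1, g2⟩ := exists_swap w w'
        rw [← k1 g, g1, g2]
      obtain ⟨g, g1, g2⟩ := exists_swap z z'
      rw [sub_apply, inner_sub_right, ContinuousLinearMap.comp_apply,
        ContinuousLinearMap.adjoint_inner_right, ContinuousLinearMap.adjoint_inner_right,
        ContinuousLinearMap.comp_apply, hB, hB, avg_ev hR hae hφ, avg_ev hR hae hφ, sub_eq_zero,
        ← T.integral_comp_comm (hφ.integrable z (continuous_ev hψ a)),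
        comm_inner (T.integrable_comp (hφ.integrable z (continuous_ev hψ a))),
        ← integral_inner (hφ.integrable z' (continuous_ev hψ' a')),
        ← integral_smul_eq_self (μ := volume) (fun w : ℍ =>
          ⟪T ((φ (dist w z) : ℂ) • ev hψ w a), ev hψ' z' a'⟫_ℂ) (g := g)]
      refine integral_congr_ae (Filter.Eventually.of_forall fun w => ?_)
      have e1 : dist (g • w) z = dist w z' := by rw [← dist_smul g w z', g2]
      have e2 := k1 g w z
      rw [g1, k2 w z] at e2
      simp only [map_smul, inner_smul_left, inner_smul_right, Complex.conj_ofReal, e1, e2]) F'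
  rw [sub_apply, sub_eq_zero] at this
  rw [← hB, ← hB, ← ContinuousLinearMap.comp_apply T B, ← ContinuousLinearMap.adjoint_inner_right,
    this, ContinuousLinearMap.comp_apply, ContinuousLinearMap.adjoint_inner_right]

end

end Pool.Agent.Lib.MP_99bfa4_al.SS
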