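import Pool.Agent.Lib.MP_99bfa4_al.SS.Avg

open MeasureTheory UpperHalfPlane
open scoped ContDiff Topology MatrixGroups InnerProductSpace ComplexConjugate

namespace Pool.Agent.Lib.MP_99bfa4_al.SS

/-- The point x + exp(s) i. -/
noncomputable def vir_pt (x s : ℝ) : ℍ := ⟨⟨x, Real.exp s⟩, Real.exp_pos s⟩

lemma vir_pt_re (x s : ℝ) : (vir_pt x s).re = x := rfl

lemma vir_pt_im (x s : ℝ) : (vir_pt x s).im = Real.exp s := rfl

lemma vir_ext {z w : ℍ} (h1 : z.re = w.re) (h2 : z.im = w.im) : z = w :=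
  UpperHalfPlane.ext (Complex.ext h1 h2)

lemma vir_pt_self (h : ℍ) : vir_pt h.re (Real.log h.im) = h :=
  vir_ext rfl (Real.exp_log h.im_pos)

lemma vir_pt_zero : vir_pt 0 0 = I :=
  vir_ext (by simp [vir_pt_re]) (by simp [vir_pt_im])

lemma vir_pt_vadd (b : ℝ) : b +ᵥ I = vir_pt b 0 :=
  vir_ext (by simp [vir_pt_re]) (by simp [vir_pt_im])

lemma vir_smul_re (z w : ℍ) : (z.toSL2R • w).re = z.re + z.im * w.re := by
  have := congrArg Complex.re (coe_toSL2R_smul z w)
  simpa using this

lemma vir_smul_im (z w : ℍ) : (z.toSL2R • w).im = z.im * w.im := by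
  have := congrArg Complex.im (coe_toSL2R_smul z w)
  simpa using this

lemma vir_pt_smul (x s x' s' : ℝ) :
    (vir_pt x s).toSL2R • vir_pt x' s' = vir_pt (x + Real.exp s * x') (s + s') :=
  vir_ext (by rw [vir_smul_re]; rfl) (by rw [vir_smul_im, vir_pt_im, vir_pt_im, vir_pt_im,
    Real.exp_add])

lemma vir_pt_cont {T : Type*} [TopologicalSpace T] {x s : T → ℝ} (hx : Continuous x)
    (hs : Continuous s) : Continuous fun t => vir_pt (x t) (s t) := by
  rw [isEmbedding_coe.continuous_iff]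
  have : (UpperHalfPlane.coe ∘ fun t => vir_pt (x t) (s t)) =
      fun t => (x t : ℂ) + (Real.exp (s t) : ℂ) * Complex.I := by
    funext t
    apply Complex.ext
    · simp [vir_pt, -Complex.ofReal_exp]
    · simp [vir_pt, -Complex.ofReal_exp]
  rw [this]
  fun_prop

lemma vir_cont_log : Continuous fun h : ℍ => Real.log h.im :=
  continuous_im.log fun h => h.im_pos.ne'

lemma vir_J_re (h : ℍ) : (J • h).re = -h.re := by
  have := congrArg Complex.re (coe_J_smul h)
  simpa using this

lemma vir_J_im (h : ℍ) : (J • h).im = h.im := by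
  have := congrArg Complex.im (coe_J_smul h)
  simpa using this

lemma vir_J_dist (h : ℍ) : dist (J • h) I = dist h I := by
  have : Real.cosh (dist (J • h) I) = Real.cosh (dist h I) := by
    rw [cosh_dist', cosh_dist', vir_J_re, vir_J_im]
    simp
  have h1 := Real.cosh_le_cosh.1 this.le
  have h2 := Real.cosh_le_cosh.1 this.ge
  rw [abs_of_nonneg dist_nonneg, abs_of_nonneg dist_nonneg] at h1 h2
  exact le_antisymm h1 h2

lemma vir_sq (v : ℝ) : HasDerivAt (fun v : ℝ => max v 0 ^ 2) (2 * max v 0) v := by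
  rcases lt_trichotomy v 0 with hv | rfl | hv
  · rw [max_eq_right hv.le, mul_zero]
    refine (hasDerivAt_const v (0 : ℝ)).congr_of_eventuallyEq ?_
    filter_upwards [Iio_mem_nhds hv] with w hw
    rw [max_eq_right (le_of_lt hw)]
    norm_num
  · rw [max_self, mul_zero, hasDerivAt_iff_isLittleO_nhds_zero]
    have h1 : (fun h : ℝ => max (0 + h) 0 ^ 2 - max 0 0 ^ 2 - h • (0 : ℝ)) =O[𝓝 0]
        fun h : ℝ => h ^ 2 := by
      refine Asymptotics.IsBigO.of_bound 1 (Filter.Eventually.of_forall fun h => ?_)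
      rcases le_total h 0 with hh | hh
      · simp [max_eq_right hh, sq_nonneg]
      · simp [max_eq_left hh]
    exact h1.trans_isLittleO (Asymptotics.isLittleO_pow_id (by norm_num))
  · rw [max_eq_left hv.le]
    have := hasDerivAt_pow 2 v
    simp only [Nat.cast_ofNat, Nat.add_one_sub_one, pow_one] at this
    refine this.congr_of_eventuallyEq ?_
    filter_upwards [Ioi_mem_nhds hv] with w hw
    rw [max_eq_left (le_of_lt hw)]

lemma vir_le_cosh (r : ℝ) : r ≤ Real.cosh r := by
  rcases le_total r 0 with h | h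
  · exact h.trans (Real.cosh_pos r).le
  · exact (Real.self_le_sinh_iff.2 h).trans (Real.sinh_lt_cosh r).le

/-- Localisation at the point I. -/
lemma vir_loc {Q : ℍ → ℂ} (hQ : Continuous Q)
    (h0 : ∀ φ, Bump φ → ∫ h : ℍ, (φ (dist h I) : ℂ) * ((h.re : ℂ) ^ 2 * Q h) = 0) : Q I = 0 := by
  by_contra hc
  have hpos : 0 < (conj (Q I) * Q I).re := by
    rw [Complex.conj_mul', ← Complex.ofReal_pow, Complex.ofReal_re]
    exact pow_pos (norm_pos_iff.2 hc) 2
  have hq : Continuous fun h => (conj (Q I) * Q h).re := by fun_prop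
  obtain ⟨ρ, hρ, hb⟩ := Metric.eventually_nhds_iff.1
    (hq.continuousAt.eventually (lt_mem_nhds hpos))
  have hφ : Bump fun r => max (ρ - r) 0 :=
    ⟨by fun_prop, ρ, fun r hr => max_eq_right (by linarith)⟩
  have hI := hφ.integrable I (H := ℂ) (E := fun h => (h.re : ℂ) ^ 2 * Q h)
    (((Complex.continuous_ofReal.comp continuous_re).pow 2).mul hQ)
  have hz := h0 _ hφ
  have h1 : ∫ h : ℍ, max (ρ - dist h I) 0 * (h.re ^ 2 * (conj (Q I) * Q h).re) = 0 := by
    have h2 := (Complex.reCLM.integral_comp_comm (hI.const_mul (conj (Q I))))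
    rw [integral_const_mul] at h2
    simp only [smul_eq_mul] at h2
    rw [hz, mul_zero, map_zero] at h2
    refine Eq.trans ?_ h2
    refine integral_congr_ae (Filter.Eventually.of_forall fun h => ?_)
    have : conj (Q I) * (((max (ρ - dist h I) 0 : ℝ) : ℂ) * ((h.re : ℂ) ^ 2 * Q h)) =
        ((max (ρ - dist h I) 0 * h.re ^ 2 : ℝ) : ℂ) * (conj (Q I) * Q h) := by
      push_cast; ring
    simp only [Complex.reCLM_apply]
    rw [this, Complex.re_ofReal_mul]
    ring
  have hc1 : Continuous fun b : ℝ => dist (vir_pt b 0) I :=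
    (vir_pt_cont continuous_id continuous_const).dist continuous_const
  have hev : ∀ᶠ b : ℝ in 𝓝 0, dist (vir_pt b 0) I < ρ := by
    refine hc1.continuousAt.eventually (gt_mem_nhds ?_)
    beta_reduce
    rw [vir_pt_zero, dist_self]
    exact hρ
  obtain ⟨b, hb1, hb2⟩ := ((hev.filter_mono (nhdsWithin_le_nhds (s := {0}ᶜ))).and
    self_mem_nhdsWithin).exists
  have h3 : 0 < ∫ h : ℍ, max (ρ - dist h I) 0 * (h.re ^ 2 * (conj (Q I) * Q h).re) := by
    refine Continuous.integral_pos_of_hasCompactSupport_nonneg_nonzero (x := vir_pt b 0) ?_ ?_ ?_ ?_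
    · exact (by fun_prop : Continuous fun h : ℍ => max (ρ - dist h I) 0).mul
        ((continuous_re.pow 2).mul hq)
    · exact (hφ.hasCompactSupport I).mul_right
    · intro h
      rcases lt_or_ge (dist h I) ρ with hh | hh
      · exact mul_nonneg (le_max_right _ _) (mul_nonneg (sq_nonneg _) (hb hh).le)
      · simp only [Pi.zero_apply]
        rw [max_eq_right (by linarith), zero_mul]
    · refine mul_ne_zero ?_ (mul_ne_zero (pow_ne_zero 2 hb2) (hb hb1).ne')
      rw [max_eq_left (by linarith)]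
      linarith
  exact h3.ne' h1

section

set_option linter.unusedSectionVars false

variable {H : Type*} [NormedAddCommGroup H] [InnerProductSpace ℂ H] [CompleteSpace H]
  {R : ℍ → H →L[ℂ] H}

lemma vir_mul (hR : RRep R) (x s x' s' : ℝ) (v : H) :
    R (vir_pt x s) (R (vir_pt x' s') v) = R (vir_pt (x + Real.exp s * x') (s + s')) v := by
  rw [← vir_pt_smul, hR.mul]
  rfl

lemma vir_one (hR : RRep R) (v : H) : R (vir_pt 0 0) v = v := by
  rw [vir_pt_zero, hR.one]
  rfl

lemma vir_unit (hR : RRep R) (b : ℝ) (v w : H) :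
    ⟪R (vir_pt b 0) v, R (vir_pt b 0) w⟫_ℂ = ⟪v, w⟫_ℂ := by
  rw [hR.inner, vir_pt_im]
  simp

lemma vir_cont (hR : RRep R) {T : Type*} [TopologicalSpace T] {p : T → ℍ} {v : T → H}
    (hp : Continuous p) (hv : Continuous v) : Continuous fun t => R (p t) (v t) := by
  refine continuous_iff_continuousAt.2 fun t0 => ?_
  have h1 : Continuous fun t => R (p t) (v t0) := (hR.cont (v t0)).comp hp
  have h2 : Filter.Tendsto (fun t => R (p t) (v t - v t0)) (𝓝 t0) (𝓝 0) := by
    rw [tendsto_zero_iff_norm_tendsto_zero]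
    simp only [hR.norm]
    have h3 : Continuous fun t => √(p t).im * ‖v t - v t0‖ :=
      (continuous_im.comp hp).sqrt.mul (hv.sub continuous_const).norm
    simpa using h3.tendsto t0
  have h4 := h2.add (h1.tendsto t0)
  simp only [map_sub, sub_add_cancel, zero_add] at h4
  exact h4

/-- Step 1: the orbit under the translations is differentiable at the origin. -/
lemma vir_diff_avg (hR : RRep R) (f : H) (c : ℝ) (hc : 1 ≤ c) :
    DifferentiableAt ℝ (fun b : ℝ => R (vir_pt b 0)
      (avg R (fun r => max (c - Real.cosh r) 0 ^ 2) f)) 0 := by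
  have hφ : Bump fun r => max (c - Real.cosh r) 0 ^ 2 :=
    ⟨by fun_prop, c, fun r hr => by
      beta_reduce
      rw [max_eq_right (by linarith [vir_le_cosh r])]; norm_num⟩
  have hθ : Bump fun r => max (3 * c + 1 - Real.cosh r) 0 :=
    ⟨by fun_prop, 3 * c + 1, fun r hr => max_eq_right (by linarith [vir_le_cosh r])⟩
  set u : ℝ → ℍ → ℝ := fun b h => ((h.re - b) ^ 2 + h.im ^ 2 + 1) / (2 * h.im) with hu
  have hcosh : ∀ b h, Real.cosh (dist h (vir_pt b 0)) = u b h := by
    intro b h
    rw [cosh_dist', vir_pt_re, vir_pt_im, Real.exp_zero]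
    simp [hu]
  have hform : ∀ b : ℝ, R (vir_pt b 0) (avg R (fun r => max (c - Real.cosh r) 0 ^ 2) f) =
      ∫ h : ℍ, ((max (c - u b h) 0 ^ 2 : ℝ) : ℂ) • R h f := by
    intro b
    unfold avg
    rw [← (R (vir_pt b 0)).integral_comp_comm (hφ.integrable I (hR.cont f)),
      ← integral_smul_eq_self (μ := (volume : Measure ℍ))
        (fun h : ℍ => ((max (c - u b h) 0 ^ 2 : ℝ) : ℂ) • R h f) (g := (vir_pt b 0).toSL2R)]
    refine integral_congr_ae (Filter.Eventually.of_forall fun h => ?_)
    have hd : dist ((vir_pt b 0).toSL2R • h) (vir_pt b 0) = dist h I := by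
      have := dist_smul (vir_pt b 0).toSL2R h I
      rwa [toSL2R_smul_I] at this
    simp only [map_smul]
    rw [← hcosh, hd, hR.mul]
    rfl
  simp only [hform]
  have hucont : ∀ b, Continuous (u b) := fun b => by
    have : u b = fun h => Real.cosh (dist h (vir_pt b 0)) := funext fun h => (hcosh b h).symm
    rw [this]
    fun_prop
  have key := hasDerivAt_integral_of_dominated_loc_of_deriv_le (μ := (volume : Measure ℍ))
    (F := fun (b : ℝ) (h : ℍ) => ((max (c - u b h) 0 ^ 2 : ℝ) : ℂ) • R h f)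
    (F' := fun (b : ℝ) (h : ℍ) => ((2 * max (c - u b h) 0 * ((h.re - b) / h.im) : ℝ) : ℂ) • R h f)
    (x₀ := 0) (s := Metric.ball 0 1) (Metric.ball_mem_nhds 0 one_pos)
    (bound := fun h => 8 * c ^ 3 * ‖((max (3 * c + 1 - Real.cosh (dist h I)) 0 : ℝ) : ℂ) • R h f‖)
    ?_ ?_ ?_ ?_ ?_ ?_
  · exact key.2.differentiableAt
  · refine Filter.Eventually.of_forall fun b => Continuous.aestronglyMeasurable ?_
    exact (Complex.continuous_ofReal.comp
      (((continuous_const.sub (hucont b)).max continuous_const).pow 2)).smul (hR.cont f)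
  · have := hφ.integrable (vir_pt 0 0) (hR.cont f)
    simpa only [hcosh] using this
  · refine Continuous.aestronglyMeasurable ?_
    refine (Complex.continuous_ofReal.comp ?_).smul (hR.cont f)
    exact (continuous_const.mul ((continuous_const.sub (hucont 0)).max continuous_const)).mul
      ((continuous_re.sub continuous_const).div continuous_im fun h => h.im_pos.ne')
  · refine Filter.Eventually.of_forall fun h b hb => ?_
    rw [norm_smul, norm_smul, ← mul_assoc]
    refine mul_le_mul_of_nonneg_right ?_ (norm_nonneg _)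
    rw [Complex.norm_real, Complex.norm_real]
    rcases le_total c (u b h) with hh | hh
    · rw [max_eq_right (by linarith)]
      simp only [mul_zero, zero_mul, norm_zero]
      positivity
    · have hy := h.im_pos
      have hb' : b ^ 2 ≤ 1 := by
        have := mem_ball_zero_iff.1 hb
        rw [Real.norm_eq_abs] at this
        nlinarith [abs_nonneg b, sq_abs b]
      have h1 : (h.re - b) ^ 2 + h.im ^ 2 + 1 ≤ c * (2 * h.im) := by
        rwa [hu, div_le_iff₀ (by positivity)] at hh
      have hu0 : 0 ≤ u b h := by rw [← hcosh]; exact (Real.cosh_pos _).le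
      have h2 : Real.cosh (dist h I) ≤ 3 * c := by
        rw [← vir_pt_zero, hcosh, hu]
        simp only
        rw [div_le_iff₀ (by positivity)]
        nlinarith [sq_nonneg (h.re - 2 * b), sq_nonneg h.im, sq_nonneg (h.re - b)]
      have h3 : h.im ≤ 2 * c := by nlinarith [sq_nonneg (h.re - b)]
      have h4 : |h.re - b| ≤ 2 * c := by
        rw [abs_le]
        constructor <;> nlinarith [sq_nonneg h.im]
      have h5 : 1 / h.im ≤ 2 * c := by
        rw [div_le_iff₀ hy]
        nlinarith [sq_nonneg h.im, sq_nonneg (h.re - b)]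
      rw [max_eq_left (by linarith), max_eq_left (by linarith), Real.norm_eq_abs, Real.norm_eq_abs,
        abs_mul, abs_div, abs_of_pos hy, abs_of_nonneg (by linarith : 0 ≤ 2 * (c - u b h)),
        abs_of_nonneg (by linarith : 0 ≤ 3 * c + 1 - Real.cosh (dist h I)), div_eq_mul_one_div]
      have h6 : |h.re - b| * (1 / h.im) ≤ 2 * c * (2 * c) :=
        mul_le_mul h4 h5 (by positivity) (by linarith)
      have h7 : 2 * (c - u b h) * (|h.re - b| * (1 / h.im)) ≤ 2 * c * (2 * c * (2 * c)) :=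
        mul_le_mul (by linarith) h6 (by positivity) (by linarith)
      have h8 : 0 ≤ c ^ 3 := by positivity
      nlinarith
  · exact (hθ.integrable I (hR.cont f)).norm.const_mul _
  · refine Filter.Eventually.of_forall fun h b _ => ?_
    have h1 : HasDerivAt (fun b : ℝ => c - u b h) ((h.re - b) / h.im) b := by
      have h2 : HasDerivAt (fun b : ℝ => h.re - b) (-1) b := (hasDerivAt_id b).const_sub h.re
      have h3 := ((((h2.pow 2).add_const (h.im ^ 2)).add_const 1).div_const (2 * h.im)).const_sub c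
      refine h3.congr_deriv ?_
      have := h.im_pos.ne'
      simp only [Nat.cast_ofNat, Nat.add_one_sub_one, pow_one]
      field_simp
    exact ((vir_sq _).comp b h1).ofReal_comp.smul_const (R h f)

/-- The second difference of the matrix coefficient. -/
lemma vir_second (hR : RRep R) (f : H) {η : ℝ → H} (hη : ∀ b, R (vir_pt b 0) f - f = (b : ℂ) • η b)
    (b σ : ℝ) :
    2 * ⟪R (vir_pt 0 σ) f, f⟫_ℂ - ⟪R (vir_pt b σ) f, f⟫_ℂ - ⟪R (vir_pt (-b) σ) f, f⟫_ℂ =
      (b : ℂ) ^ 2 * ((Real.exp (-σ) : ℂ) * ⟪R (vir_pt 0 σ) (η (Real.exp (-σ) * b)), η b⟫_ℂ) := by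
  have h1 : R (vir_pt b σ) f - R (vir_pt 0 σ) f =
      ((Real.exp (-σ) * b : ℝ) : ℂ) • R (vir_pt 0 σ) (η (Real.exp (-σ) * b)) := by
    rw [← map_smul, ← hη, map_sub, vir_mul hR, ← mul_assoc, ← Real.exp_add]
    simp
  have h2 : ⟪R (vir_pt b σ) f, R (vir_pt b 0) f⟫_ℂ = ⟪R (vir_pt 0 σ) f, f⟫_ℂ := by
    rw [← vir_unit hR b (R (vir_pt 0 σ) f) f, vir_mul hR]
    simp
  have h3 : ⟪R (vir_pt 0 σ) f, R (vir_pt b 0) f⟫_ℂ = ⟪R (vir_pt (-b) σ) f, f⟫_ℂ := by
    rw [← vir_unit hR (-b), vir_mul hR, vir_mul hR]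
    simp [vir_one hR]
  have h4 : ⟪R (vir_pt b σ) f - R (vir_pt 0 σ) f, R (vir_pt b 0) f - f⟫_ℂ =
      2 * ⟪R (vir_pt 0 σ) f, f⟫_ℂ - ⟪R (vir_pt b σ) f, f⟫_ℂ - ⟪R (vir_pt (-b) σ) f, f⟫_ℂ := by
    rw [inner_sub_left, inner_sub_right, inner_sub_right, h2, h3]
    ring
  rw [← h4, h1, hη, inner_smul_left, inner_smul_right, Complex.conj_ofReal]
  push_cast
  ring

/-- The mean value identity for the matrix coefficient. -/
lemma vir_mean (hR : RRep R)
    (hsa : ∀ φ, Bump φ → ∀ f f', ⟪avg R φ f, f'⟫_ℂ = ⟪f, avg R φ f'⟫_ℂ)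
    (f : H) (hf : ∀ φ, Bump φ → ∃ χ : ℂ, avg R φ f = χ • f) (hf0 : f ≠ 0) (t : ℝ)
    {φ : ℝ → ℝ} (hφ : Bump φ) :
    ∫ h : ℍ, (φ (dist h I) : ℂ) * ⟪R (vir_pt (Real.exp t * h.re) (t + Real.log h.im)) f, f⟫_ℂ =
      ∫ h : ℍ, (φ (dist h I) : ℂ) * ⟪R (vir_pt h.re (t + Real.log h.im)) f, f⟫_ℂ := by
  obtain ⟨χ, hχ⟩ := hf φ hφ
  have hreal : conj χ = χ := by
    have h1 := hsa φ hφ f f
    rw [hχ, inner_smul_left, inner_smul_right] at h1
    exact mul_right_cancel₀ (inner_self_ne_zero.2 hf0) h1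
  have hint : ∀ E : ℍ → H, Continuous E → ⟪∫ h : ℍ, (φ (dist h I) : ℂ) • E h, f⟫_ℂ =
      ∫ h : ℍ, (φ (dist h I) : ℂ) * ⟪E h, f⟫_ℂ := by
    intro E hE
    rw [← inner_conj_symm, ← integral_inner (hφ.integrable I hE), ← integral_conj]
    refine integral_congr_ae (Filter.Eventually.of_forall fun h => ?_)
    simp only [inner_smul_right, map_mul, Complex.conj_ofReal, inner_conj_symm]
  have hl : ∀ h : ℍ, R (vir_pt (Real.exp t * h.re) (t + Real.log h.im)) f =
      R (vir_pt 0 t) (R h f) := by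
    intro h
    conv_rhs => rw [← vir_pt_self h]
    rw [vir_mul hR, zero_add]
  have hr : ∀ h : ℍ, R (vir_pt h.re (t + Real.log h.im)) f = R h (R (vir_pt 0 t) f) := by
    intro h
    conv_rhs => rw [← vir_pt_self h]
    rw [vir_mul hR, mul_zero, add_zero, add_comm]
  simp only [hl, hr]
  rw [← hint (fun h => R (vir_pt 0 t) (R h f)) ((R (vir_pt 0 t)).continuous.comp (hR.cont f)),
    ← hint _ (hR.cont _)]
  have e1 : ∫ h : ℍ, (φ (dist h I) : ℂ) • R (vir_pt 0 t) (R h f) =
      R (vir_pt 0 t) (avg R φ f) := by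
    unfold avg
    rw [← (R (vir_pt 0 t)).integral_comp_comm (hφ.integrable I (hR.cont f))]
    simp only [map_smul]
  rw [e1, hχ, map_smul, inner_smul_left, hreal]
  have e2 := hsa φ hφ (R (vir_pt 0 t) f) f
  rw [hχ, inner_smul_right] at e2
  exact e2.symm

end

/-- A joint eigenvector of the radial averages is fixed by the translations. -/
theorem virial {H : Type*} [NormedAddCommGroup H] [InnerProductSpace ℂ H] [CompleteSpace H]
    {R : ℍ → H →L[ℂ] H} (hR : RRep R)
    (hsa : ∀ φ, Bump φ → ∀ f f', ⟪avg R φ f, f'⟫_ℂ = ⟪f, avg R φ f'⟫_ℂ)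
    (f : H) (hf : ∀ φ, Bump φ → ∃ χ : ℂ, avg R φ f = χ • f) (b : ℝ) : R (b +ᵥ I) f = f := by
  rcases eq_or_ne f 0 with rfl | hf0
  · exact map_zero _
  have hd : DifferentiableAt ℝ (fun b : ℝ => R (vir_pt b 0) f) 0 := by
    obtain ⟨ρ, hρ, hne⟩ := hR.avg_ne_zero hf0
    have hc : 1 < Real.cosh ρ := Real.one_lt_cosh.2 hρ.ne'
    have hφ : Bump fun r => max (Real.cosh ρ - Real.cosh r) 0 ^ 2 :=
      ⟨by fun_prop, Real.cosh ρ, fun r hr => by
        beta_reduce
        rw [max_eq_right (by linarith [vir_le_cosh r])]; norm_num⟩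
    have h1 := hne _ hφ (fun r => sq_nonneg _)
      (by rw [Real.cosh_zero, max_eq_left (by linarith)]; exact pow_pos (by linarith) 2)
      (fun r hr => by
        have : Real.cosh ρ ≤ Real.cosh r := Real.cosh_le_cosh.2 (by
          rw [abs_of_pos hρ, abs_of_pos (hρ.trans_le hr)]; exact hr)
        rw [max_eq_right (by linarith)]; norm_num)
    obtain ⟨χ, hχ⟩ := hf _ hφ
    have hχ0 : χ ≠ 0 := by
      rintro rfl
      exact h1 (by rw [hχ, zero_smul])
    have h2 := (vir_diff_avg hR f _ hc.le).const_smul χ⁻¹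
    rw [hχ] at h2
    have h3 : (χ⁻¹ • fun b : ℝ => R (vir_pt b 0) (χ • f)) = fun b : ℝ => R (vir_pt b 0) f := by
      funext b
      simp only [Pi.smul_apply, map_smul, smul_smul, inv_mul_cancel₀ hχ0, one_smul]
    rwa [h3] at h2
  have hN : Continuous fun b : ℝ => R (vir_pt b 0) f :=
    (hR.cont f).comp (vir_pt_cont continuous_id continuous_const)
  set η : ℝ → H := dslope (fun b : ℝ => R (vir_pt b 0) f) 0 with hηd
  have hη : ∀ b, R (vir_pt b 0) f - f = (b : ℂ) • η b := by
    intro b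
    have := sub_smul_dslope (fun b : ℝ => R (vir_pt b 0) f) 0 b
    rw [sub_zero, vir_one hR] at this
    rw [← this, Complex.coe_smul]
  have hηc : Continuous η := by
    refine continuous_iff_continuousAt.2 fun b => ?_
    rcases eq_or_ne b 0 with rfl | hb
    · exact continuousAt_dslope_same.2 hd
    · exact (continuousAt_dslope_of_ne hb).2 hN.continuousAt
  have hA : ∀ t : ℝ, t ≠ 0 → ⟪R (vir_pt 0 t) (η 0), η 0⟫_ℂ = 0 := by
    intro t ht
    have hσ : Continuous fun h : ℍ => t + Real.log h.im := continuous_const.add vir_cont_log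
    have hG : ∀ {x : ℍ → ℝ}, Continuous x → Continuous fun h : ℍ =>
        (Real.exp (-(t + Real.log h.im)) : ℂ) * ⟪R (vir_pt 0 (t + Real.log h.im))
          (η (Real.exp (-(t + Real.log h.im)) * x h)), η (x h)⟫_ℂ := by
      intro x hx
      refine (Complex.continuous_ofReal.comp (Real.continuous_exp.comp hσ.neg)).mul ?_
      exact (vir_cont hR (vir_pt_cont continuous_const hσ)
        (hηc.comp ((Real.continuous_exp.comp hσ.neg).mul hx))).inner (hηc.comp hx)
    have hm : ∀ {x : ℍ → ℝ}, Continuous x → ∀ {φ}, Bump φ → Integrable fun h : ℍ =>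
        (φ (dist h I) : ℂ) * ⟪R (vir_pt (x h) (t + Real.log h.im)) f, f⟫_ℂ := by
      intro x hx φ hφ
      exact hφ.integrable I (H := ℂ)
        (((hR.cont f).comp (vir_pt_cont hx hσ)).inner continuous_const)
    have hQ := vir_loc ((hG continuous_re).sub (continuous_const (y := (Real.exp t : ℂ) ^ 2).mul
      (hG (x := fun h => Real.exp t * h.re) (continuous_const.mul continuous_re)))) ?_
    · simp only [Pi.sub_apply, Pi.mul_apply, I_im, Real.log_one, add_zero, I_re, mul_zero] at hQ
      have h1 : (Real.exp (-t) : ℂ) ≠ 0 := Complex.ofReal_ne_zero.2 (Real.exp_pos _).ne'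
      have h2 : (1 : ℂ) - (Real.exp t : ℂ) ^ 2 ≠ 0 := by
        intro h
        have h3 : Real.exp t ^ 2 = 1 := by
          have : ((Real.exp t ^ 2 : ℝ) : ℂ) = 1 := by
            rw [Complex.ofReal_pow]; linear_combination -h
          exact_mod_cast this
        rw [← Real.exp_nat_mul, Real.exp_eq_one_iff] at h3
        exact ht (by push_cast at h3; linarith)
      have h4 : (1 - (Real.exp t : ℂ) ^ 2) * ((Real.exp (-t) : ℂ) *
          ⟪R (vir_pt 0 t) (η 0), η 0⟫_ℂ) = 0 := by linear_combination hQ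
      exact (mul_eq_zero.1 ((mul_eq_zero.1 h4).resolve_left h2)).resolve_left h1
    · intro φ hφ
      have e1 := vir_mean hR hsa f hf hf0 t hφ
      have e2 := e1
      rw [← integral_smul_eq_self (μ := (volume : Measure ℍ)) _ (g := J),
        ← integral_smul_eq_self (μ := (volume : Measure ℍ))
          (fun h : ℍ => (φ (dist h I) : ℂ) * ⟪R (vir_pt h.re (t + Real.log h.im)) f, f⟫_ℂ)
          (g := J)] at e2
      simp only [vir_J_re, vir_J_im, vir_J_dist, mul_neg] at e2
      have i1 := hm (x := fun h => Real.exp t * h.re) (continuous_const.mul continuous_re) hφ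
      have i2 := hm continuous_re hφ
      have i3 := hm (x := fun h => -(Real.exp t * h.re))
        (continuous_const.mul continuous_re).neg hφ
      have i4 := hm (x := fun h => -h.re) continuous_re.neg hφ
      have e3 := integral_add (i1.sub i2) (i3.sub i4)
      simp only [Pi.sub_apply] at e3
      rw [integral_sub i1 i2, integral_sub i3 i4, e1, e2, sub_self, sub_self, add_zero] at e3
      refine Eq.trans ?_ e3
      refine integral_congr_ae (Filter.Eventually.of_forall fun h => ?_)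
      have s1 := vir_second hR f hη h.re (t + Real.log h.im)
      have s2 := vir_second hR f hη (Real.exp t * h.re) (t + Real.log h.im)
      rw [Complex.ofReal_mul] at s2
      simp only [Pi.sub_apply, Pi.mul_apply]
      linear_combination (φ (dist h I) : ℂ) * (s2 - s1)
  have hξ : η 0 = 0 := by
    have h1 : Continuous fun t : ℝ => ⟪R (vir_pt 0 t) (η 0), η 0⟫_ℂ :=
      ((hR.cont _).comp (vir_pt_cont continuous_const continuous_id)).inner continuous_const
    have h2 := congrFun (h1.ext_on (dense_compl_singleton 0) continuous_const hA) 0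
    rwa [vir_one hR, inner_self_eq_zero] at h2
  have h0 : HasDerivAt (fun b : ℝ => R (vir_pt b 0) f) 0 0 := by
    have := hd.hasDerivAt
    rwa [← dslope_same, ← hηd, hξ] at this
  have hall : ∀ a : ℝ, HasDerivAt (fun b : ℝ => R (vir_pt b 0) f) 0 a := by
    intro a
    have h1 : HasDerivAt (fun b : ℝ => R (vir_pt (b - a) 0) f) 0 a := by
      have h2 : HasDerivAt (fun b : ℝ => R (vir_pt b 0) f) 0 (a - a) := by rwa [sub_self]
      exact h2.comp_sub_const a a
    have h3 := ((R (vir_pt a 0)).restrictScalars ℝ).hasFDerivAt.comp_hasDerivAt a h1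
    rw [map_zero] at h3
    have h4 : (((R (vir_pt a 0)).restrictScalars ℝ) ∘ fun b : ℝ => R (vir_pt (b - a) 0) f) =
        fun b : ℝ => R (vir_pt b 0) f := by
      funext b
      simp [vir_mul hR]
    rwa [h4] at h3
  have h5 := is_const_of_deriv_eq_zero (fun a => (hall a).differentiableAt)
    (fun a => (hall a).deriv) b 0
  rw [vir_pt_vadd, h5, vir_one hR]

end Pool.Agent.Lib.MP_99bfa4_al.SS
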