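import Pool.Agent.Lib.MP_99bfa4_al.SS.Comm
import Pool.Agent.Lib.MP_99bfa4_al.SS.Virial

open MeasureTheory UpperHalfPlane
open scoped ContDiff Topology MatrixGroups InnerProductSpace ComplexConjugate

namespace Pool.Agent.Lib.MP_99bfa4_al.SS

universe u

/-- Schur's lemma for self-adjoint operators. -/
theorem disc_schur {Γ : Type*} [Group Γ] {V : Type u} [NormedAddCommGroup V]
    [InnerProductSpace ℂ V] [CompleteSpace V] [Nontrivial V] (π : Γ →* (V ≃ₗᵢ[ℂ] V))
    (hirr : ∀ W : Submodule ℂ V, IsClosed (W : Set V) → (∀ g, ∀ v ∈ W, π g v ∈ W) → W = ⊥ ∨ W = ⊤)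
    (U : V →L[ℂ] V) (hsa : star U = U) (hU : ∀ g v, U (π g v) = π g (U v)) :
    ∃ c : ℂ, ∀ v, U v = c • v := by
  let ρ : Γ → (V →L[ℂ] V) := fun g => (π g).toContinuousLinearEquiv
  have c1 (g : Γ) : Commute U (ρ g) := ContinuousLinearMap.ext fun v => hU g v
  have c2 (g : Γ) : Commute (star U) (ρ g) := by rw [hsa]; exact c1 g
  have hn : IsStarNormal U := ⟨by rw [hsa]⟩
  have ker_bot (f : ℂ → ℂ) (hf : cfc f U ≠ 0) : ∀ v, cfc f U v = 0 → v = 0 := by
    rcases hirr (cfc f U).ker (cfc f U).isClosed_ker (fun g v hv => by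
      have h1 := congrArg (fun T : V →L[ℂ] V => T v) ((c1 g).cfc (c2 g) f).eq
      simp only [mul_apply_eq_comp] at h1
      have hv' : cfc f U v = 0 := hv
      change cfc f U (ρ g v) = 0
      rw [h1, hv', map_zero]) with h | h
    · intro v hv
      have : v ∈ (cfc f U).ker := hv
      rw [h] at this
      exact this
    · exfalso
      apply hf
      ext v
      have : v ∈ (cfc f U).ker := by rw [h]; trivial
      exact this
  have ne_zero (f : ℂ → ℂ) (hf : Continuous f) (a : ℂ) (ha : a ∈ spectrum ℂ U) (hfa : f a ≠ 0) :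
      cfc f U ≠ 0 := by
    intro h
    have h1 : f a ∈ spectrum ℂ (cfc f U) := by
      rw [cfc_map_spectrum f U hn hf.continuousOn]
      exact ⟨a, ha, rfl⟩
    rw [h, spectrum.zero_eq] at h1
    exact hfa h1
  have hsub : (spectrum ℂ U).Subsingleton := by
    intro a ha b hb
    by_contra hab
    set r : ℝ := dist a b / 2 with hr
    have hr0 : 0 < r := by
      have := dist_pos.2 hab
      positivity
    let f : ℂ → ℂ := fun w => ((max 0 (r - dist w a) : ℝ) : ℂ)
    let g : ℂ → ℂ := fun w => ((max 0 (r - dist w b) : ℝ) : ℂ)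
    have hf : Continuous f := by fun_prop
    have hg : Continuous g := by fun_prop
    have hfa : f a ≠ 0 := by simp [f, hr0.le, hr0.ne']
    have hgb : g b ≠ 0 := by simp [g, hr0.le, hr0.ne']
    have hfg : ∀ w, f w * g w = 0 := by
      intro w
      have h1 := dist_triangle_left a b w
      by_cases h2 : r ≤ dist w a
      · have : max 0 (r - dist w a) = 0 := max_eq_left (by linarith)
        simp [f, this]
      · have : max 0 (r - dist w b) = 0 := max_eq_left (by linarith)
        simp [g, this]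
    have h1 : cfc f U * cfc g U = 0 := by
      rw [← cfc_mul f g U hf.continuousOn hg.continuousOn]
      simp [hfg]
    apply ne_zero g hg b hb hgb
    ext v
    apply ker_bot f (ne_zero f hf a ha hfa)
    have := congrArg (fun T : V →L[ℂ] V => T v) h1
    simpa using this
  obtain ⟨c, hc⟩ := spectrum.nonempty U
  have hUc : U = algebraMap ℂ (V →L[ℂ] V) c := by
    rw [← cfc_id ℂ U hn, ← cfc_const c U hn]
    exact cfc_congr fun w hw => hsub hw hc
  refine ⟨c, fun v => ?_⟩
  rw [hUc]
  simp [Algebra.algebraMap_eq_smul_one]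

theorem disc_empty : ¬ DiscNonempty.{u} G mu := by
  rintro ⟨V, _, _, _, π, ⟨-, _, hirr⟩, T, hT0, hT⟩
  obtain ⟨R, hR, hae, hfix⟩ := exists_R
  have hT1 : ∀ g v, T (π g v) = Lop g (T v) := fun g v =>
    Lp.ext ((hT g v).trans (Lop_ae g (T v)).symm)
  have hT2 : ∀ g F, T.adjoint (Lop g F) = π g (T.adjoint F) := by
    intro g F
    refine ext_inner_left ℂ fun v => ?_
    obtain ⟨w, rfl⟩ := (π g).surjective v
    rw [T.adjoint_inner_right, hT1, (Lop g).inner_map_map, (π g).inner_map_map,
      T.adjoint_inner_right]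
  have hsa : ∀ φ, Bump φ → ∀ f f', ⟪avg R φ f, f'⟫_ℂ = ⟪f, avg R φ f'⟫_ℂ :=
    fun φ hφ f f' => avg_comm hR hae hφ (ContinuousLinearMap.id ℂ H2) (fun _ _ => rfl) f f'
  obtain ⟨c, hc⟩ := disc_schur π hirr (T.adjoint ∘L T)
    (by rw [ContinuousLinearMap.star_eq_adjoint, ContinuousLinearMap.adjoint_comp,
      ContinuousLinearMap.adjoint_adjoint])
    (fun g v => by simp only [ContinuousLinearMap.comp_apply, hT1, hT2])
  obtain ⟨v, hv⟩ : ∃ v, T v ≠ 0 := by
    by_contra h
    push Not at h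
    exact hT0 (ContinuousLinearMap.ext h)
  have hc0 : c ≠ 0 := by
    rintro rfl
    have h1 := T.adjoint_inner_right v (T v)
    have h2 : T.adjoint (T v) = 0 := by simpa using hc v
    rw [h2, inner_zero_right] at h1
    exact hv (inner_self_eq_zero.1 h1.symm)
  refine hv (hfix _ (virial hR hsa (T v) fun φ hφ => ?_))
  obtain ⟨B, hB⟩ := hR.exists_avg hφ
  have hBs : B.adjoint = B := by
    symm
    rw [ContinuousLinearMap.eq_adjoint_iff]
    intro f f'
    rw [hB, hB, hsa φ hφ]
  obtain ⟨d, hd⟩ := disc_schur π hirr (T.adjoint ∘L B ∘L T)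
    (by rw [ContinuousLinearMap.star_eq_adjoint, ContinuousLinearMap.adjoint_comp,
      ContinuousLinearMap.adjoint_comp, ContinuousLinearMap.adjoint_adjoint, hBs,
      ContinuousLinearMap.comp_assoc])
    (fun g v => by
      simp only [ContinuousLinearMap.comp_apply, hT1, hB, avg_Lop hR hae hφ, hT2])
  have h3 : T (T.adjoint (avg R φ (T v))) = avg R φ (T (T.adjoint (T v))) := by
    refine ext_inner_right ℂ fun F' => ?_
    have h4 := avg_comm hR hae hφ (T ∘L T.adjoint)
      (fun g F => by simp only [ContinuousLinearMap.comp_apply, hT2, hT1]) (T v) F'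
    rw [hsa φ hφ]
    exact h4
  have h5 : T.adjoint (avg R φ (T v)) = d • v := by rw [← hB]; exact hd v
  have h6 : T.adjoint (T v) = c • v := hc v
  rw [h5, h6, map_smul, map_smul, ← hB, map_smul] at h3
  refine ⟨c⁻¹ * d, ?_⟩
  rw [← hB, mul_smul, h3, smul_smul, inv_mul_cancel₀ hc0, one_smul]

end Pool.Agent.Lib.MP_99bfa4_al.SS
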