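import Pool.Agent.Lib.MP_99bfa4_al.SS.Hol

open MeasureTheory UpperHalfPlane
open scoped ContDiff Topology MatrixGroups InnerProductSpace ComplexConjugate

namespace Pool.Agent.Lib.MP_99bfa4_al.SS

/-- Differential operators lower the order of vanishing by a bounded amount. -/
lemma eig_order {A : Type} [CommRing A] [Algebra ℂ A] {D : Module.End ℂ A}
    (hD : D ∈ Algebra.adjoin ℂ ({D : Module.End ℂ A | ∃ a : A, ∀ f, D f = a * f} ∪
      {D | ∀ f f', D (f * f') = f * D f' + f' * D f})) :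
    ∃ n : ℕ, ∀ (u : A) (j : ℕ) (f : A), u ^ j ∣ D (u ^ (n + j) * f) := by
  induction hD using Algebra.adjoin_induction with
  | mem D hD =>
    rcases hD with ⟨a, ha⟩ | hD
    · refine ⟨0, fun u j f => ?_⟩
      rw [ha, zero_add]
      exact Dvd.dvd.mul_left (Dvd.intro _ rfl) a
    · refine ⟨1, fun u j f => ?_⟩
      induction j with
      | zero => simp
      | succ j ih =>
        have h1 : u ^ (1 + (j + 1)) * f = u * (u ^ (1 + j) * f) := by ring
        rw [h1, hD]
        obtain ⟨g, hg⟩ := ih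
        rw [hg]
        exact ⟨g + f * D u, by ring⟩
  | algebraMap r =>
    refine ⟨0, fun u j f => ?_⟩
    rw [Module.algebraMap_end_apply, zero_add, ← mul_smul_comm]
    exact Dvd.intro _ rfl
  | add D₁ D₂ _ _ h₁ h₂ =>
    obtain ⟨n₁, h₁⟩ := h₁
    obtain ⟨n₂, h₂⟩ := h₂
    refine ⟨n₁ + n₂, fun u j f => ?_⟩
    rw [LinearMap.add_apply]
    refine dvd_add ?_ ?_
    · have : u ^ (n₁ + n₂ + j) * f = u ^ (n₁ + j) * (u ^ n₂ * f) := by ring
      rw [this]
      exact h₁ u j _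
    · have : u ^ (n₁ + n₂ + j) * f = u ^ (n₂ + j) * (u ^ n₁ * f) := by ring
      rw [this]
      exact h₂ u j _
  | mul D₁ D₂ _ _ h₁ h₂ =>
    obtain ⟨n₁, h₁⟩ := h₁
    obtain ⟨n₂, h₂⟩ := h₂
    refine ⟨n₂ + n₁, fun u j f => ?_⟩
    obtain ⟨g, hg⟩ := h₂ u (n₁ + j) f
    rw [Module.End.mul_apply, add_assoc, hg]
    exact h₁ u j g

lemma eig_w_mem {v : ℂ × ℂ} (hv : v ∈ Om) : be v / al v ∈ Metric.ball (0 : ℂ) 1 := by
  rw [mem_ball_zero_iff, norm_div, div_lt_one (norm_pos_iff.2 (al_ne hv))]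
  exact norm_be_lt hv

lemma eig_an_w : AnalyticOnNhd ℂ (fun v => be v / al v) Om := fun v hv =>
  (an_be v).div (an_al v) (al_ne hv)

/-- The disc coordinate. -/
noncomputable def eigW : Smooth := lift _ eig_an_w

lemma eig_an (k : ℕ) {F : ℂ → ℂ} (hF : DifferentiableOn ℂ F (Metric.ball 0 1)) :
    AnalyticOnNhd ℂ (fun v => F (be v / al v) * (al v ^ k)⁻¹) Om := fun v hv =>
  (AnalyticAt.comp (f := fun v => be v / al v)
    (hF.analyticOnNhd Metric.isOpen_ball _ (eig_w_mem hv)) (eig_an_w v hv)).mul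
    ((hol_al k).an v hv)

lemma eig_dslope {F : ℂ → ℂ} (hF : DifferentiableOn ℂ F (Metric.ball 0 1)) :
    DifferentiableOn ℂ (dslope F 0) (Metric.ball 0 1) :=
  (Complex.differentiableOn_dslope (Metric.ball_mem_nhds 0 one_pos)).2 hF

lemma eig_split (k : ℕ) {F : ℂ → ℂ} (hF : DifferentiableOn ℂ F (Metric.ball 0 1)) :
    lift _ (eig_an k hF) = F 0 • psi k + eigW * lift _ (eig_an k (eig_dslope hF)) := by
  refine Subtype.ext (funext fun x => ?_)
  have h := sub_smul_dslope F 0 (be (pq x.2) / al (pq x.2))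
  change F (be (pq x.2) / al (pq x.2)) * (al (pq x.2) ^ k)⁻¹ =
    F 0 * (al (pq x.2) ^ k)⁻¹ + be (pq x.2) / al (pq x.2) *
      (dslope F 0 (be (pq x.2) / al (pq x.2)) * (al (pq x.2) ^ k)⁻¹)
  rw [sub_zero, smul_eq_mul] at h
  linear_combination (-(al (pq x.2) ^ k)⁻¹) * h

lemma eig_rot (θ : ℝ) (y : S) :
    al (pq ((rot θ)⁻¹ * y * rot θ)) = al (pq y) ∧
      be (pq ((rot θ)⁻¹ * y * rot θ)) = Complex.exp (θ * Complex.I) ^ 2 * be (pq y) := by
  have h1 : ((Real.cos θ : ℝ) : ℂ) ^ 2 + ((Real.sin θ : ℝ) : ℂ) ^ 2 = 1 := by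
    exact_mod_cast Real.cos_sq_add_sin_sq θ
  have h2 : Complex.exp (θ * Complex.I) = (Real.cos θ : ℝ) + (Real.sin θ : ℝ) * Complex.I := by
    rw [Complex.exp_mul_I, Complex.ofReal_cos, Complex.ofReal_sin]
  have h3 := Complex.I_sq
  have h4 : (rot θ)⁻¹ 0 0 = Real.cos θ ∧ (rot θ)⁻¹ 0 1 = Real.sin θ ∧
      (rot θ)⁻¹ 1 0 = -Real.sin θ ∧ (rot θ)⁻¹ 1 1 = Real.cos θ := by
    obtain ⟨a, b, c, d⟩ := S_inv (rot θ)
    rw [a, b, c, d]
    simp [rot]
  rw [pq_mul_rot, al_smul, be_smul, pq_mul, h4.1, h4.2.1, h4.2.2.1, h4.2.2.2, h2]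
  simp only [al, be, Complex.ofReal_neg]
  generalize ((Real.cos θ : ℝ) : ℂ) = c at *
  generalize ((Real.sin θ : ℝ) : ℂ) = s at *
  constructor
  · rw [← mul_div_assoc]
    congr 1
    linear_combination ((pq y).1 + Complex.I * (pq y).2) * h1 +
      (-s ^ 2 * (pq y).1 + s * c * (pq y).2 - s ^ 2 * Complex.I * (pq y).2 +
        s ^ 2 * Complex.I * (pq y).2) * h3
  · rw [← mul_div_assoc, ← mul_div_assoc]
    congr 1
    linear_combination ((c + s * Complex.I) * s * (pq y).2) * h3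

lemma eig_mono (k j : ℕ) (hj : 1 ≤ j) (D : DX) : (D.val (eigW ^ j * psi k)).val (I, 1) = 0 := by
  set θ : ℝ := Real.pi / (2 * j) with hθ
  have hj' : (j : ℂ) ≠ 0 := by exact_mod_cast (by omega : j ≠ 0)
  have h1 : (Complex.exp (θ * Complex.I) ^ 2) ^ j = -1 := by
    rw [← pow_mul, ← Complex.exp_nat_mul, ← Complex.exp_pi_mul_I, hθ]
    congr 1
    push_cast
    field_simp
  have h2 : tau (1, rot θ, rot θ) (eigW ^ j * psi k) = (-1 : ℂ) • (eigW ^ j * psi k) := by
    refine Subtype.ext (funext fun x => ?_)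
    obtain ⟨h3, h4⟩ := eig_rot θ x.2
    have h5 : (((1, rot θ, rot θ) : G)⁻¹ • x).2 = (rot θ)⁻¹ * x.2 * rot θ := by
      simp [smul_snd]
    rw [tau_val]
    simp only [Subalgebra.coe_mul, Subalgebra.coe_pow, Subalgebra.coe_smul, Pi.mul_apply,
      Pi.pow_apply, Pi.smul_apply, eigW, psi, lift_val, h5, h3, h4, smul_eq_mul]
    rw [mul_div_assoc, mul_pow, h1]
    ring
  have h6 := congrArg (fun f : Smooth => f.val (I, 1))
    (DX_tau D (1, rot θ, rot θ) (eigW ^ j * psi k))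
  have h7 : ((1, rot θ, rot θ) : G)⁻¹ • ((I, 1) : X) = (I, 1) := by
    simp [smul_def]
  simp only [h2, map_smul, tau_val, h7, Subalgebra.coe_smul, Pi.smul_apply, smul_eq_mul] at h6
  linear_combination (-1 / 2 : ℂ) * h6

lemma eig_high (k : ℕ) (D : DX) (j : ℕ) (hj : 1 ≤ j) {F : ℂ → ℂ}
    (hF : DifferentiableOn ℂ F (Metric.ball 0 1)) :
    (D.val (eigW ^ j * lift _ (eig_an k hF))).val (I, 1) = 0 := by
  obtain ⟨n, hn⟩ := eig_order D.property.1
  have key : ∀ m j : ℕ, n + 1 ≤ j + m → 1 ≤ j → ∀ {F : ℂ → ℂ}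
      (hF : DifferentiableOn ℂ F (Metric.ball 0 1)),
      (D.val (eigW ^ j * lift _ (eig_an k hF))).val (I, 1) = 0 := by
    intro m
    induction m with
    | zero =>
      intro j h1 _ F hF
      obtain ⟨i, rfl⟩ : ∃ i, j = n + 1 + i := ⟨j - (n + 1), by omega⟩
      obtain ⟨g, hg⟩ := hn eigW 1 (eigW ^ i * lift _ (eig_an k hF))
      rw [pow_add, mul_assoc, hg]
      simp [eigW, lift_val, be_base]
    | succ m ih =>
      intro j h1 h2 F hF
      rw [eig_split k hF, mul_add, mul_smul_comm, ← mul_assoc, ← pow_succ, map_add, map_smul]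
      simp only [Subalgebra.coe_add, Subalgebra.coe_smul, Pi.add_apply, Pi.smul_apply]
      rw [eig_mono k j h2 D, ih (j + 1) (by omega) (by omega) (eig_dslope hF), smul_zero,
        add_zero]
  exact key (n + 1) j (by omega) hj hF

lemma eig_base {k : ℕ} {Φ : ℂ × ℂ → ℂ} (h : Hol k Φ) (D : DX) :
    (D.val (lift Φ h.an)).val (I, 1) = (D.val (psi k)).val (I, 1) * Φ (pq 1) := by
  have hmem : ∀ w ∈ Metric.ball (0 : ℂ) 1, (Complex.I * (1 + w), 1 - w) ∈ Om := by
    intro w hw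
    rw [mem_ball_zero_iff] at hw
    have h1 : Complex.normSq w < 1 := by
      rw [Complex.normSq_eq_norm_sq]
      nlinarith [norm_nonneg w]
    change 0 < (Complex.I * (1 + w) * conj (1 - w)).im
    simp [Complex.normSq_apply] at h1 ⊢
    linarith
  have hF : DifferentiableOn ℂ (fun w => Φ (Complex.I * (1 + w), 1 - w)) (Metric.ball 0 1) := by
    intro w hw
    refine (DifferentiableAt.comp (f := fun w : ℂ => (Complex.I * (1 + w), 1 - w)) w
      (h.an _ (hmem w hw)).differentiableAt (by fun_prop)).differentiableWithinAt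
  have h1 : lift Φ h.an = lift _ (eig_an k hF) := by
    refine Subtype.ext (funext fun x => ?_)
    have h2 := al_ne (pq_mem x.2)
    have h3 := h.hom _ h2 _ (hmem _ (eig_w_mem (pq_mem x.2)))
    have h4 : al (pq x.2) • (Complex.I * (1 + be (pq x.2) / al (pq x.2)),
        1 - be (pq x.2) / al (pq x.2)) = pq x.2 := by
      ext
      · simp only [Prod.smul_fst, smul_eq_mul]
        field_simp
        simp only [al, be]
        field_simp
        ring
      · simp only [Prod.smul_snd, smul_eq_mul]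
        field_simp
        simp only [al, be]
        field_simp
        ring
    rw [h4] at h3
    rw [lift_val, lift_val, h3, mul_comm]
  have h5 := eig_high k D 1 le_rfl (eig_dslope hF)
  rw [pow_one] at h5
  rw [h1, eig_split k hF, map_add, map_smul]
  simp only [Subalgebra.coe_add, Subalgebra.coe_smul, Pi.add_apply, Pi.smul_apply]
  rw [h5, pq_one]
  simp [mul_comm]

lemma eig_translate {k : ℕ} {Φ : ℂ × ℂ → ℂ} (h : Hol k Φ) (g : S) :
    Hol k fun v => Φ (g 0 0 * v.1 + g 0 1 * v.2, g 1 0 * v.1 + g 1 1 * v.2) := by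
  have hmem : ∀ v ∈ Om, ((g 0 0 * v.1 + g 0 1 * v.2, g 1 0 * v.1 + g 1 1 * v.2) : ℂ × ℂ) ∈ Om := by
    intro v hv
    have h1 : 0 < (v.1 * conj v.2).im := hv
    have h2 := S_det g
    change 0 < ((g 0 0 * v.1 + g 0 1 * v.2 : ℂ) * conj (g 1 0 * v.1 + g 1 1 * v.2 : ℂ)).im
    have h3 : ((g 0 0 * v.1 + g 0 1 * v.2 : ℂ) * conj (g 1 0 * v.1 + g 1 1 * v.2 : ℂ)).im =
        (g 0 0 * g 1 1 - g 0 1 * g 1 0) * (v.1 * conj v.2).im := by
      simp
      ring
    rw [h3, h2, one_mul]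
    exact h1
  constructor
  · intro v hv
    refine AnalyticAt.comp (f := fun v : ℂ × ℂ =>
      ((g 0 0 * v.1 + g 0 1 * v.2, g 1 0 * v.1 + g 1 1 * v.2) : ℂ × ℂ)) (h.an _ (hmem v hv)) ?_
    exact ((analyticAt_const.mul analyticAt_fst).add (analyticAt_const.mul analyticAt_snd)).prod
      ((analyticAt_const.mul analyticAt_fst).add (analyticAt_const.mul analyticAt_snd))
  · intro c hc v hv
    rw [← h.hom c hc _ (hmem v hv)]
    congr 1
    ext <;> simp <;> ring

/-- Invariant differential operators act on holomorphic functions of weight k by a scalar. -/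
theorem eigen {k : ℕ} {Φ : ℂ × ℂ → ℂ} (h : Hol k Φ) (D : DX) :
    D.val (lift Φ h.an) = (D.val (psi k)).val (I, 1) • lift Φ h.an := by
  refine Subtype.ext (funext fun x => ?_)
  have h1 := eig_base (eig_translate h x.2) D
  have h2 : lift _ (eig_translate h x.2).an = tau (x.1.toSL2R, x.2, 1)⁻¹ (lift Φ h.an) := by
    refine Subtype.ext (funext fun y => ?_)
    rw [tau_val, inv_inv, lift_val, lift_val, smul_snd]
    simp only [inv_one, mul_one, pq_mul]
  have h3 : ((x.1.toSL2R, x.2, 1) : G) • ((I, 1) : X) = x := by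
    simp [smul_def]
  rw [h2, DX_tau, tau_val, inv_inv, h3, ← pq_mul, mul_one] at h1
  rw [h1]
  rfl

/-- The character of weight k. -/
theorem exists_char (k : ℕ) :
    ∃ l : DX →ₐ[ℂ] ℂ, ∀ D : DX, l D = (D.val (psi k)).val (I, 1) := by
  have h : ∀ D : DX, D.val (psi k) = (D.val (psi k)).val (I, 1) • psi k := eigen (hol_al k)
  refine ⟨{ toFun := fun D => (D.val (psi k)).val (I, 1)
            map_one' := psi_base k
            map_mul' := fun D D' => ?_
            map_zero' := rfl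
            map_add' := fun _ _ => rfl
            commutes' := fun c => ?_ }, fun _ => rfl⟩
  · change (D.val (D'.val (psi k))).val (I, 1) = _
    conv_lhs => rw [h D', map_smul]
    simp [mul_comm]
  · change c • (psi k).val (I, 1) = c
    rw [psi_base, smul_eq_mul, mul_one]

end Pool.Agent.Lib.MP_99bfa4_al.SS
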