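import Pool.Agent.Lib.MP_99bfa4_al.SS.Rop

open MeasureTheory UpperHalfPlane
open scoped ContDiff Topology MatrixGroups InnerProductSpace ComplexConjugate

namespace Pool.Agent.Lib.MP_99bfa4_al.SS

lemma ev_inner (F F' : H2) {φ : X → ℂ} (h : F' =ᵐ[mu] φ) :
    Integrable (fun x => conj (F x) * φ x) mu ∧ ⟪F, F'⟫_ℂ = ∫ x, conj (F x) * φ x ∂mu ∧
      ∫ x, ‖conj (F x) * φ x‖ ∂mu ≤ ‖F‖ * ‖F'‖ := by
  have h1 : (fun x => ⟪F x, F' x⟫_ℂ) =ᵐ[mu] fun x => conj (F x) * φ x := by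
    filter_upwards [h] with x hx
    rw [hx, RCLike.inner_apply']
  refine ⟨(L2.integrable_inner (𝕜 := ℂ) F F').congr h1,
    (L2.inner_def F F').trans (integral_congr_ae h1), ?_⟩
  have h2 : ∫ x, ‖conj (F x) * φ x‖ ∂mu =
      ⟪(Lp.memLp F).norm.toLp _, (Lp.memLp F').norm.toLp _⟫_ℝ := by
    rw [L2.inner_def]
    refine integral_congr_ae ?_
    filter_upwards [h, (Lp.memLp F).norm.coeFn_toLp, (Lp.memLp F').norm.coeFn_toLp] with x h3 h4 h5
    rw [h4, h5, h3]
    simp [mul_comm]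
  rw [h2]
  refine (real_inner_le_norm _ _).trans (le_of_eq ?_)
  rw [Lp.norm_toLp, Lp.norm_toLp, eLpNorm_norm, eLpNorm_norm, Lp.norm_def, Lp.norm_def]

/-- Bochner integrals in L^2 against pointwise integrals. -/
theorem inner_integral {E : ℍ → H2} (hE : Integrable E) {Φ : ℍ → X → ℂ}
    (hΦ : Measurable fun p : ℍ × X => Φ p.1 p.2) (h : ∀ w, E w =ᵐ[mu] Φ w) (F : H2) :
    Integrable (fun x => conj (F x) * ∫ w, Φ w x) mu ∧
      ⟪F, ∫ w, E w⟫_ℂ = ∫ x, conj (F x) * ∫ w, Φ w x ∂volume ∂mu := by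
  have hm : AEStronglyMeasurable (fun p : ℍ × X => conj (F p.2) * Φ p.1 p.2)
      ((volume : Measure ℍ).prod mu) :=
    ((Complex.continuous_conj.measurable.comp
      ((Lp.stronglyMeasurable F).measurable.comp measurable_snd)).mul hΦ).aestronglyMeasurable
  have hi : Integrable (fun p : ℍ × X => conj (F p.2) * Φ p.1 p.2)
      ((volume : Measure ℍ).prod mu) := by
    rw [integrable_prod_iff hm]
    refine ⟨Filter.Eventually.of_forall fun w => (ev_inner F (E w) (h w)).1, ?_⟩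
    refine (hE.norm.const_mul ‖F‖).mono' hm.norm.integral_prod_right'
      (Filter.Eventually.of_forall fun w => ?_)
    rw [Real.norm_of_nonneg (integral_nonneg fun _ => norm_nonneg _)]
    exact (ev_inner F (E w) (h w)).2.2
  have h1 : ∀ x, ∫ w, conj (F x) * Φ w x = conj (F x) * ∫ w, Φ w x := fun x =>
    integral_const_mul _ _
  refine ⟨?_, ?_⟩
  · simpa only [h1] using hi.integral_prod_right
  · rw [← integral_inner hE]
    simp only [fun w => (ev_inner F (E w) (h w)).2.1]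
    rw [integral_integral_swap (f := fun w x => conj (F x) * Φ w x) hi]
    simp only [h1]

lemma memLp_ev {ψ : ℝ → ℝ} (hψ : Bump ψ) (w : ℍ) (a : Lp ℂ 2 nu) :
    MemLp (fun x : X => (ψ (dist x.1 w) : ℂ) * a x.2) 2 mu := by
  have hc : Continuous fun z : ℍ => ψ (dist z w) := hψ.1.comp (by fun_prop)
  have hm : Measurable fun x : X => (ψ (dist x.1 w) : ℂ) * a x.2 :=
    (Complex.continuous_ofReal.comp (hc.comp continuous_fst)).measurable.mul
      ((Lp.stronglyMeasurable a).measurable.comp measurable_snd)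
  rw [memLp_two_iff_integrable_sq_norm hm.aestronglyMeasurable]
  have h1 : Integrable fun z : ℍ => ψ (dist z w) * ψ (dist z w) :=
    (hc.mul hc).integrable_of_hasCompactSupport (hψ.hasCompactSupport w).mul_right
  have h2 := (memLp_two_iff_integrable_sq_norm (Lp.aestronglyMeasurable a)).1 (Lp.memLp a)
  refine (h1.mul_prod h2).congr (Filter.Eventually.of_forall fun x => ?_)
  simp only [norm_mul, Complex.norm_real, Real.norm_eq_abs, mul_pow, sq_abs]
  ring

/-- Radial function times a function of the second variable. -/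
noncomputable def ev {ψ : ℝ → ℝ} (hψ : Bump ψ) (w : ℍ) (a : Lp ℂ 2 nu) : H2 :=
  (memLp_ev hψ w a).toLp _

lemma ev_ae {ψ : ℝ → ℝ} (hψ : Bump ψ) (w : ℍ) (a : Lp ℂ 2 nu) :
    ev hψ w a =ᵐ[mu] fun x : X => (ψ (dist x.1 w) : ℂ) * a x.2 :=
  (memLp_ev hψ w a).coeFn_toLp

lemma Lop_ev {ψ : ℝ → ℝ} (hψ : Bump ψ) (w : ℍ) (a : Lp ℂ 2 nu) (g : S) :
    Lop (g, 1, 1) (ev hψ w a) = ev hψ (g • w) a := by
  refine Lp.ext ((Lop_ae _ _).trans (Filter.EventuallyEq.trans ?_ (ev_ae hψ _ a).symm))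
  filter_upwards [(measurePreserving_smul ((g, 1, 1) : G)⁻¹ mu).quasiMeasurePreserving.ae_eq_comp
    (ev_ae hψ w a)] with x hx
  refine hx.trans ?_
  have h1 : dist (g⁻¹ • x.1) w = dist x.1 (g • w) := by
    rw [← dist_smul g, smul_inv_smul]
  simp [smul_def, h1]

lemma continuous_ev {ψ : ℝ → ℝ} (hψ : Bump ψ) (a : Lp ℂ 2 nu) :
    Continuous fun w => ev hψ w a := by
  have h : ∀ w : ℍ, ev hψ w a = Lop (w.toSL2R, 1, 1) (ev hψ I a) := fun w => by
    rw [Lop_ev, toSL2R_smul_I]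
  exact ((continuous_Lop (ev hψ I a)).comp
    (f := fun w : ℍ => ((w.toSL2R, 1, 1) : G))
    (continuous_toSL2R.prodMk continuous_const)).congr fun w => (h w).symm

lemma ev_shift (z : ℍ) (f : ℍ → ℂ) : ∫ h : ℍ, f (z.toSL2R • h) = ∫ w, f w :=
  integral_smul_eq_self f

/-- The vectors ev are total. -/
theorem ev_total (F : H2)
    (h : ∀ (ψ : ℝ → ℝ) (hψ : Bump ψ) (w : ℍ) (a : Lp ℂ 2 nu), ⟪ev hψ w a, F⟫_ℂ = 0) : F = 0 := by
  by_contra h0
  obtain ⟨R, hR, hae, -⟩ := exists_R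
  obtain ⟨ρ, hρ, h1⟩ := hR.avg_ne_zero h0
  set ψ : ℝ → ℝ := fun r => max 0 (ρ - r) with hψd
  have hz : ∀ r, ρ ≤ r → ψ r = 0 := fun r hr => max_eq_left (by linarith)
  have hψ : Bump ψ := ⟨by fun_prop, ρ, hz⟩
  refine h1 ψ hψ (fun r => le_max_left _ _) (by simp [hψd, hρ]) hz ?_
  set F' := avg R ψ F with hF'
  have hm : Measurable fun p : ℍ × X => (ψ (dist p.1 I) : ℂ) * F (rt p.1 p.2) :=
    (Complex.continuous_ofReal.comp (hψ.1.comp (by fun_prop))).measurable.mul
      ((Lp.stronglyMeasurable F).measurable.comp continuous_rt.measurable)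
  obtain ⟨h2, h3⟩ := inner_integral (hψ.integrable I (hR.cont F))
    (Φ := fun h x => (ψ (dist h I) : ℂ) * F (rt h x)) hm (fun w => by
      filter_upwards [Lp.coeFn_smul (ψ (dist w I) : ℂ) (R w F), hae w F] with x h4 h5
      rw [h4, Pi.smul_apply, h5, smul_eq_mul]) F'
  have h4 : ∀ x : X, ∫ w : ℍ, (ψ (dist w I) : ℂ) * F (rt w x) =
      ∫ w : ℍ, (ψ (dist w x.1) : ℂ) * F (w, x.2) := by
    intro x
    rw [← ev_shift x.1 fun w => (ψ (dist w x.1) : ℂ) * F (w, x.2)]
    refine integral_congr_ae (Filter.Eventually.of_forall fun w => ?_)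
    have h5 : dist (x.1.toSL2R • w) x.1 = dist w I := by
      conv_lhs => rw [← toSL2R_smul_I x.1]
      rw [toSL2R_smul_I, ← dist_smul x.1.toSL2R w I, toSL2R_smul_I]
    simp only [h5, rt]
  simp only [h4] at h2 h3
  rw [← inner_self_eq_zero (𝕜 := ℂ)]
  refine h3.trans ?_
  refine (integral_prod (μ := (volume : Measure ℍ)) (ν := nu) _ h2).trans
    (integral_eq_zero_of_ae ?_)
  have h5 := (memLp_two_iff_integrable_sq_norm (Lp.aestronglyMeasurable F')).1 (Lp.memLp F')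
  filter_upwards [Integrable.prod_right_ae (μ := (volume : Measure ℍ)) (ν := nu) h5] with z hz2
  have h6 : MemLp (fun y : S => F' (z, y)) 2 nu :=
    (memLp_two_iff_integrable_sq_norm ((Lp.stronglyMeasurable F').measurable.comp
      measurable_prodMk_left).aestronglyMeasurable).2 hz2
  have h7 := h ψ hψ z (h6.toLp _)
  have h8 : (fun x => ⟪ev hψ z (h6.toLp _) x, F x⟫_ℂ) =ᵐ[mu]
      fun x => conj (F' (z, x.2)) * ((ψ (dist x.1 z) : ℂ) * F x) := by
    filter_upwards [ev_ae hψ z (h6.toLp _),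
      (Measure.quasiMeasurePreserving_snd (μ := (volume : Measure ℍ)) (ν := nu)).ae_eq_comp
        h6.coeFn_toLp] with x h9 h10
    rw [h9, RCLike.inner_apply']
    simp only [Function.comp_apply] at h10
    rw [h10, map_mul, Complex.conj_ofReal]
    ring
  have h9 := (L2.integrable_inner (𝕜 := ℂ) (ev hψ z (h6.toLp _)) F).congr h8
  rw [L2.inner_def, integral_congr_ae h8] at h7
  have h10 := integral_prod_symm (μ := (volume : Measure ℍ)) (ν := nu) _ h9
  simp only [integral_const_mul] at h10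
  exact h10.symm.trans h7

end Pool.Agent.Lib.MP_99bfa4_al.SS
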