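import Pool.Agent.Lib.MP_99bfa4_al.SS.Hol

open MeasureTheory UpperHalfPlane
open scoped ContDiff Topology MatrixGroups InnerProductSpace ComplexConjugate

namespace Pool.Agent.Lib.MP_99bfa4_al.SS

/-- The square of the imaginary part, cut off outside a disc. -/
noncomputable def funG (R : ℝ) : ℍ → ENNReal :=
  {w : ℍ | ‖(w : ℂ)‖ ≤ R}.indicator fun w => ENNReal.ofReal (w.im ^ 2)

lemma fun_meas (R : ℝ) : MeasurableSet {w : ℍ | ‖(w : ℂ)‖ ≤ R} :=
  (isClosed_le continuous_coe.norm continuous_const).measurableSet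

lemma fun_measG (R : ℝ) : Measurable (funG R) :=
  (ENNReal.measurable_ofReal.comp (continuous_im.pow 2).measurable).indicator (fun_meas R)

lemma fun_vol (R : ℝ) : ∫⁻ w, funG R w < ⊤ := by
  have hc : Continuous fun z : ℍ => ((1 / NNReal.mk z.im z.im_pos.le : NNReal) ^ 2) := by
    refine .pow (.div₀ continuous_const ?_ ?_) _
    · exact continuous_im.subtype_mk _
    · exact fun x => NNReal.ne_iff.mp x.im_ne_zero
  rw [volume_def, lintegral_withDensity_eq_lintegral_mul _
    hc.measurable.coe_nnreal_ennreal (fun_measG R)]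
  refine lt_of_le_of_lt (lintegral_mono fun w => ?_) (lt_of_le_of_lt
    (lintegral_indicator_const_le {w : ℍ | ‖(w : ℂ)‖ ≤ R} 1) ?_)
  · by_cases hw : w ∈ {w : ℍ | ‖(w : ℂ)‖ ≤ R}
    · have h0 := w.im_ne_zero
      rw [Pi.mul_apply, funG, Set.indicator_of_mem hw, Set.indicator_of_mem hw,
        ← ENNReal.ofReal_coe_nnreal, ← ENNReal.ofReal_mul (NNReal.coe_nonneg _)]
      refine ENNReal.ofReal_le_one.2 (le_of_eq ?_)
      simp only [NNReal.coe_pow, NNReal.coe_div, NNReal.coe_one, NNReal.coe_mk]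
      field_simp
    · rw [Pi.mul_apply, funG, Set.indicator_of_notMem hw, mul_zero]
      exact zero_le
  · rw [one_mul, measurableEmbedding_coe.comap_apply]
    refine lt_of_le_of_lt (measure_mono ?_) (measure_closedBall_lt_top (x := (0 : ℂ)) (r := R))
    rintro _ ⟨w, hw, rfl⟩
    exact mem_closedBall_zero_iff.2 hw

lemma fun_near {T : ℝ} {z w : ℍ} (h : dist z w ≤ 1) :
    funG T z ≤ ENNReal.ofReal (Real.exp 1 ^ 2) * funG (T * Real.exp 1) w := by
  by_cases hz : z ∈ {w : ℍ | ‖(w : ℂ)‖ ≤ T}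
  · have h1 : ‖(z : ℂ)‖ ≤ T := hz
    have h2 : z.im ≤ T := ((le_abs_self _).trans (Complex.abs_im_le_norm _)).trans h1
    have h3 := dist_coe_le w z
    have h4 : Real.exp (dist w z) ≤ Real.exp 1 := Real.exp_le_exp.2 (dist_comm z w ▸ h)
    have h5 : 1 ≤ Real.exp (dist w z) := Real.one_le_exp dist_nonneg
    have h6 : ‖(w : ℂ)‖ ≤ ‖(z : ℂ)‖ + dist (w : ℂ) z := by
      rw [dist_eq_norm]
      exact norm_le_insert' _ _
    have h7 := z.im_pos
    have hw : w ∈ {w : ℍ | ‖(w : ℂ)‖ ≤ T * Real.exp 1} := by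
      change ‖(w : ℂ)‖ ≤ T * Real.exp 1
      nlinarith
    rw [funG, funG, Set.indicator_of_mem hz, Set.indicator_of_mem hw,
      ← ENNReal.ofReal_mul (sq_nonneg _), ← mul_pow]
    refine ENNReal.ofReal_le_ofReal (pow_le_pow_left₀ h7.le ?_ 2)
    rw [mul_comm]
    exact (im_le_im_mul_exp_dist z w).trans
      (mul_le_mul_of_nonneg_left (Real.exp_le_exp.2 h) w.im_pos.le)
  · rw [funG, Set.indicator_of_notMem hz]
    exact zero_le

lemma fun_group (T : ℝ) : ∫⁻ x : S, funG T (x • I) ∂nu < ⊤ := by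
  have hc : Continuous fun x : S => (x • I : ℍ) := continuous_id.smul continuous_const
  have hK : MeasurableSet {p : S × ℍ | dist (p.1 • I : ℍ) p.2 ≤ 1} :=
    (isClosed_le ((hc.comp continuous_fst).dist continuous_snd) continuous_const).measurableSet
  have h1 : ∀ x : S, volume {w : ℍ | dist (x • I : ℍ) w ≤ 1} = volume (Metric.closedBall I 1) :=
    fun x => by
      rw [← measure_preimage_smul volume x]
      congr 1
      ext w
      simp only [Set.mem_preimage, Set.mem_ofPred_eq, dist_smul, Metric.mem_closedBall']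
  have h2 : ∀ w : ℍ, nu {x : S | dist (x • I : ℍ) w ≤ 1} =
      nu ((fun x : S => (x • I : ℍ)) ⁻¹' Metric.closedBall I 1) := fun w => by
    rw [← measure_preimage_mul nu w.toSL2R]
    congr 1
    ext x
    have e := dist_smul w.toSL2R (x • I : ℍ) I
    rw [toSL2R_smul_I] at e
    simp only [Set.mem_preimage, Set.mem_ofPred_eq, mul_smul, e, Metric.mem_closedBall]
  have h3 : (volume : Measure ℍ) (Metric.closedBall I 1) ≠ 0 :=
    (Metric.measure_closedBall_pos volume I one_pos).ne'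
  have h4 : nu ((fun x : S => (x • I : ℍ)) ⁻¹' Metric.closedBall I 1) < ⊤ :=
    (isProperMap_smul_I.isCompact_preimage (isCompact_closedBall I 1)).measure_lt_top
  let K : S → ℍ → ENNReal := fun x w => {p : S × ℍ | dist (p.1 • I : ℍ) p.2 ≤ 1}.indicator
    (fun p => ENNReal.ofReal (Real.exp 1 ^ 2) * funG (T * Real.exp 1) p.2) (x, w)
  have h5 : (∫⁻ x : S, funG T (x • I) ∂nu) * volume (Metric.closedBall I 1) ≤
      ∫⁻ x : S, (∫⁻ w, K x w) ∂nu := by
    rw [← lintegral_mul_const _ ((fun_measG T).fun_comp hc.measurable)]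
    refine lintegral_mono fun x => ?_
    rw [← h1 x, ← lintegral_indicator_const
      (isClosed_le (continuous_const.dist continuous_id') continuous_const).measurableSet]
    refine lintegral_mono fun w => ?_
    by_cases hw : dist (x • I : ℍ) w ≤ 1
    · exact (Set.indicator_of_mem (s := {w : ℍ | dist (x • I : ℍ) w ≤ 1}) hw _).le.trans
        ((fun_near hw).trans (Set.indicator_of_mem (a := (x, w)) hw fun p : S × ℍ =>
          ENNReal.ofReal (Real.exp 1 ^ 2) * funG (T * Real.exp 1) p.2).ge)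
    · exact (Set.indicator_of_notMem (s := {w : ℍ | dist (x • I : ℍ) w ≤ 1}) hw _).le.trans zero_le
  have h6 : ∀ w, ∫⁻ x : S, K x w ∂nu ≤ ENNReal.ofReal (Real.exp 1 ^ 2) * funG (T * Real.exp 1) w *
      nu ((fun x : S => (x • I : ℍ)) ⁻¹' Metric.closedBall I 1) := fun w => by
    rw [← h2 w]
    exact lintegral_indicator_const_le {x : S | dist (x • I : ℍ) w ≤ 1} _
  rw [lintegral_lintegral_swap (f := K) ((((fun_measG _).comp measurable_snd).const_mul _).indicator
    hK).aemeasurable] at h5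
  have h7 := h5.trans (lintegral_mono h6)
  rw [lintegral_mul_const _ ((fun_measG _).const_mul _),
    lintegral_const_mul _ (fun_measG _)] at h7
  exact ENNReal.lt_top_of_mul_ne_top_left (h7.trans_lt (ENNReal.mul_lt_top
    (ENNReal.mul_lt_top ENNReal.ofReal_lt_top (fun_vol _)) h4)).ne h3

lemma fun_shell (u : ℝ) : MemLp (fun x : S => (x • I : ℍ).im) 2 (nu.restrict (shell u)) := by
  have hc : Continuous fun x : S => (x • I : ℍ).im :=
    continuous_im.comp (continuous_id.smul continuous_const)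
  refine (memLp_two_iff_integrable_sq hc.aestronglyMeasurable).2
    ⟨(hc.pow 2).aestronglyMeasurable, (hasFiniteIntegral_iff_ofReal
      (Filter.Eventually.of_forall fun x => sq_nonneg _)).2 ?_⟩
  refine lt_of_le_of_lt ?_ (fun_group (Real.exp (2 * u)))
  rw [← lintegral_indicator (measurableSet_shell u)]
  refine lintegral_mono fun x => ?_
  by_cases hx : x ∈ shell u
  · rw [Set.indicator_of_mem hx, funG, Set.indicator_of_mem (a := (x • I : ℍ)) hx.2]
  · rw [Set.indicator_of_notMem hx]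
    exact zero_le

/-- Functions bounded by the imaginary part are square integrable on the covering set. -/
theorem memLp_cover {u : ℝ} (hu : 0 < u) (f : X → ℂ) (hf : Continuous f) (M : ℝ)
    (hb : ∀ x : X, x.2 ∈ shell u → ‖f x‖ ≤ M * (x.2 • I : ℍ).im) :
    MemLp f 2 (mu.restrict (cover u)) := by
  have _ := hu
  have : IsFiniteMeasure ((volume : Measure ℍ).restrict (Metric.closedBall I 2)) :=
    isFiniteMeasure_restrict.2 (isCompact_closedBall I 2).measure_lt_top.ne
  have h := (fun_shell u).comp_snd ((volume : Measure ℍ).restrict (Metric.closedBall I 2))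
  rw [Measure.prod_restrict] at h
  refine h.of_le_mul (c := M) hf.aestronglyMeasurable ?_
  filter_upwards [ae_restrict_mem (measurableSet_cover u)] with x hx
  rw [Real.norm_of_nonneg (im_pos _).le]
  exact hb x hx.2

lemma fun_div_im (v : ℂ × ℂ) : (v.1 / v.2).im = (v.1 * conj v.2).im / Complex.normSq v.2 := by
  rw [Complex.div_im, Complex.mul_im, Complex.conj_im, Complex.conj_re]
  ring

lemma fun_ne {v : ℂ × ℂ} (hv : v ∈ Om) : v.2 ≠ 0 := fun h => by
  have h1 : 0 < (v.1 * conj v.2).im := hv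
  simp [h] at h1

lemma fun_pos {v : ℂ × ℂ} (hv : v ∈ Om) : 0 < (v.1 / v.2).im := by
  rw [fun_div_im]
  exact div_pos hv (Complex.normSq_pos.2 (fun_ne hv))

lemma fun_coe (x : S) : ((x • I : ℍ) : ℂ) = (pq x).1 / (pq x).2 := base_coe_smul x I

lemma fun_im (x : S) : (x • I : ℍ).im = (‖(pq x).2‖ ^ 2)⁻¹ := by
  rw [← coe_im, fun_coe, fun_div_im, pq_im, Complex.normSq_eq_norm_sq, one_div]

/-- A power of the quotient of the coordinates times a power of the second coordinate. -/
noncomputable def funP (s : ℂ) (k : ℕ) (v : ℂ × ℂ) : ℂ :=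
  Complex.exp (s * Complex.log (v.1 / v.2)) * (v.2 ^ k)⁻¹

lemma fun_hol (s : ℂ) (k : ℕ) : Hol k (funP s k) where
  an v hv := (analyticAt_const.mul ((analyticAt_fst.div analyticAt_snd (fun_ne hv)).clog
      (Or.inr (fun_pos hv).ne'))).cexp.mul ((analyticAt_snd.pow k).inv (pow_ne_zero k (fun_ne hv)))
  hom c hc v _ := by
    simp only [funP, Prod.smul_fst, Prod.smul_snd, smul_eq_mul, mul_div_mul_left _ _ hc, mul_pow,
      mul_inv]
    ring

lemma fun_rot (s : ℂ) (k : ℕ) (x : S) (θ : ℝ) :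
    funP s k (pq (x * (rot θ)⁻¹)) = Complex.exp (k * (θ * Complex.I)) * funP s k (pq x) := by
  rw [← rot_neg, pq_mul_rot, (fun_hol s k).hom _ (Complex.exp_ne_zero _) _ (pq_mem x),
    ← Complex.exp_nat_mul, ← Complex.exp_neg]
  congr 2
  push_cast
  ring

lemma fun_dia (s : ℂ) (k : ℕ) (x : S) (u : ℝ) :
    funP s k (pq (dia u * x)) = Complex.exp (s * (2 * u) + k * u) * funP s k (pq x) := by
  have h2 := fun_ne (pq_mem x)
  have h1 : (pq x).1 / (pq x).2 ≠ 0 := fun h => by simpa [h] using fun_pos (pq_mem x)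
  have e00 : dia u 0 0 = Real.exp u := rfl
  have e01 : dia u 0 1 = 0 := rfl
  have e10 : dia u 1 0 = 0 := rfl
  have e11 : dia u 1 1 = Real.exp (-u) := rfl
  have e : Real.exp u = Real.exp (2 * u) * Real.exp (-u) := by
    rw [← Real.exp_add]; congr 1; ring
  have h3 : ((Real.exp (-u) : ℝ) : ℂ) ≠ 0 := Complex.ofReal_ne_zero.2 (Real.exp_ne_zero _)
  have h4 : (Real.exp u : ℝ) * (pq x).1 / ((Real.exp (-u) : ℝ) * (pq x).2) =
      (Real.exp (2 * u) : ℝ) * ((pq x).1 / (pq x).2) := by
    rw [e, Complex.ofReal_mul]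
    field_simp
  rw [pq_mul, e00, e01, e10, e11]
  simp only [funP, Complex.ofReal_zero, zero_mul, add_zero, zero_add]
  rw [h4, Complex.log_ofReal_mul (Real.exp_pos _) h1, Real.log_exp, mul_add, Complex.exp_add,
    Complex.exp_add, mul_pow, mul_inv, Complex.ofReal_exp, ← Complex.exp_nat_mul,
    ← Complex.exp_neg]
  push_cast
  rw [mul_neg, neg_neg]
  ring

lemma fun_bound {u : ℝ} (σ : ℝ) (m : ℕ) {x : S} (hx : x ∈ shell u) :
    ‖funP (-((m + 1 : ℕ) : ℝ) + σ * Complex.I) (2 * (m + 1)) (pq x)‖ ≤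
      Real.exp (|σ| * Real.pi) * Real.exp (2 * u) ^ m * (x • I : ℍ).im := by
  have h1 : 0 ≤ Real.log ‖((x • I : ℍ) : ℂ)‖ := Real.log_nonneg hx.1
  have h2 : (x • I : ℍ).im ≤ Real.exp (2 * u) :=
    ((le_abs_self _).trans (Complex.abs_im_le_norm _)).trans hx.2
  have h3 := Complex.abs_arg_le_pi ((x • I : ℍ) : ℂ)
  have h4 := (x • I : ℍ).im_pos
  rw [funP, norm_mul, Complex.norm_exp, ← fun_coe, norm_inv, norm_pow, pow_mul, ← inv_pow,
    ← fun_im, pow_succ, mul_assoc]
  refine mul_le_mul (Real.exp_le_exp.2 ?_) (mul_le_mul_of_nonneg_right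
    (pow_le_pow_left₀ h4.le h2 m) h4.le) (by positivity) (Real.exp_pos _).le
  have h5 : -(σ * Complex.arg ((x • I : ℍ) : ℂ)) ≤ |σ| * Real.pi :=
    (neg_le_abs _).trans (abs_mul σ _ ▸ mul_le_mul_of_nonneg_left h3 (abs_nonneg σ))
  have h6 : 0 ≤ ((m + 1 : ℕ) : ℝ) * Real.log ‖((x • I : ℍ) : ℂ)‖ := by positivity
  simp only [Complex.mul_re, Complex.add_re, Complex.neg_re, Complex.ofReal_re, Complex.I_re,
    Complex.ofReal_im, Complex.I_im, Complex.add_im, Complex.neg_im, Complex.mul_im,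
    Complex.log_re, Complex.log_im]
  linarith

/-- The invariant eigenfunctions. -/
theorem exists_fun {u : ℝ} (hu : 0 < u) (θ : ℝ) (n : ℕ) :
    ∃ (Φ : ℂ × ℂ → ℂ) (h : Hol (12 * (n + 1)) Φ), (∀ x, (lift Φ h.an).val x ≠ 0) ∧
      (∀ γ ∈ Lat u θ, ∀ x, (lift Φ h.an).val (γ • x) = (lift Φ h.an).val x) ∧
      MemLp (lift Φ h.an).val 2 (mu.restrict (cover u)) := by
  have hk : 12 * (n + 1) = 2 * (6 * n + 5 + 1) := by ring
  have h0 : Complex.exp ((12 * (n + 1) : ℕ) * ((Real.pi / 6 : ℝ) * Complex.I)) = 1 := by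
    rw [← Complex.exp_nat_mul_two_pi_mul_I (n + 1)]
    congr 1
    push_cast
    ring
  refine ⟨funP (-((6 * n + 5 + 1 : ℕ) : ℝ) + (-(6 * (n + 1)) * θ / u : ℝ) * Complex.I) _,
    fun_hol _ _, fun x => mul_ne_zero (Complex.exp_ne_zero _)
      (inv_ne_zero (pow_ne_zero _ (fun_ne (pq_mem x.2)))), fun γ hγ => ?_, ?_⟩
  · induction hγ using Subgroup.closure_induction with
    | mem γ hγ =>
      intro x
      rw [lift_val, lift_val, smul_snd]
      rcases hγ with rfl | rfl | rfl
      · rw [ga, one_mul, fun_rot, h0, one_mul]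
      · rw [gb, one_mul, fun_rot, h0, one_mul]
      · have hu' : (u : ℂ) ≠ 0 := Complex.ofReal_ne_zero.2 hu.ne'
        rw [gz, fun_rot, fun_dia, ← mul_assoc, ← Complex.exp_add, ← one_mul (funP _ _ (pq x.2)),
          ← mul_assoc, mul_one, ← Complex.exp_zero]
        congr 2
        push_cast
        field_simp
        ring
    | one => intro x; rw [one_smul]
    | mul γ δ _ _ h h' => intro x; rw [mul_smul, h, h']
    | inv γ _ h => intro x; rw [← h, smul_inv_smul]
  · refine memLp_cover hu _ ?_ _ fun x hx => hk ▸ fun_bound _ _ hx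
    refine continuous_iff_continuousAt.2 fun x => ?_
    have hc : Continuous fun x : X => pq x.2 := by
      have h : ∀ i j, Continuous fun x : X => ((x.2 i j : ℝ) : ℂ) := fun i j =>
        Complex.continuous_ofReal.comp ((Matrix.SpecialLinearGroup.isClosedEmbedding_val.continuous.comp
          continuous_snd).matrix_elem i j)
      exact (((h 0 0).mul continuous_const).add (h 0 1)).prodMk
        (((h 1 0).mul continuous_const).add (h 1 1))
    exact ((fun_hol _ _).an _ (pq_mem x.2)).continuousAt.comp (f := fun x : X => pq x.2)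
      hc.continuousAt

end Pool.Agent.Lib.MP_99bfa4_al.SS
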