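import Pool.Agent.Lib.MP_99bfa4_al.SS.Base

open MeasureTheory UpperHalfPlane
open scoped ContDiff Topology MatrixGroups InnerProductSpace ComplexConjugate

namespace Pool.Agent.Lib.MP_99bfa4_al.SS

/-- The rows of a matrix as complex numbers. -/
noncomputable def pq (x : S) : ℂ × ℂ :=
  (x 0 0 * Complex.I + x 0 1, x 1 0 * Complex.I + x 1 1)

/-- The open cone that contains the image of pq. -/
def Om : Set (ℂ × ℂ) := {v | 0 < (v.1 * conj v.2).im}

lemma isOpen_Om : IsOpen Om := by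
  unfold Om
  exact isOpen_lt continuous_const (by fun_prop)

lemma pq_im (x : S) : ((pq x).1 * conj (pq x).2).im = 1 := by
  have := S_det x
  simp [pq]
  linarith

lemma pq_mem (x : S) : pq x ∈ Om := by
  change 0 < ((pq x).1 * conj (pq x).2).im
  rw [pq_im]
  exact one_pos

lemma pq_one : pq 1 = (Complex.I, 1) := by
  simp [pq]

lemma pq_mul (g x : S) :
    pq (g * x) = (g 0 0 * (pq x).1 + g 0 1 * (pq x).2, g 1 0 * (pq x).1 + g 1 1 * (pq x).2) := by
  simp only [pq, S_mul, Prod.mk.injEq]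
  push_cast
  constructor <;> ring

lemma pq_mul_rot (x : S) (θ : ℝ) :
    pq (x * rot θ) = Complex.exp (θ * Complex.I) • pq x := by
  rw [Complex.exp_mul_I]
  simp only [pq, S_mul, rot, Prod.smul_mk, smul_eq_mul, Prod.mk.injEq]
  simp
  constructor <;> ring_nf <;> simp <;> ring

/-- Holomorphic functions on the cone, homogeneous of degree -k. -/
structure Hol (k : ℕ) (Φ : ℂ × ℂ → ℂ) : Prop where
  an : AnalyticOnNhd ℂ Φ Om
  hom : ∀ c : ℂ, c ≠ 0 → ∀ v ∈ Om, Φ (c • v) = (c ^ k)⁻¹ * Φ v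

/-- The map pq on the ambient space. -/
noncomputable def pqE (e : ℂ × (Fin 2 → Fin 2 → ℝ)) : ℂ × ℂ :=
  (e.2 0 0 * Complex.I + e.2 0 1, e.2 1 0 * Complex.I + e.2 1 1)

lemma pqE_emb (x : X) : pqE (emb x) = pq x.2 := rfl

lemma contDiff_pqE : ContDiff ℝ ∞ pqE := by
  have h : ∀ i j : Fin 2, ContDiff ℝ ∞ fun e : ℂ × (Fin 2 → Fin 2 → ℝ) => ((e.2 i j : ℝ) : ℂ) :=
    fun i j => Complex.ofRealCLM.contDiff.comp (by fun_prop)
  exact (((h 0 0).mul contDiff_const).add (h 0 1)).prodMk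
    (((h 1 0).mul contDiff_const).add (h 1 1))

/-- A holomorphic function on the cone as a smooth function on X. -/
noncomputable def lift (Φ : ℂ × ℂ → ℂ) (h : AnalyticOnNhd ℂ Φ Om) : Smooth :=
  ⟨fun x => Φ (pq x.2), fun e => Φ (pqE e), fun x =>
    ⟨(((h _ (pq_mem x.2)).contDiffAt (n := ∞)).restrict_scalars ℝ).comp (emb x)
      contDiff_pqE.contDiffAt, rfl⟩⟩

lemma lift_val (Φ : ℂ × ℂ → ℂ) (h : AnalyticOnNhd ℂ Φ Om) (x : X) :
    (lift Φ h).val x = Φ (pq x.2) := rfl

/-- The coordinate that equals one at the base point. -/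
noncomputable def al (v : ℂ × ℂ) : ℂ := (v.1 + Complex.I * v.2) / (2 * Complex.I)

/-- The coordinate that vanishes at the base point. -/
noncomputable def be (v : ℂ × ℂ) : ℂ := (v.1 - Complex.I * v.2) / (2 * Complex.I)

lemma normSq_al (v : ℂ × ℂ) :
    Complex.normSq (al v) = Complex.normSq (be v) + (v.1 * conj v.2).im := by
  simp only [al, be, map_div₀, map_mul, Complex.normSq_I]
  simp [Complex.normSq_apply]
  ring

lemma norm_be_lt {v : ℂ × ℂ} (hv : v ∈ Om) : ‖be v‖ < ‖al v‖ := by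
  have h1 := normSq_al v
  have h2 : 0 < (v.1 * conj v.2).im := hv
  rw [Complex.normSq_eq_norm_sq, Complex.normSq_eq_norm_sq] at h1
  exact lt_of_pow_lt_pow_left₀ 2 (norm_nonneg _) (by linarith)

lemma al_ne {v : ℂ × ℂ} (hv : v ∈ Om) : al v ≠ 0 :=
  norm_pos_iff.1 ((norm_nonneg _).trans_lt (norm_be_lt hv))

lemma an_al (v : ℂ × ℂ) : AnalyticAt ℂ al v :=
  (analyticAt_fst.add (analyticAt_const.mul analyticAt_snd)).div_const

lemma an_be (v : ℂ × ℂ) : AnalyticAt ℂ be v :=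
  (analyticAt_fst.sub (analyticAt_const.mul analyticAt_snd)).div_const

lemma al_smul (c : ℂ) (v : ℂ × ℂ) : al (c • v) = c * al v := by
  simp only [al, Prod.smul_fst, Prod.smul_snd, smul_eq_mul]
  ring

lemma be_smul (c : ℂ) (v : ℂ × ℂ) : be (c • v) = c * be v := by
  simp only [be, Prod.smul_fst, Prod.smul_snd, smul_eq_mul]
  ring

lemma hol_al (k : ℕ) : Hol k fun v => (al v ^ k)⁻¹ where
  an v hv := ((an_al v).pow k).inv (pow_ne_zero k (al_ne hv))
  hom c _ v _ := by rw [al_smul, mul_pow, mul_inv]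

lemma al_base : al (pq 1) = 1 := by
  rw [pq_one, al]
  field_simp
  ring

lemma be_base : be (pq 1) = 0 := by
  simp [pq_one, be]

/-- The lowest weight matrix coefficient. -/
noncomputable def psi (k : ℕ) : Smooth := lift (fun v => (al v ^ k)⁻¹) (hol_al k).an

lemma psi_base (k : ℕ) : (psi k).val (I, 1) = 1 := by
  simp [psi, lift_val, al_base]

end Pool.Agent.Lib.MP_99bfa4_al.SS
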