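import Pool.Agent.Lib.MP_99bfa4_al.SS.Rigid

open MeasureTheory UpperHalfPlane
open scoped ContDiff Topology MatrixGroups InnerProductSpace ComplexConjugate

namespace Pool.Agent.Lib.MP_99bfa4_al.SS

lemma normal_ev {Γ : Type} [Group Γ] (ι : Γ →* G) (γ : Γ) {F : G → ℝ} (hF : Continuous F)
    {p q : ℝ} (h1 : p < F (ι γ)) (h2 : F (ι γ) < q) :
    ∀ᶠ φ in near ι, p < F (φ γ) ∧ F (φ γ) < q :=
  ((hF.tendsto _).comp (((continuous_apply γ).tendsto _).comp Filter.tendsto_comap)).eventually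
    (Ioo_mem_nhds h1 h2)

lemma normal_entry (i j : Fin 2) : Continuous fun g : S => g i j :=
  (continuous_apply_apply i j).comp
    Matrix.SpecialLinearGroup.isClosedEmbedding_val.continuous

lemma normal_tr : Continuous tr := (normal_entry 0 0).add (normal_entry 1 1)

lemma normal_s : 1.7 < √3 ∧ √3 < 1.8 :=
  ⟨Real.lt_sqrt_of_sq_lt (by norm_num), (Real.sqrt_lt' (by norm_num)).2 (by norm_num)⟩

lemma normal_trA : tr mA = √3 := by
  simp [tr, mA]; ring

lemma normal_trB : tr mB = -√3 := by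
  simp [tr, mB]; ring

lemma normal_trAB : tr (mA * mB) = 1 := by
  simp only [tr, S_mul]
  simp [mA, mB]
  ring

lemma normal_trR : tr (rot (Real.pi / 6)) = √3 := by
  simp [tr, rot]

lemma normal_trRR : tr (rot (Real.pi / 6) * rot (Real.pi / 6)) = 1 := by
  rw [← rot_add, show Real.pi / 6 + Real.pi / 6 = Real.pi / 3 by ring]
  simp [tr, rot]; norm_num

lemma normal_tr1 : tr 1 = 2 := by
  simp [tr]; norm_num

lemma normal_trD (u : ℝ) : tr (dia u) = 2 * Real.cosh u := by
  rw [Real.cosh_eq]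
  simp [tr, dia]; ring

lemma normal_R : rot (Real.pi / 6) ^ 12 = 1 := by
  rw [rot_pow, show ((12 : ℕ) : ℝ) * (Real.pi / 6) = 2 * Real.pi by push_cast; ring]
  apply S_ext <;> simp [rot]

lemma normal_t3 {g : S} (h : g ^ 12 = 1) (h1 : 1.5 < tr g ∧ tr g < 1.9) : tr g = √3 := by
  have h3 : tr g ^ 2 = 3 := by
    rcases tr_of_pow_twelve g h with h | h | h | h <;> nlinarith [h1.1, h1.2]
  rw [← h3, Real.sqrt_sq (by linarith [h1.1])]

lemma normal_t3' {g : S} (h : g ^ 12 = 1) (h1 : -1.9 < tr g ∧ tr g < -1.5) : tr g = -√3 := by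
  have h3 : (-tr g) ^ 2 = 3 := by
    rcases tr_of_pow_twelve g h with h | h | h | h <;> nlinarith [h1.1, h1.2]
  rw [← h3, Real.sqrt_sq (by linarith [h1.2]), neg_neg]

lemma normal_t1 {g : S} (h : g ^ 12 = 1) (h1 : 0.5 < tr g ∧ tr g < 1.5) : tr g = 1 := by
  have h3 : tr g ^ 2 = 1 := by
    rcases tr_of_pow_twelve g h with h | h | h | h <;> nlinarith [h1.1, h1.2]
  nlinarith [h1.1]

lemma normal_t2 {g : S} (h : g ^ 12 = 1) (h1 : 1.9 < tr g ∧ tr g < 3) : g = 1 := by
  have h3 : tr g ^ 2 = 4 := by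
    rcases tr_of_pow_twelve g h with h | h | h | h <;> nlinarith [h1.1, h1.2]
  exact eq_one_of_tr g h (by nlinarith [h1.1])

/-- The generators as elements of the subgroup. -/
noncomputable def normal_a : Lat 1 0 := ⟨ga, Subgroup.subset_closure (by simp)⟩

/-- The generators as elements of the subgroup. -/
noncomputable def normal_b : Lat 1 0 := ⟨gb, Subgroup.subset_closure (by simp)⟩

/-- The generators as elements of the subgroup. -/
noncomputable def normal_z : Lat 1 0 := ⟨gz 1 0, Subgroup.subset_closure (by simp)⟩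

lemma normal_pa : normal_a ^ 12 = 1 :=
  Subtype.ext (Prod.ext mA_pow (Prod.ext (one_pow 12) normal_R))

lemma normal_pb : normal_b ^ 12 = 1 :=
  Subtype.ext (Prod.ext mB_pow (Prod.ext (one_pow 12) normal_R))

lemma normal_pab : (normal_a * normal_b) ^ 12 = 1 := by
  refine Subtype.ext (Prod.ext mAB_pow (Prod.ext ?_ ?_))
  · show ((1 : S) * 1) ^ 12 = 1
    simp
  · show (rot (Real.pi / 6) * rot (Real.pi / 6)) ^ 12 = 1
    rw [(Commute.refl _).mul_pow, normal_R, one_mul]

lemma normal_za : normal_z * normal_a = normal_a * normal_z := by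
  refine Subtype.ext ?_
  show gz 1 0 * ga = ga * gz 1 0
  simp [gz, ga, rot_zero]

lemma normal_zb : normal_z * normal_b = normal_b * normal_z := by
  refine Subtype.ext ?_
  show gz 1 0 * gb = gb * gz 1 0
  simp [gz, gb, rot_zero]

lemma normal_range (φ : Lat 1 0 →* G) :
    φ.range = Subgroup.closure {φ normal_a, φ normal_b, φ normal_z} := by
  have h : (Subgroup.closure {normal_a, normal_b, normal_z} : Subgroup (Lat 1 0)) = ⊤ := by
    refine Eq.trans ?_ (Subgroup.closure_closure_coe_preimage (k := {ga, gb, gz 1 0}))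
    congr 1
    ext x
    simp only [Set.mem_insert_iff, Set.mem_singleton_iff, Subtype.ext_iff]
    rfl
  rw [MonoidHom.range_eq_map, ← h, MonoidHom.map_closure, Set.image_insert_eq, Set.image_pair]

lemma normal_back {K : Type} [Group K] {x k A : K} (h : x * (k * A * k⁻¹) = k * A * k⁻¹ * x) :
    k⁻¹ * x * k * A = A * (k⁻¹ * x * k) := by
  calc k⁻¹ * x * k * A = k⁻¹ * (x * (k * A * k⁻¹)) * k := by group
    _ = A * (k⁻¹ * x * k) := by rw [h]; group

lemma normal_core {a b z : G} (pa : a ^ 12 = 1) (pb : b ^ 12 = 1) (pab : (a * b) ^ 12 = 1)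
    (za : z * a = a * z) (zb : z * b = b * z)
    (a1 : 1.5 < tr a.1 ∧ tr a.1 < 1.9) (b1 : -1.9 < tr b.1 ∧ tr b.1 < -1.5)
    (c1 : 0.5 < tr (a * b).1 ∧ tr (a * b).1 < 1.5)
    (a2 : 1.9 < tr a.2.1 ∧ tr a.2.1 < 3) (b2 : 1.9 < tr b.2.1 ∧ tr b.2.1 < 3)
    (a3 : 1.5 < tr a.2.2 ∧ tr a.2.2 < 1.9) (b3 : 1.5 < tr b.2.2 ∧ tr b.2.2 < 1.9)
    (c3 : 0.5 < tr (a * b).2.2 ∧ tr (a * b).2.2 < 1.5)
    (s1 : 0 < a.1 1 0) (s3 : 0 < a.2.2 1 0) (z1 : 0 < tr z.1) (z2 : 2 < tr z.2.1) :
    ∃ (g : G) (u θ : ℝ), 0 < u ∧ a = g * ga * g⁻¹ ∧ b = g * gb * g⁻¹ ∧ z = g * gz u θ * g⁻¹ := by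
  have hs := normal_s
  obtain ⟨g1, e1, e2⟩ := conj_pair mA mB a.1 b.1 (by rw [normal_trA, sqrt3_sq]; norm_num)
    (by show 0 < (1 + √3) / 2; positivity) s1
    ((normal_t3 (congrArg Prod.fst pa) a1).trans normal_trA.symm)
    ((normal_t3' (congrArg Prod.fst pb) b1).trans normal_trB.symm)
    ((normal_t1 (congrArg Prod.fst pab) c1).trans normal_trAB.symm)
  obtain ⟨g3, e3, e4⟩ := conj_pair (rot (Real.pi / 6)) (rot (Real.pi / 6)) a.2.2 b.2.2
    (by rw [normal_trR, sqrt3_sq]; norm_num)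
    (by show 0 < Real.sin (Real.pi / 6); simp) s3
    ((normal_t3 (congrArg (fun g : G => g.2.2) pa) a3).trans normal_trR.symm)
    ((normal_t3 (congrArg (fun g : G => g.2.2) pb) b3).trans normal_trR.symm)
    ((normal_t1 (congrArg (fun g : G => g.2.2) pab) c3).trans normal_trRR.symm)
  have e5 := normal_t2 (g := a.2.1) (congrArg (fun g : G => g.2.1) pa) a2
  have e6 := normal_t2 (g := b.2.1) (congrArg (fun g : G => g.2.1) pb) b2
  obtain ⟨k, u, hu, e7⟩ := conj_dia z.2.1 z2
  have f1 : z.1 * a.1 = a.1 * z.1 := congrArg Prod.fst za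
  have f2 : z.1 * b.1 = b.1 * z.1 := congrArg Prod.fst zb
  have f3 : z.2.2 * a.2.2 = a.2.2 * z.2.2 := congrArg (fun g : G => g.2.2) za
  rw [e1] at f1
  rw [e2] at f2
  rw [e3] at f3
  have e8 := eq_one_of_comm _ (normal_back f1) (normal_back f2) (by
    have := tr_conj z.1 g1⁻¹
    rw [inv_inv] at this
    rwa [this])
  obtain ⟨θ, e9⟩ := eq_rot_of_comm _ (normal_back f3)
  refine ⟨(g1, k, g3), u, θ, hu, Prod.ext e1 (Prod.ext ?_ e3), Prod.ext e2 (Prod.ext ?_ e4),
    Prod.ext ?_ (Prod.ext e7 ?_)⟩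
  · show a.2.1 = k * 1 * k⁻¹
    simp [e5]
  · show b.2.1 = k * 1 * k⁻¹
    simp [e6]
  · show z.1 = g1 * 1 * g1⁻¹
    rw [← e8]; group
  · show z.2.2 = g3 * rot θ * g3⁻¹
    rw [← e9]; group

/-- Every small deformation of Lat 1 0 is conjugate to some Lat u θ. -/
theorem normal_form : ∀ᶠ φ in near (Lat 1 0).subtype, ∃ (g : G) (u θ : ℝ), 0 < u ∧
    φ.range = (Lat u θ).map (MulAut.conj g).toMonoidHom := by
  have hs := normal_s
  have t1 : Continuous fun g : G => tr g.1 := normal_tr.comp continuous_fst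
  have t2 : Continuous fun g : G => tr g.2.1 := normal_tr.comp continuous_snd.fst
  have t3 : Continuous fun g : G => tr g.2.2 := normal_tr.comp continuous_snd.snd
  have u1 : Continuous fun g : G => g.1 1 0 := (normal_entry 1 0).comp continuous_fst
  have u3 : Continuous fun g : G => g.2.2 1 0 := (normal_entry 1 0).comp continuous_snd.snd
  have hz : 2 < tr (dia 1) := by
    have := Real.one_lt_cosh.2 (one_ne_zero (α := ℝ))
    rw [normal_trD]; linarith
  filter_upwards [
    normal_ev (Lat 1 0).subtype normal_a t1 (p := 1.5) (q := 1.9)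
      (by show _ < tr mA; rw [normal_trA]; linarith [hs.1])
      (by show tr mA < _; rw [normal_trA]; linarith [hs.2]),
    normal_ev (Lat 1 0).subtype normal_b t1 (p := -1.9) (q := -1.5)
      (by show _ < tr mB; rw [normal_trB]; linarith [hs.2])
      (by show tr mB < _; rw [normal_trB]; linarith [hs.1]),
    normal_ev (Lat 1 0).subtype (normal_a * normal_b) t1 (p := 0.5) (q := 1.5)
      (by show _ < tr (mA * mB); rw [normal_trAB]; norm_num)
      (by show tr (mA * mB) < _; rw [normal_trAB]; norm_num),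
    normal_ev (Lat 1 0).subtype normal_a t2 (p := 1.9) (q := 3)
      (by show _ < tr 1; rw [normal_tr1]; norm_num) (by show tr 1 < _; rw [normal_tr1]; norm_num),
    normal_ev (Lat 1 0).subtype normal_b t2 (p := 1.9) (q := 3)
      (by show _ < tr 1; rw [normal_tr1]; norm_num) (by show tr 1 < _; rw [normal_tr1]; norm_num),
    normal_ev (Lat 1 0).subtype normal_a t3 (p := 1.5) (q := 1.9)
      (by show _ < tr (rot _); rw [normal_trR]; linarith [hs.1])
      (by show tr (rot _) < _; rw [normal_trR]; linarith [hs.2]),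
    normal_ev (Lat 1 0).subtype normal_b t3 (p := 1.5) (q := 1.9)
      (by show _ < tr (rot _); rw [normal_trR]; linarith [hs.1])
      (by show tr (rot _) < _; rw [normal_trR]; linarith [hs.2]),
    normal_ev (Lat 1 0).subtype (normal_a * normal_b) t3 (p := 0.5) (q := 1.5)
      (by show _ < tr (rot _ * rot _); rw [normal_trRR]; norm_num)
      (by show tr (rot _ * rot _) < _; rw [normal_trRR]; norm_num),
    normal_ev (Lat 1 0).subtype normal_a u1 (p := 0)
      (by show 0 < (1 + √3) / 2; positivity) (lt_add_one _),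
    normal_ev (Lat 1 0).subtype normal_a u3 (p := 0)
      (by show 0 < Real.sin (Real.pi / 6); simp) (lt_add_one _),
    normal_ev (Lat 1 0).subtype normal_z t1 (p := 0)
      (by show _ < tr 1; rw [normal_tr1]; norm_num) (lt_add_one _),
    normal_ev (Lat 1 0).subtype normal_z t2 hz (lt_add_one _)]
    with φ a1 b1 c1 a2 b2 a3 b3 c3 s1 s3 z1 z2
  rw [map_mul] at c1 c3
  obtain ⟨g, u, θ, hu, e1, e2, e3⟩ := normal_core (by rw [← map_pow, normal_pa, map_one])
    (by rw [← map_pow, normal_pb, map_one]) (by rw [← map_mul, ← map_pow, normal_pab, map_one])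
    (by rw [← map_mul, ← map_mul, normal_za]) (by rw [← map_mul, ← map_mul, normal_zb])
    a1 b1 c1 a2 b2 a3 b3 c3 s1.1 s3.1 z1.1 z2.1
  refine ⟨g, u, θ, hu, ?_⟩
  rw [normal_range, e1, e2, e3, Lat, MonoidHom.map_closure, Set.image_insert_eq, Set.image_pair]
  rfl

lemma normal_dia {γ : G} (h : γ ∈ Lat 1 0) : ∃ v, γ.2.1 = dia v := by
  induction h using Subgroup.closure_induction with
  | mem x hx =>
    rcases hx with rfl | rfl | rfl
    exacts [⟨0, dia_zero.symm⟩, ⟨0, dia_zero.symm⟩, ⟨1, rfl⟩]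
  | one => exact ⟨0, dia_zero.symm⟩
  | mul x y _ _ hx hy =>
    obtain ⟨v, hv⟩ := hx
    obtain ⟨w, hw⟩ := hy
    exact ⟨v + w, by rw [dia_add, ← hv, ← hw]; rfl⟩
  | inv x _ hx =>
    obtain ⟨v, hv⟩ := hx
    exact ⟨-v, by rw [dia_neg, ← hv]; rfl⟩

lemma normal_log (v : ℝ) : Real.log (dia v 0 0) = v := Real.log_exp v

/-- The deformation that stretches the middle component. -/
noncomputable def normal_def (s : ℝ) : Lat 1 0 →* G :=
  MonoidHom.mk' (fun γ => (γ.1.1, dia ((1 + s) * Real.log (γ.1.2.1 0 0)), γ.1.2.2)) fun γ δ => by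
    obtain ⟨v, hv⟩ := normal_dia γ.2
    obtain ⟨w, hw⟩ := normal_dia δ.2
    refine Prod.ext rfl (Prod.ext ?_ rfl)
    show dia ((1 + s) * Real.log ((γ.1.2.1 * δ.1.2.1) 0 0)) = dia _ * dia _
    rw [hv, hw, ← dia_add, ← dia_add, normal_log, normal_log, normal_log, mul_add]

lemma normal_cdia : Continuous dia := by
  refine Continuous.subtype_mk ?_ _
  refine continuous_matrix fun i j => ?_
  fin_cases i <;> fin_cases j <;> simp <;> fun_prop

theorem lat_deforms : Deforms (Lat 1 0).subtype := by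
  refine ⟨fun s => normal_def s, fun γ => ?_, MonoidHom.ext fun γ => ?_, 1, fun ⟨g, hg⟩ => ?_⟩
  · exact continuous_const.prodMk ((normal_cdia.comp
      ((continuous_const.add continuous_subtype_val).mul continuous_const)).prodMk continuous_const)
  · obtain ⟨v, hv⟩ := normal_dia γ.2
    refine Prod.ext rfl (Prod.ext ?_ rfl)
    show dia ((1 + 0) * Real.log (γ.1.2.1 0 0)) = γ.1.2.1
    rw [hv, normal_log, add_zero, one_mul]
  · have h : dia ((1 + 1) * Real.log (dia 1 0 0)) = g.2.1 * dia 1 * g.2.1⁻¹ :=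
      congrArg (fun g : G => g.2.1) (hg normal_z)
    have h2 := congrArg tr h
    rw [tr_conj, normal_log, normal_trD, normal_trD] at h2
    have h3 : Real.cosh 1 < Real.cosh ((1 + 1) * 1) := Real.cosh_lt_cosh.2 (by norm_num)
    linarith

theorem lat_fg (u θ : ℝ) : (Lat u θ).FG :=
  (Subgroup.fg_iff _).2 ⟨_, rfl, Set.toFinite _⟩

end Pool.Agent.Lib.MP_99bfa4_al.SS
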