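import Pool.Agent.Lib.MP_99bfa4_al.SS.Arith
import Pool.Agent.Lib.MP_99bfa4_al.SS.Normal
import Pool.Agent.Lib.MP_99bfa4_al.SS.FD
import Pool.Agent.Lib.MP_99bfa4_al.SS.Eig
import Pool.Agent.Lib.MP_99bfa4_al.SS.Cas
import Pool.Agent.Lib.MP_99bfa4_al.SS.Fun
import Pool.Agent.Lib.MP_99bfa4_al.SS.Disc

open MeasureTheory UpperHalfPlane
open scoped ContDiff Topology MatrixGroups InnerProductSpace ComplexConjugate

namespace Pool.Agent.Lib.MP_99bfa4_al.SS

theorem admissible : Admissible X (Lat 1 0) :=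
  ⟨lat_fg 1 0, (lat_discontinuous one_pos 0).discrete, lat_discontinuous one_pos 0, by
    filter_upwards [normal_form] with φ ⟨g, u, θ, hu, h⟩
    rw [h]
    exact (lat_discontinuous hu θ).conj g, lat_deforms⟩

theorem infStable : InfStable mu (Subtype.val : Smooth → X → ℂ) (Lat 1 0) := by
  choose l hl using exists_char
  obtain ⟨C, hC⟩ := exists_casimir
  refine Set.infinite_of_injective_forall_mem (f := fun n : ℕ => l (12 * (n + 1))) ?_ ?_
  · intro m n hmn
    have h1 : l (12 * (m + 1)) C = l (12 * (n + 1)) C := congrArg (fun φ : DX →ₐ[ℂ] ℂ => φ C) hmn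
    rw [hl, hl, hC, hC] at h1
    have h2 : ((m : ℂ) - n) * (144 * (m + n) + 264) = 0 := by
      push_cast at h1
      linear_combination h1
    rcases mul_eq_zero.1 h2 with h3 | h3
    · exact_mod_cast sub_eq_zero.1 h3
    · exfalso
      have h4 : ((144 * (m + n) + 264 : ℕ) : ℂ) = 0 := by push_cast; exact h3
      have h5 : 144 * (m + n) + 264 = 0 := by exact_mod_cast h4
      omega
  · intro n
    filter_upwards [normal_form] with φ ⟨g, u, θ, hu, h⟩
    rw [h]
    obtain ⟨Φ, hΦ, h1, h2, h3⟩ := exists_fun hu θ n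
    exact hasEigen_conj (lat_discontinuous hu θ) (measurableSet_cover u) (lat_cover hu θ) _ h1 h2 h3
      _ (fun D => by rw [hl]; exact eigen hΦ D) g

end Pool.Agent.Lib.MP_99bfa4_al.SS
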