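import Pool.Agent.Lib.MP_99bfa4_al.SS.Base

open MeasureTheory UpperHalfPlane
open scoped ContDiff Topology MatrixGroups InnerProductSpace ComplexConjugate

namespace Pool.Agent.Lib.MP_99bfa4_al.SS

lemma rig_one : (1 : S) 0 0 = 1 ∧ (1 : S) 0 1 = 0 ∧ (1 : S) 1 0 = 0 ∧ (1 : S) 1 1 = 1 := by simp

lemma rig_tr_one : tr 1 = 2 := by
  rw [tr, rig_one.1, rig_one.2.2.2]
  norm_num

lemma rig_tr_sq (g : S) : tr (g * g) = tr g ^ 2 - 2 := by
  simp only [tr, S_mul]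
  linear_combination (-2) * S_det g

lemma rig_tr_cube (g : S) : tr (g * g * g) = tr g ^ 3 - 3 * tr g := by
  simp only [tr, S_mul]
  linear_combination (-3 * (g 0 0 + g 1 1)) * S_det g

lemma tr_of_pow_twelve (g : S) (h : g ^ 12 = 1) :
    tr g = 0 ∨ tr g ^ 2 = 1 ∨ tr g ^ 2 = 3 ∨ tr g ^ 2 = 4 := by
  have e : g ^ 12 = g * g * (g * g) * (g * g * (g * g)) * (g * g * (g * g)) := by
    simp only [pow_succ, pow_zero, one_mul, mul_assoc]
  have h1 := rig_tr_one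
  rw [← h, e, rig_tr_cube, rig_tr_sq, rig_tr_sq] at h1
  have h2 : tr g ^ 2 * ((tr g ^ 2 - 1) ^ 2 * ((tr g ^ 2 - 3) ^ 2 * (tr g ^ 2 - 4))) = 0 := by
    linear_combination h1
  simpa only [mul_eq_zero, pow_eq_zero_iff two_ne_zero, sub_eq_zero] using h2

lemma eq_one_of_tr (g : S) (h : g ^ 12 = 1) (ht : tr g = 2) : g = 1 := by
  have hd := S_det g
  rw [tr] at ht
  have key : ∀ n : ℕ, (g ^ n) 0 0 = 1 + n * (g 0 0 - 1) ∧ (g ^ n) 0 1 = n * g 0 1 ∧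
      (g ^ n) 1 0 = n * g 1 0 ∧ (g ^ n) 1 1 = 1 + n * (g 1 1 - 1) := by
    intro n
    induction n with
    | zero => simp
    | succ n ih =>
      obtain ⟨h0, h1, h2, h3⟩ := ih
      simp only [pow_succ, S_mul, h0, h1, h2, h3]
      push_cast
      refine ⟨?_, ?_, ?_, ?_⟩
      · linear_combination (n * g 0 0) * ht - n * hd
      · linear_combination (n * g 0 1) * ht
      · linear_combination (n * g 1 0) * ht
      · linear_combination (n * g 1 1) * ht - n * hd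
  obtain ⟨h0, h1, h2, h3⟩ := key 12
  obtain ⟨e0, e1, e2, e3⟩ := rig_one
  rw [h] at h0 h1 h2 h3
  push_cast at h0 h1 h2 h3
  apply S_ext <;> linarith

lemma tr_conj (g k : S) : tr (k * g * k⁻¹) = tr g := by
  obtain ⟨h0, h1, h2, h3⟩ := S_inv k
  simp only [tr, S_mul, h0, h1, h2, h3]
  linear_combination (g 0 0 + g 1 1) * S_det k

lemma rig_rotate (U V U' V' : ℝ) (h : U ^ 2 + V ^ 2 = U' ^ 2 + V' ^ 2) :
    ∃ θ : ℝ, U' = (Real.cos θ ^ 2 - Real.sin θ ^ 2) * U - 2 * Real.sin θ * Real.cos θ * V ∧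
      V' = 2 * Real.sin θ * Real.cos θ * U + (Real.cos θ ^ 2 - Real.sin θ ^ 2) * V := by
  have hn : ‖(⟨U', V'⟩ : ℂ)‖ = ‖(⟨U, V⟩ : ℂ)‖ := by
    rw [Complex.norm_eq_sqrt_sq_add_sq, Complex.norm_eq_sqrt_sq_add_sq, h]
  have h1 := Complex.norm_mul_cos_arg ⟨U, V⟩
  have h2 := Complex.norm_mul_sin_arg ⟨U, V⟩
  have h3 := Complex.norm_mul_cos_arg ⟨U', V'⟩
  have h4 := Complex.norm_mul_sin_arg ⟨U', V'⟩
  rw [hn] at h3 h4
  generalize Complex.arg ⟨U, V⟩ = a at h1 h2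
  generalize Complex.arg ⟨U', V'⟩ = a' at h3 h4
  generalize ‖(⟨U, V⟩ : ℂ)‖ = r at h1 h2 h3 h4
  obtain ⟨θ, rfl⟩ : ∃ θ, a' = a + 2 * θ := ⟨(a' - a) / 2, by ring⟩
  rw [Real.cos_add, Real.cos_two_mul', Real.sin_two_mul] at h3
  rw [Real.sin_add, Real.cos_two_mul', Real.sin_two_mul] at h4
  dsimp only at h1 h2 h3 h4
  refine ⟨θ, ?_, ?_⟩
  · rw [← h1, ← h2, ← h3]
    ring
  · rw [← h1, ← h2, ← h4]
    ring

lemma rig_norm (A : S) {s : ℝ} (hs : 0 < s) (h2 : tr A ^ 2 + 4 * s ^ 2 = 4) (hc : 0 < A 1 0) :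
    ∃ k : S, (k * A * k⁻¹) 0 0 = tr A / 2 ∧ (k * A * k⁻¹) 0 1 = -s ∧ (k * A * k⁻¹) 1 0 = s ∧
      (k * A * k⁻¹) 1 1 = tr A / 2 := by
  obtain ⟨m, hm, hm2⟩ : ∃ m : ℝ, 0 < m ∧ m ^ 2 = s / A 1 0 :=
    ⟨√(s / A 1 0), Real.sqrt_pos.2 (div_pos hs hc), Real.sq_sqrt (div_pos hs hc).le⟩
  let k : S := ⟨!![1 / m, -((A 0 0 - A 1 1) / (2 * A 1 0)) / m; 0, m], by
    rw [Matrix.det_fin_two_of]
    field_simp
    ring⟩
  have k0 : k 0 0 = 1 / m := rfl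
  have k1 : k 0 1 = -((A 0 0 - A 1 1) / (2 * A 1 0)) / m := rfl
  have k2 : k 1 0 = 0 := rfl
  have k3 : k 1 1 = m := rfl
  obtain ⟨h0, -, h3, -⟩ := S_inv k
  have e0 : (k * A * k⁻¹) 0 0 = tr A / 2 := by
    simp only [tr, S_mul, h0, h3, k0, k1, k2, k3]
    field_simp
    ring
  have e2 : (k * A * k⁻¹) 1 0 = s := by
    simp only [S_mul, h0, h3, k2, k3]
    rw [eq_div_iff hc.ne'] at hm2
    linear_combination hm2
  have e3 : (k * A * k⁻¹) 1 1 = tr A / 2 := by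
    have := tr_conj A k
    rw [tr, e0] at this
    linarith
  refine ⟨k, e0, mul_right_cancel₀ hs.ne' ?_, e2, e3⟩
  have := S_det (k * A * k⁻¹)
  rw [e0, e2, e3] at this
  linear_combination (1 / 4) * h2 - this

/-- A pair with elliptic first member is determined up to conjugacy by three traces and a sign. -/
lemma conj_pair (A B A' B' : S) (h2 : tr A ^ 2 < 4) (hs : 0 < A 1 0) (hs' : 0 < A' 1 0)
    (hA : tr A' = tr A) (hB : tr B' = tr B) (hAB : tr (A' * B') = tr (A * B)) :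
    ∃ g : S, A' = g * A * g⁻¹ ∧ B' = g * B * g⁻¹ := by
  obtain ⟨s, s0, s2⟩ : ∃ s : ℝ, 0 < s ∧ tr A ^ 2 + 4 * s ^ 2 = 4 :=
    ⟨√(1 - tr A ^ 2 / 4), Real.sqrt_pos.2 (by linarith), by
      rw [Real.sq_sqrt (by linarith)]; ring⟩
  obtain ⟨k, a0, a1, a2, a3⟩ := rig_norm A s0 s2 hs
  obtain ⟨k', b0, b1, b2, b3⟩ := rig_norm A' s0 (hA ▸ s2) hs'
  rw [hA] at b0 b3
  have t1 : tr (k' * B' * k'⁻¹) = tr (k * B * k⁻¹) := by rw [tr_conj, tr_conj, hB]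
  have t2 : tr (k' * A' * k'⁻¹ * (k' * B' * k'⁻¹)) = tr (k * A * k⁻¹ * (k * B * k⁻¹)) := by
    rw [conj_mul, conj_mul, tr_conj, tr_conj, hAB]
  generalize hP : k * A * k⁻¹ = P at a0 a1 a2 a3 t2
  generalize hP' : k' * A' * k'⁻¹ = P' at b0 b1 b2 b3 t2
  generalize hQ : k * B * k⁻¹ = Q at t1 t2
  generalize hQ' : k' * B' * k'⁻¹ = Q' at t1 t2
  simp only [tr] at t1
  rw [tr, tr] at t2
  simp only [S_mul, a0, a1, a2, a3, b0, b1, b2, b3] at t2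
  have t3 : Q' 0 1 - Q' 1 0 = Q 0 1 - Q 1 0 :=
    mul_left_cancel₀ s0.ne' (by linear_combination t2 - (tr A / 2) * t1)
  obtain ⟨θ, r1, r2⟩ := rig_rotate (Q 0 0 - Q 1 1) (Q 0 1 + Q 1 0) (Q' 0 0 - Q' 1 1)
    (Q' 0 1 + Q' 1 0) (by
      linear_combination 4 * S_det Q' - 4 * S_det Q - (Q 0 0 + Q 1 1 + Q' 0 0 + Q' 1 1) * t1 -
        (Q 0 1 - Q 1 0 + Q' 0 1 - Q' 1 0) * t3)
  have c0 : rot θ 0 0 = Real.cos θ := rfl
  have c1 : rot θ 0 1 = -Real.sin θ := rfl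
  have c2 : rot θ 1 0 = Real.sin θ := rfl
  have c3 : rot θ 1 1 = Real.cos θ := rfl
  obtain ⟨d0, d1, d2, d3⟩ := S_inv (rot θ)
  have cs := Real.cos_sq_add_sin_sq θ
  have eP : P' = rot θ * P * (rot θ)⁻¹ := by
    rw [eq_mul_inv_iff_mul_eq]
    apply S_ext <;> simp only [S_mul, a0, a1, a2, a3, b0, b1, b2, b3, c0, c1, c2, c3] <;> ring
  have eQ : Q' = rot θ * Q * (rot θ)⁻¹ := by
    apply S_ext <;> simp only [S_mul, c0, c1, c2, c3, d0, d1, d2, d3]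
    · linear_combination (1 / 2) * t1 + (1 / 2) * r1 - (Q 0 0 + Q 1 1) / 2 * cs
    · linear_combination (1 / 2) * t3 + (1 / 2) * r2 - (Q 0 1 - Q 1 0) / 2 * cs
    · linear_combination (-1 / 2) * t3 + (1 / 2) * r2 + (Q 0 1 - Q 1 0) / 2 * cs
    · linear_combination (1 / 2) * t1 - (1 / 2) * r1 - (Q 0 0 + Q 1 1) / 2 * cs
  refine ⟨k'⁻¹ * rot θ * k, ?_, ?_⟩
  · calc A' = k'⁻¹ * P' * k' := by rw [← hP']; group
      _ = _ := by rw [eP, ← hP]; group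
  · calc B' = k'⁻¹ * Q' * k' := by rw [← hQ']; group
      _ = _ := by rw [eQ, ← hQ]; group

lemma rig_dia (g : S) (u a b c d : ℝ) (hd : a * d - b * c = 1)
    (h0 : g 0 0 * a + g 0 1 * c = a * Real.exp u) (h1 : g 0 0 * b + g 0 1 * d = b * Real.exp (-u))
    (h2 : g 1 0 * a + g 1 1 * c = c * Real.exp u) (h3 : g 1 0 * b + g 1 1 * d = d * Real.exp (-u)) :
    ∃ k : S, g = k * dia u * k⁻¹ := by
  refine ⟨⟨!![a, b; c, d], by rw [Matrix.det_fin_two_of, hd]⟩, ?_⟩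
  rw [eq_mul_inv_iff_mul_eq]
  apply S_ext <;> simp [S_mul, dia, h0, h1, h2, h3]

lemma conj_dia (g : S) (h : 2 < tr g) : ∃ (k : S) (u : ℝ), 0 < u ∧ g = k * dia u * k⁻¹ := by
  have hd := S_det g
  have hr : 0 ≤ tr g ^ 2 - 4 := by nlinarith
  have hr2 := Real.sq_sqrt hr
  have hr0 := Real.sqrt_nonneg (tr g ^ 2 - 4)
  generalize √(tr g ^ 2 - 4) = r at hr2 hr0
  obtain ⟨u, u0, hu⟩ : ∃ u : ℝ, 0 < u ∧ Real.exp u = (tr g + r) / 2 :=
    ⟨Real.log ((tr g + r) / 2), Real.log_pos (by linarith), Real.exp_log (by linarith)⟩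
  have e1 : Real.exp u * Real.exp (-u) = 1 := by rw [← Real.exp_add, add_neg_cancel, Real.exp_zero]
  have e2 : Real.exp u + Real.exp (-u) = g 0 0 + g 1 1 := by
    refine mul_left_cancel₀ (Real.exp_pos u).ne' ?_
    rw [mul_add, e1, hu, ← tr]
    linear_combination (1 / 4) * hr2
  rw [tr] at h
  suffices ∃ k : S, g = k * dia u * k⁻¹ from this.imp fun k hk => ⟨u, u0, hk⟩
  by_cases h1 : g 0 0 * Real.exp u + g 1 1 * Real.exp (-u) - 2 = 0
  · have h2 : 2 - g 1 1 * Real.exp u - g 0 0 * Real.exp (-u) ≠ 0 := by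
      intro h2
      have : (g 0 0 + g 1 1) ^ 2 = 4 := by
        linear_combination h1 - h2 - (g 0 0 + g 1 1) * e2
      nlinarith
    obtain ⟨m, hm⟩ : ∃ m, m * (2 - g 1 1 * Real.exp u - g 0 0 * Real.exp (-u)) = 1 :=
      ⟨_, inv_mul_cancel₀ h2⟩
    refine rig_dia g u (g 0 1) (m * (Real.exp u - g 0 0)) (g 1 1 - Real.exp (-u)) (-(m * g 1 0))
      ?_ ?_ ?_ ?_ ?_
    · linear_combination hm + m * hd + m * e1
    · linear_combination (-g 0 1) * e2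
    · linear_combination m * hd - m * e1 + (m * g 0 0) * e2
    · linear_combination e1 - hd - g 1 1 * e2
    · linear_combination (m * g 1 0) * e2
  · obtain ⟨m, hm⟩ : ∃ m, m * (g 0 0 * Real.exp u + g 1 1 * Real.exp (-u) - 2) = 1 :=
      ⟨_, inv_mul_cancel₀ h1⟩
    refine rig_dia g u (g 0 0 - Real.exp (-u)) (-(m * g 0 1)) (g 1 0) (m * (Real.exp u - g 1 1))
      ?_ ?_ ?_ ?_ ?_
    · linear_combination hm - m * hd - m * e1
    · linear_combination e1 - hd - g 0 0 * e2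
    · linear_combination (m * g 0 1) * e2
    · linear_combination (-g 1 0) * e2
    · linear_combination m * hd - m * e1 + (m * g 1 1) * e2

lemma rig_mA : mA 0 0 = (1 + √3) / 2 ∧ mA 0 1 = (1 - √3) / 2 ∧ mA 1 0 = (1 + √3) / 2 ∧
    mA 1 1 = (√3 - 1) / 2 := ⟨rfl, rfl, rfl, rfl⟩

lemma rig_mB : mB 0 0 = (1 - √3) / 2 ∧ mB 0 1 = (1 + √3) / 2 ∧ mB 1 0 = (1 - √3) / 2 ∧
    mB 1 1 = -(1 + √3) / 2 := ⟨rfl, rfl, rfl, rfl⟩

lemma eq_one_of_comm (g : S) (hA : g * mA = mA * g) (hB : g * mB = mB * g) (ht : 0 < tr g) :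
    g = 1 := by
  obtain ⟨a0, a1, a2, a3⟩ := rig_mA
  obtain ⟨b0, b1, b2, b3⟩ := rig_mB
  have h1 : (g * mA) 0 0 = (mA * g) 0 0 := by rw [hA]
  have h2 : (g * mA) 0 1 = (mA * g) 0 1 := by rw [hA]
  have h3 : (g * mB) 0 0 = (mB * g) 0 0 := by rw [hB]
  have h4 : (g * mB) 0 1 = (mB * g) 0 1 := by rw [hB]
  simp only [S_mul, a0, a1, a2, a3, b0, b1, b2, b3] at h1 h2 h3 h4
  have e1 : g 1 0 = g 0 1 := by linear_combination -h1 - h3
  have s0 : 0 < √3 := Real.sqrt_pos.2 (by norm_num)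
  have e2 : g 0 1 = 0 := mul_left_cancel₀ s0.ne'
    (by linear_combination (1 / 2) * h1 - (1 / 2) * h3 - (√3 / 2) * e1)
  have e3 : g 1 1 = g 0 0 := by linear_combination -h2 - h4 - 2 * e2
  have hd := S_det g
  rw [tr, e3] at ht
  rw [e1, e2, e3] at hd
  have e4 : g 0 0 = 1 := by nlinarith
  obtain ⟨o0, o1, o2, o3⟩ := rig_one
  apply S_ext <;> linarith

lemma eq_rot_of_comm (g : S) (h : g * rot (Real.pi / 6) = rot (Real.pi / 6) * g) :
    ∃ θ, g = rot θ := by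
  have c0 : ∀ θ, rot θ 0 0 = Real.cos θ := fun _ => rfl
  have c1 : ∀ θ, rot θ 0 1 = -Real.sin θ := fun _ => rfl
  have c2 : ∀ θ, rot θ 1 0 = Real.sin θ := fun _ => rfl
  have c3 : ∀ θ, rot θ 1 1 = Real.cos θ := fun _ => rfl
  have h1 : (g * rot (Real.pi / 6)) 0 0 = (rot (Real.pi / 6) * g) 0 0 := by rw [h]
  have h2 : (g * rot (Real.pi / 6)) 0 1 = (rot (Real.pi / 6) * g) 0 1 := by rw [h]
  simp only [S_mul, c0, c1, c2, c3, Real.sin_pi_div_six] at h1 h2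
  have e1 : g 0 1 = -g 1 0 := by linear_combination 2 * h1
  have e2 : g 1 1 = g 0 0 := by linear_combination 2 * h2
  have hd := S_det g
  rw [e1, e2] at hd
  have hn : ‖(⟨g 0 0, g 1 0⟩ : ℂ)‖ = 1 := by
    rw [Complex.norm_eq_sqrt_sq_add_sq, Real.sqrt_eq_one]
    linear_combination hd
  have h3 := Complex.norm_mul_cos_arg ⟨g 0 0, g 1 0⟩
  have h4 := Complex.norm_mul_sin_arg ⟨g 0 0, g 1 0⟩
  rw [hn, one_mul] at h3 h4
  refine ⟨Complex.arg ⟨g 0 0, g 1 0⟩, S_ext ?_ ?_ ?_ ?_⟩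
  · rw [c0, h3]
  · rw [c1, h4, e1]
  · rw [c2, h4]
  · rw [c3, h3, e2]

lemma rig_four (g : S) (h : tr g = 0) : g ^ 4 = 1 := by
  have hd := S_det g
  rw [tr] at h
  have e0 : (g * g) 0 0 = -1 := by rw [S_mul]; linear_combination g 0 0 * h - hd
  have e1 : (g * g) 0 1 = 0 := by rw [S_mul]; linear_combination g 0 1 * h
  have e2 : (g * g) 1 0 = 0 := by rw [S_mul]; linear_combination g 1 0 * h
  have e3 : (g * g) 1 1 = -1 := by rw [S_mul]; linear_combination g 1 1 * h - hd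
  rw [show g ^ 4 = g * g * (g * g) by simp only [pow_succ, pow_zero, one_mul, mul_assoc]]
  apply S_ext <;> rw [S_mul (g * g)] <;> simp [e0, e1, e2, e3, -Matrix.SpecialLinearGroup.coe_mul]

lemma rig_twelve (g : S) (h : tr g ^ 2 = 3) : g ^ 12 = 1 := by
  have := rig_four (g * g * g) (by rw [rig_tr_cube]; linear_combination tr g * h)
  rwa [← pow_three', ← pow_mul] at this

lemma rig_three (g : S) (h : tr g = -1) : g ^ 3 = 1 := by
  have hd := S_det g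
  rw [tr] at h
  obtain ⟨h0, h1, h2, h3⟩ := S_inv g
  rw [pow_three', mul_eq_one_iff_eq_inv]
  apply S_ext <;> rw [S_mul]
  · linear_combination (g 0 0 - 1) * h - hd - h0
  · linear_combination g 0 1 * h - h1
  · linear_combination g 1 0 * h - h2
  · linear_combination (g 1 1 - 1) * h - hd - h3

lemma mA_pow : mA ^ 12 = 1 := by
  obtain ⟨a0, -, -, a3⟩ := rig_mA
  refine rig_twelve _ ?_
  rw [tr, a0, a3]
  linear_combination sqrt3_sq

lemma mB_pow : mB ^ 12 = 1 := by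
  obtain ⟨a0, -, -, a3⟩ := rig_mB
  refine rig_twelve _ ?_
  rw [tr, a0, a3]
  linear_combination sqrt3_sq

lemma mAB_pow : (mA * mB) ^ 12 = 1 := by
  obtain ⟨a0, a1, a2, a3⟩ := rig_mA
  obtain ⟨b0, b1, b2, b3⟩ := rig_mB
  have h : tr (mA * mB) = 1 := by
    simp only [tr, S_mul, a0, a1, a2, a3, b0, b1, b2, b3]
    ring
  have := rig_three (mA * mB * (mA * mB)) (by rw [rig_tr_sq, h]; norm_num)
  rw [← sq, ← pow_mul] at this
  rw [show 12 = 2 * 3 * 2 from rfl, pow_mul, this, one_pow]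

lemma rot_pow (θ : ℝ) (n : ℕ) : rot θ ^ n = rot (n * θ) := by
  induction n with
  | zero => simp [rot_zero]
  | succ n ih => rw [pow_succ, ih, ← rot_add, Nat.cast_succ, add_mul, one_mul]

end Pool.Agent.Lib.MP_99bfa4_al.SS
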