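import Pool.Agent.Lib.MP_99bfa4_al.SS.Avg

open MeasureTheory UpperHalfPlane
open scoped ContDiff Topology MatrixGroups InnerProductSpace ComplexConjugate

namespace Pool.Agent.Lib.MP_99bfa4_al.SS

/-- The Hilbert space L^2(X). -/
abbrev H2 : Type := Lp ℂ 2 mu

/-- The regular representation. -/
noncomputable def Lop (g : G) : H2 →ₗᵢ[ℂ] H2 :=
  Lp.compMeasurePreservingₗᵢ ℂ (fun x : X => g⁻¹ • x) (measurePreserving_smul g⁻¹ mu)

lemma Lop_ae (g : G) (F : H2) : Lop g F =ᵐ[mu] fun x => F (g⁻¹ • x) :=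
  Lp.coeFn_compMeasurePreserving F (measurePreserving_smul g⁻¹ mu)

lemma Lop_mul (g h : G) (F : H2) : Lop (g * h) F = Lop g (Lop h F) := by
  refine Lp.ext ((Lop_ae _ F).trans (Filter.EventuallyEq.trans ?_ (Lop_ae g _).symm))
  filter_upwards [(measurePreserving_smul g⁻¹ mu).quasiMeasurePreserving.ae_eq_comp (Lop_ae h F)]
    with x hx
  rw [mul_inv_rev, mul_smul]
  exact hx.symm

lemma Lop_one (F : H2) : Lop 1 F = F := by
  refine Lp.ext ((Lop_ae _ F).trans (Filter.Eventually.of_forall fun x => ?_))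
  simp

lemma continuous_Lop (F : H2) : Continuous fun g => Lop g F :=
  Continuous.compMeasurePreservingLp (f := fun _ : G => F)
    (g := fun g : G => (ContinuousMap.curry
      (⟨fun p : G × X => p.1⁻¹ • p.2, by fun_prop⟩ : C(G × X, X)) g))
    continuous_const (map_continuous _) (fun g => measurePreserving_smul g⁻¹ mu) (by norm_num)

/-- Right translation by the affine group. -/
noncomputable def rt (h : ℍ) (x : X) : X := (x.1.toSL2R • h, x.2)

lemma continuous_rt : Continuous fun p : ℍ × X => rt p.1 p.2 := by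
  unfold rt
  have := continuous_toSL2R
  fun_prop

lemma rop_cont (h : ℍ) : Continuous (rt h) :=
  ((continuous_toSL2R.comp continuous_fst).smul continuous_const).prodMk continuous_snd

/-- The linear map of the plane that induces a right translation. -/
noncomputable def ropL (h : ℍ) : ℂ →ₗ[ℝ] ℂ where
  toFun z := z.re + z.im * (h : ℂ)
  map_add' z w := by simp; ring
  map_smul' c z := by simp; ring

lemma ropL_det (h : ℍ) : LinearMap.det (ropL h) = h.im := by
  rw [← LinearMap.det_toMatrix Complex.basisOneI, Matrix.det_fin_two]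
  simp [LinearMap.toMatrix_apply, ropL]

lemma ropL_im (h : ℍ) (z : ℂ) : (ropL h z).im = z.im * h.im := by
  simp [ropL]

lemma rop_map (h : ℍ) :
    (volume : Measure ℍ).map (fun z => z.toSL2R • h) = ENNReal.ofReal h.im • volume := by
  have hc : Continuous fun z : ℍ => z.toSL2R • h := continuous_toSL2R.smul continuous_const
  have hLm : Measurable (ropL h) := (ropL h).continuous_of_finiteDimensional.measurable
  ext s hs
  have hs' : MeasurableSet ((↑) '' s : Set ℂ) := measurableEmbedding_coe.measurableSet_image.2 hs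
  have h1 : ((↑) '' ((fun z : ℍ => z.toSL2R • h) ⁻¹' s) : Set ℂ) = ropL h ⁻¹' ((↑) '' s) := by
    ext y
    constructor
    · rintro ⟨x, hx, rfl⟩
      exact ⟨_, hx, coe_toSL2R_smul x h⟩
    · rintro ⟨x, hx, hxy⟩
      have hy : 0 < y.im := by
        have h2 := x.im_pos
        rw [← coe_im, hxy, ropL_im] at h2
        exact (pos_iff_pos_of_mul_pos h2).2 h.im_pos
      refine ⟨⟨y, hy⟩, ?_, rfl⟩
      have : (⟨y, hy⟩ : ℍ).toSL2R • h = x :=
        UpperHalfPlane.ext ((coe_toSL2R_smul _ h).trans hxy.symm)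
      rw [Set.mem_preimage, this]
      exact hx
  have hm : Measurable fun z : ℂ => (((1 / ‖z.im‖₊) ^ 2 : NNReal) : ENNReal) := by fun_prop
  have h2 : ∀ z : ℂ, (((1 / ‖z.im‖₊) ^ 2 : NNReal) : ENNReal) =
      ENNReal.ofReal (h.im ^ 2) * (((1 / ‖(ropL h z).im‖₊) ^ 2 : NNReal) : ENNReal) := by
    intro z
    rw [ropL_im, ENNReal.ofReal, ← ENNReal.coe_mul]
    congr 1
    ext
    have := h.im_pos
    simp only [NNReal.coe_pow, NNReal.coe_div, NNReal.coe_one, coe_nnnorm, NNReal.coe_mul,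
      Real.coe_toNNReal _ (sq_nonneg h.im), norm_mul, Real.norm_of_nonneg this.le]
    by_cases hz : ‖z.im‖ = 0
    · simp [hz]
    · field_simp
  rw [Measure.map_apply hc.measurable hs, volume_eq_lintegral, Measure.smul_apply,
    volume_eq_lintegral, h1, lintegral_congr h2, lintegral_const_mul' _ _ ENNReal.ofReal_ne_top,
    ← setLIntegral_map hs' hm hLm,
    Measure.map_linearMap_addHaar_eq_smul_addHaar _ (by rw [ropL_det]; exact h.im_ne_zero),
    ropL_det, Measure.restrict_smul, lintegral_smul_measure, smul_eq_mul, smul_eq_mul, ← mul_assoc,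
    ← ENNReal.ofReal_mul (sq_nonneg _), abs_of_pos (inv_pos.2 h.im_pos)]
  congr 2
  have := h.im_ne_zero
  field_simp

lemma map_rt (h : ℍ) : mu.map (rt h) = ENNReal.ofReal h.im • mu := by
  have hc : Continuous fun z : ℍ => z.toSL2R • h := continuous_toSL2R.smul continuous_const
  have h1 := Measure.map_prod_map (volume : Measure ℍ) nu hc.measurable measurable_id
  rw [rop_map, Measure.map_id, Measure.prod_smul_left] at h1
  exact h1.symm

lemma rop_mp (h : ℍ) : MeasurePreserving (rt h) mu (ENNReal.ofReal h.im • mu) :=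
  ⟨(rop_cont h).measurable, map_rt h⟩

lemma qmp_rt (h : ℍ) : Measure.QuasiMeasurePreserving (rt h) mu mu :=
  ⟨(rop_cont h).measurable, by rw [map_rt]; exact Measure.smul_absolutelyContinuous⟩

lemma rop_memLp (h : ℍ) (F : H2) : MemLp (fun x => F (rt h x)) 2 mu :=
  ((Lp.memLp F).smul_measure ENNReal.ofReal_ne_top).comp_measurePreserving (rop_mp h)

/-- Right translation as a linear map. -/
noncomputable def ropLin (h : ℍ) : H2 →ₗ[ℂ] H2 where
  toFun F := (rop_memLp h F).toLp _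
  map_add' F F' := by
    refine Lp.ext ?_
    filter_upwards [(rop_memLp h (F + F')).coeFn_toLp, (rop_memLp h F).coeFn_toLp,
      (rop_memLp h F').coeFn_toLp, (qmp_rt h).ae_eq_comp (Lp.coeFn_add F F'),
      Lp.coeFn_add ((rop_memLp h F).toLp _) ((rop_memLp h F').toLp _)] with x h1 h2 h3 h4 h5
    rw [h1, h5, Pi.add_apply, h2, h3]
    exact h4
  map_smul' c F := by
    refine Lp.ext ?_
    filter_upwards [(rop_memLp h (c • F)).coeFn_toLp, (rop_memLp h F).coeFn_toLp,
      (qmp_rt h).ae_eq_comp (Lp.coeFn_smul c F),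
      Lp.coeFn_smul c ((rop_memLp h F).toLp _)] with x h1 h2 h4 h5
    rw [h1, RingHom.id_apply, h5, Pi.smul_apply, h2]
    exact h4

lemma ropLin_ae (h : ℍ) (F : H2) : ropLin h F =ᵐ[mu] fun x => F (rt h x) :=
  (rop_memLp h F).coeFn_toLp

lemma ropLin_inner (h : ℍ) (F F' : H2) :
    ⟪ropLin h F, ropLin h F'⟫_ℂ = (h.im : ℂ) * ⟪F, F'⟫_ℂ := by
  rw [L2.inner_def, L2.inner_def]
  have h1 : ∫ x, ⟪ropLin h F x, ropLin h F' x⟫_ℂ ∂mu = ∫ x, ⟪F (rt h x), F' (rt h x)⟫_ℂ ∂mu := by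
    refine integral_congr_ae ?_
    filter_upwards [ropLin_ae h F, ropLin_ae h F'] with x h1 h2
    rw [h1, h2]
  have h2 := integral_map (μ := mu) (rop_cont h).measurable.aemeasurable
    (f := fun x => ⟪F x, F' x⟫_ℂ)
    ((Lp.stronglyMeasurable F).inner (Lp.stronglyMeasurable F')).aestronglyMeasurable
  rw [h1, ← h2, map_rt, integral_smul_measure, ENNReal.toReal_ofReal h.im_pos.le,
    Complex.real_smul]

lemma ropLin_norm (h : ℍ) (F : H2) : ‖ropLin h F‖ = √h.im * ‖F‖ := by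
  have h1 := ropLin_inner h F F
  rw [inner_self_eq_norm_sq_to_K, inner_self_eq_norm_sq_to_K] at h1
  have h2 : ‖ropLin h F‖ ^ 2 = h.im * ‖F‖ ^ 2 := by
    apply Complex.ofReal_injective
    push_cast
    exact h1
  rw [← Real.sqrt_sq (norm_nonneg (ropLin h F)), h2, Real.sqrt_mul h.im_pos.le,
    Real.sqrt_sq (norm_nonneg F)]

/-- Right translation as a bounded operator. -/
noncomputable def ropR (h : ℍ) : H2 →L[ℂ] H2 :=
  (ropLin h).mkContinuous (√h.im) fun F => (ropLin_norm h F).le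

lemma ropR_apply (h : ℍ) (F : H2) : ropR h F = ropLin h F := rfl

lemma rop_dense :
    Dense {F : H2 | ∃ φ : X → ℂ, Continuous φ ∧ HasCompactSupport φ ∧ F =ᵐ[mu] φ} := by
  rw [Metric.dense_iff]
  intro F r hr
  obtain ⟨φ, h1, h2, h3, h4⟩ := (Lp.memLp F).exists_hasCompactSupport_eLpNorm_sub_le
    (by norm_num) (ε := ENNReal.ofReal (r / 2)) (by simpa using hr)
  refine ⟨h4.toLp φ, ?_, φ, h3, h1, h4.coeFn_toLp⟩
  rw [Metric.mem_ball, dist_comm, Lp.dist_def]
  have h5 : eLpNorm (⇑F - ⇑(h4.toLp φ)) 2 mu = eLpNorm (⇑F - φ) 2 mu :=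
    eLpNorm_congr_ae ((Filter.EventuallyEq.refl _ _).sub h4.coeFn_toLp)
  rw [h5]
  have h6 := ENNReal.toReal_mono ENNReal.ofReal_ne_top h2
  rw [ENNReal.toReal_ofReal (by linarith)] at h6
  linarith

lemma rop_ext {Z E E' : Type*} [TopologicalSpace Z] [NormedAddCommGroup E] [NormedSpace ℂ E]
    [NormedAddCommGroup E'] [NormedSpace ℂ E'] (T : Z → E →L[ℂ] E') (c : Z → ℝ)
    (hc : Continuous c) (hb : ∀ z v, ‖T z v‖ ≤ c z * ‖v‖) {D : Set E} (hD : Dense D)
    (h : ∀ v ∈ D, Continuous fun z => T z v) (v : E) : Continuous fun z => T z v := by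
  rw [continuous_iff_continuousAt]
  intro z₀
  rw [ContinuousAt, Metric.tendsto_nhds]
  intro ε hε
  set M := |c z₀| + 1 with hM
  have hM0 : 0 < M := by positivity
  obtain ⟨w, hw1, hw2⟩ := Metric.dense_iff.1 hD v (ε / (3 * M)) (by positivity)
  rw [Metric.mem_ball, dist_eq_norm] at hw1
  have h1 : ∀ z, c z < M → ‖T z (w - v)‖ ≤ ε / 3 := by
    intro z hz
    have h2 : c z * ‖w - v‖ ≤ M * (ε / (3 * M)) :=
      (mul_le_mul_of_nonneg_right hz.le (norm_nonneg _)).trans
        (mul_le_mul_of_nonneg_left hw1.le hM0.le)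
    have h3 : M * (ε / (3 * M)) = ε / 3 := by field_simp
    exact (hb z _).trans (h3 ▸ h2)
  have h4 : c z₀ < M := by linarith [le_abs_self (c z₀)]
  filter_upwards [hc.continuousAt.eventually_lt continuousAt_const h4,
    Metric.tendsto_nhds.1 (h w hw2).continuousAt (ε / 3) (by positivity)] with z h5 h6
  rw [dist_eq_norm] at h6 ⊢
  have h7 : T z v - T z₀ v = (T z w - T z₀ w) - T z (w - v) + T z₀ (w - v) := by
    simp only [map_sub]
    abel
  have h8 := h1 z h5
  have h9 := h1 z₀ h4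
  rw [h7]
  have h10 := norm_add_le ((T z w - T z₀ w) - T z (w - v)) (T z₀ (w - v))
  have h11 := norm_sub_le (T z w - T z₀ w) (T z (w - v))
  linarith

lemma rop_inner_cc (h : ℍ) {F F' : H2} {φ φ' : X → ℂ} (h1 : F =ᵐ[mu] φ) (h2 : F' =ᵐ[mu] φ') :
    ⟪ropR h F, F'⟫_ℂ = ∫ x, ⟪φ (rt h x), φ' x⟫_ℂ ∂mu := by
  rw [L2.inner_def]
  refine integral_congr_ae ?_
  filter_upwards [ropLin_ae h F, (qmp_rt h).ae_eq_comp h1, h2] with x h3 h4 h5
  rw [ropR_apply, h3, h5]
  exact congrArg (fun a => ⟪a, φ' x⟫_ℂ) h4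

lemma rop_strong (F : H2) : Continuous fun h => ropR h F := by
  have hc : Continuous fun h : ℍ => √h.im := continuous_im.sqrt
  refine rop_ext ropR _ hc (fun h F => (ropLin_norm h F).le) rop_dense ?_ F
  rintro F ⟨φ, hφ, -, hF⟩
  have hw : ∀ F' : H2, Continuous fun h => ⟪ropR h F, F'⟫_ℂ := by
    refine rop_ext (fun h => innerSL ℂ (ropR h F)) (fun h => √h.im * ‖F‖)
      (hc.mul continuous_const) (fun h F' => ?_) rop_dense ?_
    · rw [← ropLin_norm]
      exact norm_inner_le_norm (𝕜 := ℂ) (ropLin h F) F'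
    · rintro F' ⟨φ', hφ', hK, hF'⟩
      have h1 : ∀ h : ℍ, innerSL ℂ (ropR h F) F' =
          ∫ x in tsupport φ', ⟪φ (rt h x), φ' x⟫_ℂ ∂mu := by
        intro h
        rw [innerSL_apply_apply, rop_inner_cc h hF hF',
          setIntegral_eq_integral_of_forall_compl_eq_zero]
        intro x hx
        rw [image_eq_zero_of_notMem_tsupport hx, inner_zero_right]
      simp only [h1]
      exact continuous_parametric_integral_of_continuous
        ((hφ.comp continuous_rt).inner (hφ'.comp continuous_snd)) hK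
  rw [continuous_iff_continuousAt]
  intro h₀
  rw [ContinuousAt, tendsto_iff_norm_sub_tendsto_zero]
  have h2 : ∀ h, ‖ropR h F - ropR h₀ F‖ = √((√h.im * ‖F‖) ^ 2 -
      2 * RCLike.re ⟪ropR h F, ropR h₀ F⟫_ℂ + ‖ropR h₀ F‖ ^ 2) := by
    intro h
    rw [← ropLin_norm, ← ropR_apply, ← @norm_sub_sq ℂ, Real.sqrt_sq (norm_nonneg _)]
  have h3 : Continuous fun h => ‖ropR h F - ropR h₀ F‖ := by
    simp only [h2]
    exact ((((hc.mul continuous_const).pow 2).sub (continuous_const.mul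
      (RCLike.continuous_re.comp (hw _)))).add continuous_const).sqrt
  simpa using h3.tendsto h₀

lemma rop_fixed (F : H2) (hF : ∀ b : ℝ, ropR (b +ᵥ I) F = F) : F = 0 := by
  by_contra h0
  have h1 : 0 < ‖F‖ := norm_pos_iff.2 h0
  obtain ⟨F₀, h2, φ, -, hK, hφ⟩ := Metric.dense_iff.1 rop_dense F (‖F‖ / 4) (by positivity)
  rw [Metric.mem_ball, dist_eq_norm] at h2
  obtain ⟨M, hM⟩ := hK.isCompact.bddAbove_image
    (f := fun x : X => |x.1.re|) (by fun_prop : Continuous fun x : X => |x.1.re|).continuousOn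
  obtain ⟨N, hN⟩ := hK.isCompact.bddAbove_image (f := fun x : X => (x.1.im)⁻¹)
    (Continuous.inv₀ (by fun_prop) fun x : X => x.1.im_ne_zero).continuousOn
  set b : ℝ := (2 * |M| + 1) * N with hb
  have h3 : ⟪ropR (b +ᵥ I) F₀, F₀⟫_ℂ = 0 := by
    rw [rop_inner_cc _ hφ hφ]
    refine integral_eq_zero_of_ae (Filter.Eventually.of_forall fun x => ?_)
    by_cases hx : x ∈ tsupport φ
    · have h4 : rt (b +ᵥ I) x ∉ tsupport φ := by
        intro h5
        have h6 : |x.1.re| ≤ M := hM ⟨x, hx, rfl⟩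
        have h7 : |(rt (b +ᵥ I) x).1.re| ≤ M := hM ⟨_, h5, rfl⟩
        have h8 : (x.1.im)⁻¹ ≤ N := hN ⟨x, hx, rfl⟩
        have h9 : (rt (b +ᵥ I) x).1.re = x.1.re + x.1.im * b := by
          rw [← coe_re, rt, coe_toSL2R_smul]
          simp
        have h10 : 1 ≤ x.1.im * N := by
          rw [inv_le_iff_one_le_mul₀' x.1.im_pos] at h8
          exact h8
        have h11 : 2 * |M| + 1 ≤ x.1.im * b := by
          have := mul_le_mul_of_nonneg_left h10 (by positivity : 0 ≤ 2 * |M| + 1)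
          rw [hb]
          linarith
        have h12 := le_abs_self M
        have h13 := abs_le.1 h6
        have h14 := abs_le.1 h7
        linarith
      simp [image_eq_zero_of_notMem_tsupport h4]
    · simp [image_eq_zero_of_notMem_tsupport hx]
  have hn : ∀ F' : H2, ‖ropR (b +ᵥ I) F'‖ = ‖F'‖ := fun F' => by
    rw [ropR_apply, ropLin_norm]
    simp
  have h4 : ⟪F, F⟫_ℂ = -⟪ropR (b +ᵥ I) (F₀ - F), F⟫_ℂ - ⟪ropR (b +ᵥ I) F₀, F₀ - F⟫_ℂ := by
    rw [map_sub, hF, inner_sub_left, inner_sub_right, h3]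
    ring
  have h5 : ‖F‖ ^ 2 ≤ ‖F₀ - F‖ * ‖F‖ + ‖F₀‖ * ‖F₀ - F‖ := by
    have h6 := norm_inner_le_norm (𝕜 := ℂ) (ropR (b +ᵥ I) (F₀ - F)) F
    have h7 := norm_inner_le_norm (𝕜 := ℂ) (ropR (b +ᵥ I) F₀) (F₀ - F)
    rw [hn] at h6 h7
    have h8 : ‖⟪F, F⟫_ℂ‖ = ‖F‖ ^ 2 := by
      rw [inner_self_eq_norm_sq_to_K]
      simp
    have h9 := norm_sub_le (-⟪ropR (b +ᵥ I) (F₀ - F), F⟫_ℂ) ⟪ropR (b +ᵥ I) F₀, F₀ - F⟫_ℂ
    rw [← h4, h8, norm_neg] at h9
    linarith
  have h6 : ‖F₀‖ ≤ ‖F₀ - F‖ + ‖F‖ := norm_le_norm_sub_add _ _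
  nlinarith [norm_nonneg (F₀ - F), norm_nonneg F₀]

/-- The right translation operators. -/
theorem exists_R : ∃ R : ℍ → H2 →L[ℂ] H2, RRep R ∧ (∀ h F, R h F =ᵐ[mu] fun x => F (rt h x)) ∧
    ∀ F, (∀ b : ℝ, R (b +ᵥ I) F = F) → F = 0 := by
  refine ⟨ropR, ⟨?_, fun g h => ?_, ropLin_inner, rop_strong⟩, ropLin_ae, rop_fixed⟩
  · ext1 F
    refine Lp.ext ((ropLin_ae _ F).trans (Filter.Eventually.of_forall fun x => ?_))
    simp [rt]
  · ext1 F
    refine Lp.ext ((ropLin_ae _ F).trans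
      (Filter.EventuallyEq.trans ?_ (ropLin_ae g (ropLin h F)).symm))
    filter_upwards [(qmp_rt g).ae_eq_comp (ropLin_ae h F)] with x hx
    refine Eq.trans ?_ hx.symm
    simp only [rt, Function.comp_apply, toSL2R_smul, mul_smul]

end Pool.Agent.Lib.MP_99bfa4_al.SS
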